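import Pool.Agent.H44Cliq.Pot

/-!
# Breaker's side (Erdős–Selfridge)
-/

namespace Pool.Agent.H44Cliq

open Finset

/-- Breaker's strategy from an invariant of the positions after Maker's moves. -/
theorem not_makerBuilds_of_invariant {N q : ℕ} (J : Finset (Finset ℕ) → Finset (Finset ℕ) → Prop)
    (hempty : ¬ HasClique q ∅)
    (hinit : ∀ v ∈ board N, J {v} ∅)
    (hstep : ∀ M B, J M B → (∃ x ∈ board N, x ∉ M ∪ B) → ∃ w ∈ board N, w ∉ M ∪ B ∧
      ∀ v ∈ board N, v ∉ M ∪ insert w B → J (insert v M) (insert w B))
    (hJ : ∀ M B, J M B → ¬ HasClique q M) : ¬ MakerBuilds N q := by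
  classical
  rintro ⟨σ, hσ, hwin⟩
  set V := board N with hV
  let Good : Finset (Finset ℕ) → Finset (Finset ℕ) → Finset ℕ → Prop := fun M B w =>
    w ∈ V ∧ w ∉ M ∪ B ∧ ∀ v ∈ V, v ∉ M ∪ insert w B → J (insert v M) (insert w B)
  let β : Strategy := fun h =>
    if c : ∃ w, Good (makerEdges h) (breakerEdges h) w then c.choose
    else if d : ∃ e ∈ V, e ∉ h then d.choose else ∅
  have hβ : Legal N β := by
    intro h hex
    by_cases c : ∃ w, Good (makerEdges h) (breakerEdges h) w
    · have hs : β h = c.choose := by simp only [β]; rw [dif_pos c]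
      rw [hs]
      have := c.choose_spec
      exact ⟨this.1, fun hm => this.2.1 (mem_hist.2 hm)⟩
    · have d : ∃ e ∈ V, e ∉ h := hex
      have hs : β h = d.choose := by simp only [β]; rw [dif_neg c, dif_pos d]
      rw [hs]
      exact d.choose_spec
  obtain ⟨n, hn, hcl⟩ := hwin β hβ
  have hfree : ∀ h : List (Finset ℕ), h.length < V.card → ∃ e ∈ V, e ∉ h := by
    intro h hl
    by_contra hcon
    push Not at hcon
    have : V ⊆ h.toFinset := fun e he => List.mem_toFinset.2 (hcon e he)
    have h1 := Finset.card_le_card this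
    have h2 := List.toFinset_card_le h
    omega
  have hlen : ∀ n, (play σ β n).length = n := by
    intro n
    induction n with
    | zero => rfl
    | succ n ih => simp [play, ih]
  have hodd : ∀ k, 2 * k + 1 ≤ V.card → J (makerEdges (play σ β (2 * k + 1)))
      (breakerEdges (play σ β (2 * k + 1))) := by
    intro k
    induction k with
    | zero =>
      intro hk
      have hp : play σ β (2 * 0 + 1) = [σ []] := by simp [play]
      rw [hp]
      have h1 : makerEdges [σ []] = {σ []} := by simp [makerEdges]
      have h2 : breakerEdges [σ []] = ∅ := by simp [breakerEdges]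
      rw [h1, h2]
      apply hinit
      exact (hσ [] (hfree [] (by rw [List.length_nil]; omega))).1
    | succ k ih =>
      intro hk
      have hJk := ih (by omega)
      have hfr := hfree (play σ β (2 * k + 1)) (by rw [hlen]; omega)
      have c : ∃ w, Good (makerEdges (play σ β (2 * k + 1)))
          (breakerEdges (play σ β (2 * k + 1))) w := by
        obtain ⟨e, he, hen⟩ := hfr
        obtain ⟨w, h1, h2, h3⟩ := hstep _ _ hJk ⟨e, he, fun hm => hen (mem_hist.1 hm)⟩
        exact ⟨w, h1, h2, h3⟩
      have hs : β (play σ β (2 * k + 1)) = c.choose := by simp only [β]; rw [dif_pos c]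
      have hc := c.choose_spec
      rw [← hs] at hc
      have hl1 : ¬ ((play σ β (2 * k + 1)).length % 2 = 0) := by rw [hlen]; omega
      have hp2 : play σ β (2 * k + 2) = β (play σ β (2 * k + 1)) :: play σ β (2 * k + 1) := by
        conv_lhs => unfold play
        have h0 : ¬ ((2 * k + 1) % 2 = 0) := by omega
        rw [if_neg h0]
      have hl2 : (play σ β (2 * k + 2)).length % 2 = 0 := by rw [hlen]; omega
      have hp3 : play σ β (2 * (k + 1) + 1) = σ (play σ β (2 * k + 2)) :: play σ β (2 * k + 2) := by
        have : 2 * (k + 1) + 1 = 2 * k + 2 + 1 := by ring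
        rw [this]
        conv_lhs => unfold play
        have h0 : (2 * k + 2) % 2 = 0 := by omega
        rw [if_pos h0]
      have hm2 : makerEdges (play σ β (2 * k + 2)) = makerEdges (play σ β (2 * k + 1)) := by
        rw [hp2]; simp only [makerEdges]; rw [if_neg hl1]
      have hb2 : breakerEdges (play σ β (2 * k + 2)) =
          insert (β (play σ β (2 * k + 1))) (breakerEdges (play σ β (2 * k + 1))) := by
        rw [hp2]; simp only [breakerEdges]; rw [if_neg hl1]
      have hm3 : makerEdges (play σ β (2 * (k + 1) + 1)) =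
          insert (σ (play σ β (2 * k + 2))) (makerEdges (play σ β (2 * k + 1))) := by
        rw [hp3]; simp only [makerEdges]; rw [if_pos hl2, hm2]
      have hb3 : breakerEdges (play σ β (2 * (k + 1) + 1)) =
          insert (β (play σ β (2 * k + 1))) (breakerEdges (play σ β (2 * k + 1))) := by
        rw [hp3]; simp only [breakerEdges]; rw [if_pos hl2, hb2]
      rw [hm3, hb3]
      have hfr2 := hfree (play σ β (2 * k + 2)) (by rw [hlen]; omega)
      have hσ2 := hσ _ hfr2
      apply hc.2.2
      · exact hσ2.1
      · rw [← hb2, ← hm2]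
        intro hm
        exact hσ2.2 (mem_hist.1 hm)
  rcases Nat.even_or_odd' n with ⟨k, hk | hk⟩
  · rcases Nat.eq_zero_or_pos k with h0 | h0
    · subst h0
      simp only [mul_zero] at hk
      subst hk
      exact hempty hcl
    · obtain ⟨j, rfl⟩ : ∃ j, k = j + 1 := ⟨k - 1, by omega⟩
      have hJk := hodd j (by omega)
      have hl1 : ¬ ((play σ β (2 * j + 1)).length % 2 = 0) := by rw [hlen]; omega
      have hp2 : play σ β (2 * j + 2) = β (play σ β (2 * j + 1)) :: play σ β (2 * j + 1) := by
        conv_lhs => unfold play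
        have h0 : ¬ ((2 * j + 1) % 2 = 0) := by omega
        rw [if_neg h0]
      have hm2 : makerEdges (play σ β (2 * j + 2)) = makerEdges (play σ β (2 * j + 1)) := by
        rw [hp2]; simp only [makerEdges]; rw [if_neg hl1]
      have hn2 : n = 2 * j + 2 := by omega
      rw [hn2, hm2] at hcl
      exact hJ _ _ hJk hcl
  · subst hk
    exact hJ _ _ (hodd k hn) hcl

/-- number of `q`-cliques (vertex sets inside `range N`) all of whose edges lie in `M` -/
noncomputable def cliqueCount (N q : ℕ) (M : Finset (Finset ℕ)) : ℝ :=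
  (((Finset.range N).powersetCard q).filter (fun A => A.powersetCard 2 ⊆ M)).card

/-- the probability that a random completion contains `S` -/
theorem ev_superset {α : Type} [DecidableEq α] {S U : Finset α} (hS : S ⊆ U) :
    ev (fun X => if S ⊆ X then (1 : ℝ) else 0) ∅ U = 1 / 2 ^ S.card := by
  unfold ev
  have h1 : ∑ C ∈ U.powerset, (if S ⊆ ∅ ∪ C then (1 : ℝ) else 0) =
      ((Finset.Icc S U).card : ℝ) := by
    rw [← Finset.sum_filter, Finset.sum_const, nsmul_eq_mul, mul_one]
    congr 2
    ext C
    simp only [Finset.mem_filter, Finset.mem_powerset, Finset.empty_union, Finset.mem_Icc]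
    exact and_comm
  rw [h1, Finset.card_Icc_finset hS]
  have h2 : (2 : ℝ) ^ U.card = 2 ^ (U.card - S.card) * 2 ^ S.card := by
    rw [← pow_add, Nat.sub_add_cancel (Finset.card_le_card hS)]
  rw [h2]
  push_cast
  have h3 : (2 : ℝ) ^ (U.card - S.card) ≠ 0 := by positivity
  have h4 : (2 : ℝ) ^ S.card ≠ 0 := by positivity
  field_simp

theorem cliqueCount_eq_sum (N q : ℕ) (M : Finset (Finset ℕ)) :
    cliqueCount N q M = ∑ A ∈ (Finset.range N).powersetCard q,
      (if A.powersetCard 2 ⊆ M then (1 : ℝ) else 0) := by
  unfold cliqueCount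
  rw [Finset.card_filter]
  push_cast
  rfl

theorem ev_cliqueCount (N q : ℕ) :
    ev (cliqueCount N q) ∅ (board N) = (N.choose q : ℝ) / 2 ^ (q.choose 2) := by
  have h1 : (cliqueCount N q) = fun M => ∑ A ∈ (Finset.range N).powersetCard q,
      (if A.powersetCard 2 ⊆ M then (1 : ℝ) else 0) := by
    funext M; exact cliqueCount_eq_sum N q M
  rw [h1, ev_sum]
  have h2 : ∀ A ∈ (Finset.range N).powersetCard q,
      ev (fun X => if A.powersetCard 2 ⊆ X then (1 : ℝ) else 0) ∅ (board N) =
        1 / 2 ^ (q.choose 2) := by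
    intro A hA
    rw [Finset.mem_powersetCard] at hA
    have hs : A.powersetCard 2 ⊆ board N := Finset.powersetCard_mono hA.1
    rw [ev_superset hs, Finset.card_powersetCard, hA.2]
  rw [Finset.sum_congr rfl h2, Finset.sum_const, Finset.card_powersetCard, Finset.card_range,
    nsmul_eq_mul]
  ring

theorem hasClique_of_count {N q : ℕ} {M : Finset (Finset ℕ)} (h : 0 < cliqueCount N q M) :
    HasClique q M := by
  unfold cliqueCount at h
  have h1 := Finset.card_pos.1 (by exact_mod_cast h)
  obtain ⟨A, hA⟩ := h1
  rw [Finset.mem_filter, Finset.mem_powersetCard] at hA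
  exact ⟨A, hA.1.2, hA.2⟩

theorem count_of_hasClique {N q : ℕ} (hq : 2 ≤ q) {M : Finset (Finset ℕ)} (hM : M ⊆ board N)
    (h : HasClique q M) : 1 ≤ cliqueCount N q M := by
  obtain ⟨A, hA, hAM⟩ := h
  have hsub : A ⊆ Finset.range N := by
    intro x hx
    obtain ⟨y, hy, hxy⟩ : ∃ y ∈ A, x ≠ y := by
      have : 1 < A.card := by omega
      rw [Finset.one_lt_card_iff_nontrivial] at this
      obtain ⟨y, hy, hne⟩ := this.exists_ne x
      exact ⟨y, hy, hne.symm⟩
    have h1 : ({x, y} : Finset ℕ) ∈ A.powersetCard 2 := by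
      rw [Finset.mem_powersetCard]
      refine ⟨?_, Finset.card_pair hxy⟩
      intro z hz
      simp only [Finset.mem_insert, Finset.mem_singleton] at hz
      rcases hz with rfl | rfl
      · exact hx
      · exact hy
    have h2 := hM (hAM h1)
    unfold board at h2
    rw [Finset.mem_powersetCard] at h2
    exact h2.1 (Finset.mem_insert_self _ _)
  unfold cliqueCount
  have h1 : 0 < (((Finset.range N).powersetCard q).filter
      (fun A => A.powersetCard 2 ⊆ M)).card := by
    apply Finset.card_pos.2
    exact ⟨A, Finset.mem_filter.2 ⟨Finset.mem_powersetCard.2 ⟨hsub, hA⟩, hAM⟩⟩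
  exact_mod_cast h1

/-- second differences of counting functions are nonnegative -/
theorem dd_indicator_nonneg {α : Type} [DecidableEq α] (S : Finset α) (v w : α) (M : Finset α)
    (hv : v ∉ M) (hw : w ∉ M) (hvw : v ≠ w) :
    dd (fun X => if S ⊆ X then (1 : ℝ) else 0) v w M =
      if S ⊆ insert w (insert v M) ∧ v ∈ S ∧ w ∈ S then 1 else 0 := by
  have key : ∀ (x : α) (X : Finset α), x ∉ X → (S ⊆ X ↔ S ⊆ insert x X ∧ x ∉ S) := by
    intro x X hx
    constructor
    · intro h
      exact ⟨h.trans (Finset.subset_insert _ _), fun hxS => hx (h hxS)⟩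
    · rintro ⟨h, hxS⟩ y hy
      rcases Finset.mem_insert.1 (h hy) with rfl | h'
      · exact absurd hy hxS
      · exact h'
  have hw' : w ∉ insert v M := by
    simp only [Finset.mem_insert, not_or]; exact ⟨hvw.symm, hw⟩
  have hv' : v ∉ insert w M := by
    simp only [Finset.mem_insert, not_or]; exact ⟨hvw, hv⟩
  have k1 := key w (insert v M) hw'
  have k2 := key v (insert w M) hv'
  have k3 := key v M hv
  rw [Finset.insert_comm v w M] at k2
  unfold dd
  by_cases h : S ⊆ insert w (insert v M)
  · by_cases h1 : v ∈ S <;> by_cases h2 : w ∈ S <;> simp_all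
  · have h1 : ¬ S ⊆ insert v M := fun h' => h (h'.trans (Finset.subset_insert _ _))
    have h2 : ¬ S ⊆ insert w M := by rw [k2]; tauto
    have h3 : ¬ S ⊆ M := by rw [k3]; tauto
    simp [h, h1, h2, h3]

theorem dd_cliqueCount (N q : ℕ) (v w : Finset ℕ) (M : Finset (Finset ℕ))
    (hv : v ∉ M) (hw : w ∉ M) (hvw : v ≠ w) :
    dd (cliqueCount N q) v w M = (((Finset.range N).powersetCard q).filter
      (fun A => A.powersetCard 2 ⊆ insert w (insert v M) ∧ v ∈ A.powersetCard 2 ∧
        w ∈ A.powersetCard 2)).card := by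
  have h1 : dd (cliqueCount N q) v w M = ∑ A ∈ (Finset.range N).powersetCard q,
      dd (fun X => if A.powersetCard 2 ⊆ X then (1 : ℝ) else 0) v w M := by
    unfold dd
    rw [cliqueCount_eq_sum, cliqueCount_eq_sum, cliqueCount_eq_sum, cliqueCount_eq_sum,
      Finset.sum_add_distrib, Finset.sum_sub_distrib, Finset.sum_sub_distrib]
  rw [h1, Finset.sum_congr rfl
    (fun A _ => dd_indicator_nonneg (A.powersetCard 2) v w M hv hw hvw), Finset.card_filter]
  push_cast
  rfl

theorem cliqueCount_mono (N q : ℕ) {M M' : Finset (Finset ℕ)} (h : M ⊆ M') :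
    cliqueCount N q M ≤ cliqueCount N q M' := by
  unfold cliqueCount
  have : (((Finset.range N).powersetCard q).filter (fun A => A.powersetCard 2 ⊆ M)) ⊆
      (((Finset.range N).powersetCard q).filter (fun A => A.powersetCard 2 ⊆ M')) := by
    intro A hA
    rw [Finset.mem_filter] at hA ⊢
    exact ⟨hA.1, hA.2.trans h⟩
  exact_mod_cast Finset.card_le_card this

theorem cliqueCount_nonneg (N q : ℕ) (M : Finset (Finset ℕ)) : 0 ≤ cliqueCount N q M := by
  unfold cliqueCount; positivity

/-- Erdős–Selfridge: Breaker, as the second player, prevents `K_q`. -/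
theorem not_makerBuilds {N q : ℕ} (hq : 2 ≤ q) (h : N.choose q * 2 < 2 ^ (q.choose 2)) :
    ¬ MakerBuilds N q := by
  classical
  set T := cliqueCount N q with hT
  have hT0 : ev T ∅ (board N) * 2 < 1 := by
    rw [hT, ev_cliqueCount]
    have h2 : (0 : ℝ) < 2 ^ (q.choose 2) := by positivity
    rw [div_mul_eq_mul_div, div_lt_one h2]
    exact_mod_cast h
  have hclT : ∀ M ⊆ board N, HasClique q M → 1 ≤ T M := fun M hM hcl =>
    count_of_hasClique hq hM hcl
  apply not_makerBuilds_of_invariant (J := fun M B => M ⊆ board N ∧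
    ev T M (board N \ (M ∪ B)) < 1)
  · intro hcl
    have h1 := hclT ∅ (Finset.empty_subset _) hcl
    have h2 : T ∅ ≤ ev T ∅ (board N) := by
      apply le_ev_of_forall
      intro C _
      exact cliqueCount_mono N q (Finset.empty_subset _)
    linarith
  · intro v hv
    refine ⟨Finset.singleton_subset_iff.2 hv, ?_⟩
    have h1 := ev_split T ∅ (board N) hv
    have h2 : 0 ≤ ev T ∅ ((board N).erase v) := by
      apply le_ev_of_forall
      intro C _
      exact cliqueCount_nonneg N q _
    have h3 : board N \ ({v} ∪ ∅) = (board N).erase v := by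
      ext x
      simp only [Finset.mem_sdiff, Finset.mem_union, Finset.mem_singleton, Finset.notMem_empty,
        or_false, Finset.mem_erase]
      tauto
    have h4 : (insert v ∅ : Finset (Finset ℕ)) = {v} := rfl
    rw [h4] at h1
    rw [h3]
    linarith
  · rintro M B ⟨hMV, hlt⟩ ⟨x, hx, hxn⟩
    set U := board N \ (M ∪ B) with hU
    have hne : U.Nonempty := ⟨x, Finset.mem_sdiff.2 ⟨hx, hxn⟩⟩
    obtain ⟨w, hwU, hwmax⟩ := Finset.exists_max_image U
      (fun x => ev T (insert x M) (U.erase x) - ev T M U) hne
    have hwV := (Finset.mem_sdiff.1 hwU).1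
    have hwn := (Finset.mem_sdiff.1 hwU).2
    refine ⟨w, hwV, hwn, ?_⟩
    intro v hvV hvn
    have hvw : v ≠ w := by
      intro h; apply hvn; rw [h]
      exact Finset.mem_union_right _ (Finset.mem_insert_self _ _)
    have hvU : v ∈ U := by
      apply Finset.mem_sdiff.2
      refine ⟨hvV, fun h => hvn ?_⟩
      rw [Finset.union_insert]
      exact Finset.mem_insert_of_mem h
    refine ⟨Finset.insert_subset hvV hMV, ?_⟩
    have hset : board N \ (insert v M ∪ insert w B) = (U.erase v).erase w := by
      ext x
      simp only [hU, Finset.mem_sdiff, Finset.mem_union, Finset.mem_insert, Finset.mem_erase]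
      tauto
    rw [hset, ev_round T M U hvU hwU hvw]
    have h1 := hwmax v hvU
    have h2 : 0 ≤ ev (dd T v w) M ((U.erase v).erase w) := by
      apply le_ev_of_forall
      intro C hC
      have hCU : C ⊆ U := hC.trans ((Finset.erase_subset _ _).trans
        (Finset.erase_subset _ _))
      rw [hT, dd_cliqueCount]
      · positivity
      · intro h
        rcases Finset.mem_union.1 h with h | h
        · exact (Finset.mem_sdiff.1 hvU).2 (Finset.mem_union_left _ h)
        · have := hC h
          simp at this
      · intro h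
        rcases Finset.mem_union.1 h with h | h
        · exact hwn (Finset.mem_union_left _ h)
        · have := hC h
          simp at this
      · exact hvw
    linarith
  · rintro M B ⟨hMV, hlt⟩ hcl
    have h1 := hclT M hMV hcl
    have h2 : T M ≤ ev T M (board N \ (M ∪ B)) := by
      apply le_ev_of_forall
      intro C _
      exact cliqueCount_mono N q Finset.subset_union_left
    linarith

end Pool.Agent.H44Cliq
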