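import Pool.Agent.H44Cliq.Moment

/-!
# The criterion for Maker's win
-/

namespace Pool.Agent.H44Cliq

open Finset

/-- Maker wins the `K_q` game on `K_N`, in positional form -/
def WinsOn (N q : ℕ) : Prop := Win (board N) (HasClique q) ∅ ∅

theorem board_mono {N N' : ℕ} (h : N ≤ N') : board N ⊆ board N' := by
  unfold board
  exact Finset.powersetCard_mono (Finset.range_subset_range.2 h)

theorem WinsOn.mono {N N' q : ℕ} (h : N ≤ N') (hw : WinsOn N q) : WinsOn N' q := by
  unfold WinsOn at *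
  exact Win.mono (board_mono h) hw ∅ ∅ (fun M3 M4 h3 h34 _ => h3.mono h34)
    (Finset.Subset.refl _) (fun x hx _ => hx)

theorem WinsOn.makerBuilds {N q : ℕ} (hw : WinsOn N q) : MakerBuilds N q :=
  makerBuilds_of_win hw

/-- number of `q`-cliques of `M` (inside `range N`) containing `τ` -/
def Yc (N q : ℕ) (τ : Finset ℕ) (M : Finset (Finset ℕ)) : ℕ :=
  ((((Finset.range N).powersetCard q).filter (fun A => τ ⊆ A)).filter
    (fun A => A.powersetCard 2 ⊆ M)).card

theorem Yc_eq_sum (N q : ℕ) (τ : Finset ℕ) (M : Finset (Finset ℕ)) :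
    (Yc N q τ M : ℝ) = ∑ A ∈ ((Finset.range N).powersetCard q).filter (fun A => τ ⊆ A),
      (if A.powersetCard 2 ⊆ M then (1 : ℝ) else 0) := by
  unfold Yc
  rw [Finset.card_filter]
  push_cast
  rfl

theorem Yc_mono (N q : ℕ) (τ : Finset ℕ) {M M' : Finset (Finset ℕ)} (h : M ⊆ M') :
    Yc N q τ M ≤ Yc N q τ M' := by
  unfold Yc
  apply Finset.card_le_card
  intro A hA
  rw [Finset.mem_filter] at hA ⊢
  exact ⟨hA.1, hA.2.trans h⟩

theorem dd_Yc (N q : ℕ) (τ : Finset ℕ) (v w : Finset ℕ) (M : Finset (Finset ℕ))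
    (hv : v ∉ M) (hw : w ∉ M) (hvw : v ≠ w) :
    dd (fun M => (Yc N q τ M : ℝ)) v w M =
      ((((Finset.range N).powersetCard q).filter (fun A => τ ⊆ A)).filter
      (fun A => A.powersetCard 2 ⊆ insert w (insert v M) ∧ v ∈ A.powersetCard 2 ∧
        w ∈ A.powersetCard 2)).card := by
  have h1 : dd (fun M => (Yc N q τ M : ℝ)) v w M =
      ∑ A ∈ ((Finset.range N).powersetCard q).filter (fun A => τ ⊆ A),
      dd (fun X => if A.powersetCard 2 ⊆ X then (1 : ℝ) else 0) v w M := by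
    unfold dd
    beta_reduce
    rw [Yc_eq_sum, Yc_eq_sum, Yc_eq_sum, Yc_eq_sum,
      Finset.sum_add_distrib, Finset.sum_sub_distrib, Finset.sum_sub_distrib]
  rw [h1, Finset.sum_congr rfl
    (fun A _ => dd_indicator_nonneg (A.powersetCard 2) v w M hv hw hvw), Finset.card_filter]
  push_cast
  rfl

/-- the potential -/
noncomputable def Fpot (N q : ℕ) (G : ℕ → ℝ) (M : Finset (Finset ℕ)) : ℝ :=
  cliqueCount N q M - ∑ τ ∈ (Finset.range N).powersetCard 3, G (Yc N q τ M)

theorem dd_G {N q : ℕ} {G : ℕ → ℝ} (hG0 : G 0 = 0)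
    (hGc : ∀ x a b : ℕ, G (x + a) + G (x + b) ≤ G (x + a + b) + G x)
    (τ v w : Finset ℕ) (M : Finset (Finset ℕ)) (hv : v ∉ M) (hw : w ∉ M) (hvw : v ≠ w) :
    G ((((Finset.range N).powersetCard q).filter (fun A => τ ⊆ A)).filter
      (fun A => A.powersetCard 2 ⊆ insert w (insert v M) ∧ v ∈ A.powersetCard 2 ∧
        w ∈ A.powersetCard 2)).card ≤ dd (fun M => G (Yc N q τ M)) v w M := by
  set c := ((((Finset.range N).powersetCard q).filter (fun A => τ ⊆ A)).filter
      (fun A => A.powersetCard 2 ⊆ insert w (insert v M) ∧ v ∈ A.powersetCard 2 ∧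
        w ∈ A.powersetCard 2)).card with hc
  have h1 := dd_Yc N q τ v w M hv hw hvw
  unfold dd at h1
  simp only at h1
  rw [← hc] at h1
  have h2 := Yc_mono N q τ (Finset.subset_insert v M)
  have h3 := Yc_mono N q τ (Finset.subset_insert w M)
  obtain ⟨a, ha⟩ := Nat.exists_eq_add_of_le h2
  obtain ⟨b, hb⟩ := Nat.exists_eq_add_of_le h3
  have h4 : Yc N q τ (insert w (insert v M)) = Yc N q τ M + a + b + c := by
    rw [ha, hb] at h1
    have : (Yc N q τ (insert w (insert v M)) : ℝ) = (Yc N q τ M + a + b + c : ℕ) := by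
      push_cast at h1 ⊢
      linarith
    exact_mod_cast this
  unfold dd
  simp only
  rw [h4, ha, hb]
  have h5 := hGc (Yc N q τ M) a b
  have h6 := hGc 0 (Yc N q τ M + a + b) c
  rw [hG0] at h6
  simp only [zero_add] at h6
  linarith

/-- Maker wins when the average of the potential is large. -/
theorem winsOn_of_G {N q : ℕ} (G : ℕ → ℝ) (κ : ℝ) (hκ : 0 ≤ κ) (hG0 : G 0 = 0)
    (hGnn : ∀ n, 0 ≤ G n)
    (hGc : ∀ x a b : ℕ, G (x + a) + G (x + b) ≤ G (x + a + b) + G x)
    (hGκ : ∀ t : ℕ, (t : ℝ) - G t ≤ κ)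
    (hev : κ / 4 * (((board N).card / 2 : ℕ) : ℝ) < ev (Fpot N q G) ∅ (board N)) :
    WinsOn N q := by
  unfold WinsOn
  have hset : board N \ (∅ ∪ ∅) = board N := by simp
  apply win_of_potential (board N) (HasClique q) (Fpot N q G) κ hκ ?_ ?_ ?_ (board N).card ∅ ∅
    (Finset.empty_subset _) (by rw [hset]) (Finset.disjoint_empty_left _) (by rw [hset]; exact hev)
  · -- second differences
    intro M hM v hv w hw hvw hvM hwM
    have hv2 := (Finset.mem_powersetCard.1 hv)
    have hw2 := (Finset.mem_powersetCard.1 hw)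
    -- the triple
    have h3 : 3 ≤ (v ∪ w).card := by
      by_contra hcon
      have h1 : v = v ∪ w := by
        apply Finset.eq_of_subset_of_card_le Finset.subset_union_left
        rw [hv2.2]; omega
      have h2 : w = v ∪ w := by
        apply Finset.eq_of_subset_of_card_le Finset.subset_union_right
        rw [hw2.2]; omega
      exact hvw (h1.trans h2.symm)
    obtain ⟨τ0, hτ0, hτ0c⟩ := Finset.exists_subset_card_eq h3
    have hτ0m : τ0 ∈ (Finset.range N).powersetCard 3 :=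
      Finset.mem_powersetCard.2 ⟨hτ0.trans (Finset.union_subset hv2.1 hw2.1), hτ0c⟩
    have hdd : dd (Fpot N q G) v w M = dd (cliqueCount N q) v w M -
        ∑ τ ∈ (Finset.range N).powersetCard 3, dd (fun M => G (Yc N q τ M)) v w M := by
      unfold dd Fpot
      rw [Finset.sum_add_distrib, Finset.sum_sub_distrib, Finset.sum_sub_distrib]
      ring
    rw [hdd, dd_cliqueCount N q v w M hvM hwM hvw]
    set t := (((Finset.range N).powersetCard q).filter
      (fun A => A.powersetCard 2 ⊆ insert w (insert v M) ∧ v ∈ A.powersetCard 2 ∧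
        w ∈ A.powersetCard 2)).card with ht
    have h4 : G t ≤ ∑ τ ∈ (Finset.range N).powersetCard 3,
        dd (fun M => G (Yc N q τ M)) v w M := by
      have h5 : ∀ τ ∈ (Finset.range N).powersetCard 3,
          0 ≤ dd (fun M => G (Yc N q τ M)) v w M := fun τ _ =>
        (hGnn _).trans (dd_G (N := N) (q := q) hG0 hGc τ v w M hvM hwM hvw)
      refine le_trans ?_ (Finset.single_le_sum h5 hτ0m)
      have h6 := dd_G (N := N) (q := q) hG0 hGc τ0 v w M hvM hwM hvw
      have h7 : ((((Finset.range N).powersetCard q).filter (fun A => τ0 ⊆ A)).filter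
          (fun A => A.powersetCard 2 ⊆ insert w (insert v M) ∧ v ∈ A.powersetCard 2 ∧
            w ∈ A.powersetCard 2)).card = t := by
        rw [ht]
        congr 1
        ext A
        simp only [Finset.mem_filter]
        constructor
        · rintro ⟨⟨h1, _⟩, h2⟩; exact ⟨h1, h2⟩
        · rintro ⟨h1, h2, h8, h9⟩
          refine ⟨⟨h1, ?_⟩, h2, h8, h9⟩
          exact hτ0.trans (Finset.union_subset (Finset.mem_powersetCard.1 h8).1
            (Finset.mem_powersetCard.1 h9).1)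
      rw [h7] at h6
      exact h6
    have h5 := hGκ t
    linarith
  · intro M _ hF
    apply hasClique_of_count (N := N)
    unfold Fpot at hF
    have : 0 ≤ ∑ τ ∈ (Finset.range N).powersetCard 3, G (Yc N q τ M) :=
      Finset.sum_nonneg (fun τ _ => hGnn _)
    linarith
  · intro M M' h hc
    exact hc.mono h

/-- `Y = 1[τ ⊂ M] X` -/
theorem Yc_eq {N q : ℕ} {τ : Finset ℕ} (hτ : τ ⊆ Finset.range N) (_hτ2 : 2 ≤ τ.card)
    (hq : τ.card ≤ q) (M : Finset (Finset ℕ)) :
    Yc N q τ M = if τ.powersetCard 2 ⊆ M then Xc τ (Finset.range N \ τ) (q - τ.card) M else 0 := by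
  split_ifs with h
  · unfold Yc Xc
    apply Finset.card_bij' (fun A _ => A \ τ) (fun R _ => τ ∪ R)
    · intro A hA
      simp only [Finset.mem_filter, Finset.mem_powersetCard] at hA ⊢
      obtain ⟨⟨⟨hA1, hA2⟩, hA3⟩, hA4⟩ := hA
      refine ⟨⟨Finset.sdiff_subset_sdiff hA1 (Finset.Subset.refl _), ?_⟩, ?_⟩
      · rw [Finset.card_sdiff_of_subset hA3, hA2]
      · intro e he
        rw [mem_Ed] at he
        apply hA4
        rw [Finset.mem_powersetCard]
        refine ⟨?_, he.2.1⟩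
        rw [Finset.union_sdiff_of_subset hA3] at he
        exact he.1
    · intro R hR
      simp only [Finset.mem_filter, Finset.mem_powersetCard] at hR ⊢
      obtain ⟨⟨hR1, hR2⟩, hR3⟩ := hR
      have hdis : Disjoint τ R := Finset.disjoint_of_subset_right hR1 Finset.disjoint_sdiff
      refine ⟨⟨⟨Finset.union_subset hτ (hR1.trans Finset.sdiff_subset), ?_⟩,
        Finset.subset_union_left⟩, ?_⟩
      · rw [Finset.card_union_of_disjoint hdis, hR2]; omega
      · intro e he
        rw [Finset.mem_powersetCard] at he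
        by_cases heτ : e ⊆ τ
        · exact h (Finset.mem_powersetCard.2 ⟨heτ, he.2⟩)
        · exact hR3 (mem_Ed.2 ⟨he.1, he.2, heτ⟩)
    · intro A hA
      simp only [Finset.mem_filter, Finset.mem_powersetCard] at hA
      exact Finset.union_sdiff_of_subset hA.1.2
    · intro R hR
      simp only [Finset.mem_filter, Finset.mem_powersetCard] at hR
      have hdis : Disjoint τ R := Finset.disjoint_of_subset_right hR.1.1 Finset.disjoint_sdiff
      exact Finset.union_sdiff_cancel_left hdis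
  · unfold Yc
    rw [Finset.card_eq_zero]
    apply Finset.eq_empty_of_forall_notMem
    intro A hA
    simp only [Finset.mem_filter, Finset.mem_powersetCard] at hA
    apply h
    exact (Finset.powersetCard_mono hA.1.2).trans hA.2

theorem ev_G_Yc {N q : ℕ} {G : ℕ → ℝ} (hG0 : G 0 = 0) {τ : Finset ℕ}
    (hτ : τ ∈ (Finset.range N).powersetCard 3) (hq : 3 ≤ q) :
    ev (fun M => G (Yc N q τ M)) ∅ (board N) =
      1 / 8 * ev (fun M => G (Xc τ (Finset.range N \ τ) (q - 3) M)) ∅ (board N) := by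
  obtain ⟨hτ1, hτ2⟩ := Finset.mem_powersetCard.1 hτ
  have h1 : (fun M => G (Yc N q τ M)) = fun M => if τ.powersetCard 2 ⊆ M then
      G (Xc τ (Finset.range N \ τ) (q - 3) M) else 0 := by
    funext M
    rw [Yc_eq hτ1 (by omega) (by omega), hτ2]
    split_ifs
    · rfl
    · exact hG0
  rw [h1, ev_indep (τ.powersetCard 2) (board N) (Finset.powersetCard_mono hτ1)]
  · rw [Finset.card_powersetCard, hτ2]
    norm_num
  · intro X _
    congr 1
    unfold Xc
    congr 1
    apply Finset.filter_congr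
    intro R _
    constructor
    · intro h e he
      rw [Finset.mem_sdiff]
      refine ⟨h he, fun h2 => ?_⟩
      rw [mem_Ed] at he
      exact he.2.2 (Finset.mem_powersetCard.1 h2).1
    · intro h
      exact h.trans Finset.sdiff_subset

/-- tangent inequality for powers -/
theorem tangent_pow (n : ℕ) {t K : ℝ} (ht : 0 ≤ t) (hK : 0 ≤ K) :
    ((n : ℝ) + 1) * K ^ n * t ≤ t ^ (n + 1) + n * K ^ (n + 1) := by
  induction n with
  | zero => simp
  | succ n ih =>
    have h1 := mul_le_mul_of_nonneg_right ih ht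
    have h2 : 0 ≤ ((n : ℝ) + 1) * K ^ n * (t - K) ^ 2 := by positivity
    have e1 : t ^ (n + 1 + 1) = t ^ (n + 1) * t := pow_succ _ _
    have e2 : K ^ (n + 1 + 1) = K ^ n * K * K := by ring
    have e3 : K ^ (n + 1) = K ^ n * K := pow_succ _ _
    rw [e3] at h1 ⊢
    rw [e1, e2]
    push_cast
    nlinarith

/-- the auxiliary function -/
def hfun (p s : ℕ) (y : ℝ) : ℝ := y ^ (p + 1) - (p + 1) * (s : ℝ) ^ p * y + p * (s : ℝ) ^ (p + 1)

theorem hfun_nonneg (p s : ℕ) {y : ℝ} (hy : 0 ≤ y) : 0 ≤ hfun p s y := by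
  unfold hfun
  have := tangent_pow p hy (by positivity : (0 : ℝ) ≤ s)
  linarith

theorem hfun_self (p s : ℕ) : hfun p s s = 0 := by
  unfold hfun
  rw [pow_succ]
  ring

/-- the truncated function -/
noncomputable def Gfun (l : ℝ) (p s : ℕ) (n : ℕ) : ℝ := l * hfun p s ((max n s : ℕ) : ℝ)

theorem Gfun_nonneg {l : ℝ} (hl : 0 ≤ l) (p s n : ℕ) : 0 ≤ Gfun l p s n :=
  mul_nonneg hl (hfun_nonneg p s (by positivity))

theorem Gfun_zero (l : ℝ) (p s : ℕ) : Gfun l p s 0 = 0 := by
  unfold Gfun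
  rw [Nat.zero_max, hfun_self, mul_zero]

theorem hfun_le_hfun_succ (p s y : ℕ) (h : s ≤ y) : hfun p s y ≤ hfun p s ((y + 1 : ℕ) : ℝ) := by
  unfold hfun
  have h1 := tangent_pow p (t := ((y + 1 : ℕ) : ℝ)) (K := (y : ℝ)) (by positivity) (by positivity)
  have h2 : (s : ℝ) ^ p ≤ (y : ℝ) ^ p := pow_le_pow_left₀ (by positivity) (by exact_mod_cast h) p
  have h3 : (y : ℝ) ^ (p + 1) = (y : ℝ) ^ p * y := pow_succ _ _
  push_cast at h1 ⊢
  rw [h3] at h1 ⊢
  nlinarith [mul_le_mul_of_nonneg_left h2 (by positivity : (0 : ℝ) ≤ (p : ℝ) + 1)]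

theorem Gfun_convex {l : ℝ} (hl : 0 ≤ l) (p s : ℕ) (x a b : ℕ) :
    Gfun l p s (x + a) + Gfun l p s (x + b) ≤ Gfun l p s (x + a + b) + Gfun l p s x := by
  have hD : Monotone (fun y : ℕ => Gfun l p s (y + 1) - Gfun l p s y) := by
    apply monotone_nat_of_le_succ
    intro y
    unfold Gfun
    have key : hfun p s ((max (y + 1) s : ℕ) : ℝ) - hfun p s ((max y s : ℕ) : ℝ) ≤
        hfun p s ((max (y + 1 + 1) s : ℕ) : ℝ) - hfun p s ((max (y + 1) s : ℕ) : ℝ) := by
      rcases Nat.lt_or_ge y s with h | h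
      · have e1 : max (y + 1) s = s := by omega
        have e2 : max y s = s := by omega
        rw [e1, e2, sub_self, hfun_self, sub_zero]
        exact hfun_nonneg p s (by positivity)
      · have e1 : max (y + 1) s = y + 1 := by omega
        have e2 : max y s = y := by omega
        have e3 : max (y + 1 + 1) s = y + 1 + 1 := by omega
        rw [e1, e2, e3]
        have h1 := tangent_pow p (t := ((y + 1 + 1 : ℕ) : ℝ)) (K := ((y + 1 : ℕ) : ℝ))
          (by positivity) (by positivity)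
        have h2 := tangent_pow p (t := (y : ℝ)) (K := ((y + 1 : ℕ) : ℝ))
          (by positivity) (by positivity)
        have h3 : ((y + 1 : ℕ) : ℝ) ^ (p + 1) = ((y + 1 : ℕ) : ℝ) ^ p * ((y + 1 : ℕ) : ℝ) :=
          pow_succ _ _
        unfold hfun
        rw [h3] at h1 h2 ⊢
        have e4 : ((y + 1 + 1 : ℕ) : ℝ) = ((y + 1 : ℕ) : ℝ) + 1 := by push_cast; ring
        have e5 : (y : ℝ) = ((y + 1 : ℕ) : ℝ) - 1 := by push_cast; ring
        have h2' : ((p : ℝ) + 1) * ((y + 1 : ℕ) : ℝ) ^ p * (((y + 1 : ℕ) : ℝ) - 1) ≤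
            (y : ℝ) ^ (p + 1) + p * (((y + 1 : ℕ) : ℝ) ^ p * ((y + 1 : ℕ) : ℝ)) := by
          rw [← e5]; exact h2
        have h1' : ((p : ℝ) + 1) * ((y + 1 : ℕ) : ℝ) ^ p * (((y + 1 : ℕ) : ℝ) + 1) ≤
            ((y + 1 + 1 : ℕ) : ℝ) ^ (p + 1) +
              p * (((y + 1 : ℕ) : ℝ) ^ p * ((y + 1 : ℕ) : ℝ)) := by
          rw [← e4]; exact h1
        have e6 : ((p : ℝ) + 1) * (s : ℝ) ^ p * ((y + 1 + 1 : ℕ) : ℝ) =
            ((p : ℝ) + 1) * (s : ℝ) ^ p * (((y + 1 : ℕ) : ℝ) + 1) := by rw [e4]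
        have e7 : ((p : ℝ) + 1) * (s : ℝ) ^ p * (y : ℝ) =
            ((p : ℝ) + 1) * (s : ℝ) ^ p * (((y + 1 : ℕ) : ℝ) - 1) := by rw [← e5]
        rw [e6, e7]
        linarith
    have := mul_le_mul_of_nonneg_left key hl
    linarith
  induction b with
  | zero => simp
  | succ b ih =>
    have h1 := hD (show x + b ≤ x + a + b by omega)
    simp only at h1
    have e1 : x + (b + 1) = x + b + 1 := by ring
    have e2 : x + a + (b + 1) = x + a + b + 1 := by ring
    rw [e1, e2]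
    linarith

theorem Gfun_kappa {l K : ℝ} {p s : ℕ} (hp : 1 ≤ p) (hK : (s : ℝ) < K)
    (hl : l = 1 / ((p + 1) * (K ^ p - (s : ℝ) ^ p))) (t : ℕ) :
    (t : ℝ) - Gfun l p s t ≤ l * (p * (K ^ (p + 1) - (s : ℝ) ^ (p + 1))) := by
  have hK0 : 0 < K := lt_of_le_of_lt (by positivity) hK
  have hKs : 0 < K ^ p - (s : ℝ) ^ p := by
    have := pow_lt_pow_left₀ hK (by positivity) (by omega : p ≠ 0)
    linarith
  have hl0 : 0 < l := by rw [hl]; positivity
  have hl1 : l * ((p + 1) * (K ^ p - (s : ℝ) ^ p)) = 1 := by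
    rw [hl]; field_simp
  -- the tangent at `K`
  have key : ∀ y : ℝ, 0 ≤ y → y - l * hfun p s y ≤
      l * (p * (K ^ (p + 1) - (s : ℝ) ^ (p + 1))) := by
    intro y hy
    have h1 := tangent_pow p hy hK0.le
    have h2 : y = l * ((p + 1) * (K ^ p - (s : ℝ) ^ p)) * y := by rw [hl1, one_mul]
    have h3 : y - l * hfun p s y = l * (((p + 1) * (K ^ p - (s : ℝ) ^ p)) * y - hfun p s y) := by
      conv_lhs => rw [h2]
      have : l * ((↑p + 1) * (K ^ p - ↑s ^ p)) = 1 := hl1
      rw [this, one_mul]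
      rw [mul_sub, ← mul_assoc, hl1, one_mul]
    rw [h3]
    apply mul_le_mul_of_nonneg_left _ hl0.le
    unfold hfun
    linarith
  unfold Gfun
  rcases Nat.lt_or_ge t s with h | h
  · have e1 : max t s = s := by omega
    rw [e1, hfun_self, mul_zero, sub_zero]
    have h1 := key s (by positivity)
    rw [hfun_self, mul_zero, sub_zero] at h1
    have h2 : (t : ℝ) ≤ s := by exact_mod_cast h.le
    linarith
  · have e1 : max t s = t := by omega
    rw [e1]
    exact key t (by positivity)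

theorem Gfun_le {l : ℝ} (hl : 0 ≤ l) (p s n : ℕ) : Gfun l p s n ≤ l * hfun p s n := by
  unfold Gfun
  rcases Nat.lt_or_ge n s with h | h
  · have e1 : max n s = s := by omega
    rw [e1, hfun_self, mul_zero]
    exact mul_nonneg hl (hfun_nonneg p s (by positivity))
  · have e1 : max n s = n := by omega
    rw [e1]

/-- The criterion. -/
theorem winsOn_of_moment {N q p s : ℕ} {K m : ℝ} (hq : 3 ≤ q) (hqN : q ≤ N)
    (hp : 1 ≤ p) (hK : (s : ℝ) < K)
    (hm : ∀ τ ∈ (Finset.range N).powersetCard 3,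
      ev (fun M => (Xc τ (Finset.range N \ τ) (q - 3) M : ℝ) ^ (p + 1)) ∅ (board N) ≤ m)
    (h : m - (p + 1) * (s : ℝ) ^ p * (((N - 3).choose (q - 3) : ℝ) / 2 ^ (q.choose 2 - 3)) +
        p * (s : ℝ) ^ (p + 1) + p * (K ^ (p + 1) - (s : ℝ) ^ (p + 1)) * (3 / ((N : ℝ) - 2)) <
      (p + 1) * (K ^ p - (s : ℝ) ^ p) *
        ((((N - 3).choose (q - 3) : ℝ) / 2 ^ (q.choose 2 - 3)) / (q.choose 3 : ℝ))) :
    WinsOn N q := by
  have hK0 : 0 < K := lt_of_le_of_lt (by positivity) hK
  have hKs : 0 < K ^ p - (s : ℝ) ^ p := by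
    have := pow_lt_pow_left₀ hK (by positivity) (by omega : p ≠ 0)
    linarith
  set l : ℝ := 1 / ((p + 1) * (K ^ p - (s : ℝ) ^ p)) with hl
  have hl0 : 0 < l := by rw [hl]; positivity
  have hl1 : l * ((p + 1) * (K ^ p - (s : ℝ) ^ p)) = 1 := by
    rw [hl]; field_simp
  set x : ℝ := ((N - 3).choose (q - 3) : ℝ) / 2 ^ (q.choose 2 - 3) with hx
  set κ : ℝ := l * (p * (K ^ (p + 1) - (s : ℝ) ^ (p + 1))) with hκ
  have hκ0 : 0 ≤ κ := by
    have := Gfun_kappa hp hK hl 0
    rw [Gfun_zero] at this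
    simpa using this
  apply winsOn_of_G (Gfun l p s) κ hκ0 (Gfun_zero l p s) (Gfun_nonneg hl0.le p s)
    (Gfun_convex hl0.le p s) (Gfun_kappa hp hK hl)
  -- the average of the potential
  have h1 : ev (Fpot N q (Gfun l p s)) ∅ (board N) = ev (cliqueCount N q) ∅ (board N) -
      ∑ τ ∈ (Finset.range N).powersetCard 3, ev (fun M => Gfun l p s (Yc N q τ M)) ∅ (board N) := by
    rw [← ev_sum, ← ev_sub]
    rfl
  have h2 : ∀ τ ∈ (Finset.range N).powersetCard 3,
      ev (fun M => Gfun l p s (Yc N q τ M)) ∅ (board N) ≤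
        1 / 8 * (l * (m - (p + 1) * (s : ℝ) ^ p * x + p * (s : ℝ) ^ (p + 1))) := by
    intro τ hτ
    obtain ⟨hτ1, hτ2⟩ := Finset.mem_powersetCard.1 hτ
    rw [ev_G_Yc (Gfun_zero l p s) hτ hq]
    apply mul_le_mul_of_nonneg_left _ (by norm_num)
    set X : Finset (Finset ℕ) → ℕ := fun M => Xc τ (Finset.range N \ τ) (q - 3) M with hX
    have h3 : ev (fun M => Gfun l p s (X M)) ∅ (board N) ≤
        ev (fun M => l * (((X M : ℝ) ^ (p + 1) - (p + 1) * (s : ℝ) ^ p * (X M : ℝ)) +
          p * (s : ℝ) ^ (p + 1))) ∅ (board N) := by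
      apply ev_mono
      intro C _
      exact Gfun_le hl0.le p s _
    rw [ev_mul_left, ev_add, ev_sub, ev_mul_left, ev_const] at h3
    refine h3.trans (mul_le_mul_of_nonneg_left ?_ hl0.le)
    have h4 := hm τ hτ
    have h5 : ev (fun M => (X M : ℝ)) ∅ (board N) = x := by
      have h6 := ev_Xc (N := N) hτ1 (Finset.sdiff_subset (s := Finset.range N) (t := τ))
        Finset.disjoint_sdiff (q - 3)
      rw [Finset.card_sdiff_of_subset hτ1, Finset.card_range, hτ2,
        show 3 + (q - 3) = q by omega, show Nat.choose 3 2 = 3 from rfl] at h6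
      exact h6
    rw [h5]
    linarith
  have h3 : ∑ τ ∈ (Finset.range N).powersetCard 3,
      ev (fun M => Gfun l p s (Yc N q τ M)) ∅ (board N) ≤
      (N.choose 3 : ℝ) * (1 / 8 * (l * (m - (p + 1) * (s : ℝ) ^ p * x +
        p * (s : ℝ) ^ (p + 1)))) := by
    refine (Finset.sum_le_sum h2).trans ?_
    rw [Finset.sum_const, Finset.card_powersetCard, Finset.card_range, nsmul_eq_mul]
  have hN3 : 3 ≤ N := by omega
  have hC3 : (0 : ℝ) < (N.choose 3 : ℝ) := by exact_mod_cast Nat.choose_pos hN3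
  have hq3 : (0 : ℝ) < (q.choose 3 : ℝ) := by exact_mod_cast Nat.choose_pos hq
  have hN2 : (0 : ℝ) < (N : ℝ) - 2 := by
    have : (3 : ℝ) ≤ N := by exact_mod_cast hN3
    linarith
  have h4 : ev (cliqueCount N q) ∅ (board N) = (N.choose 3 : ℝ) * (1 / 8 * (x / q.choose 3)) := by
    rw [ev_cliqueCount, hx]
    have h5 : N.choose q * q.choose 3 = N.choose 3 * (N - 3).choose (q - 3) :=
      Nat.choose_mul hq
    have h5' : (N.choose q : ℝ) * (q.choose 3 : ℝ) = (N.choose 3 : ℝ) *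
        ((N - 3).choose (q - 3) : ℝ) := by exact_mod_cast h5
    have h6 : (2 : ℝ) ^ (q.choose 2) = 2 ^ (q.choose 2 - 3) * 8 := by
      have h7 : 3 ≤ q.choose 2 := by
        have := Nat.choose_le_choose 2 hq
        simpa using this
      rw [show (8 : ℝ) = 2 ^ 3 by norm_num, ← pow_add, Nat.sub_add_cancel h7]
    rw [h6]
    have h8 : (0 : ℝ) < 2 ^ (q.choose 2 - 3) := by positivity
    rw [div_eq_iff (by positivity)]
    have h9 : (N.choose 3 : ℝ) * (1 / 8 * (((N - 3).choose (q - 3) : ℝ) / 2 ^ (q.choose 2 - 3) /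
        (q.choose 3 : ℝ))) * (2 ^ (q.choose 2 - 3) * 8) = ((N.choose 3 : ℝ) *
        ((N - 3).choose (q - 3) : ℝ)) / (q.choose 3 : ℝ) := by
      field_simp
    rw [h9, ← h5', mul_div_assoc, div_self hq3.ne', mul_one]
  have h5 : ((board N).card : ℝ) = (N.choose 3 : ℝ) * (3 / ((N : ℝ) - 2)) := by
    unfold board
    rw [Finset.card_powersetCard, Finset.card_range]
    have h6 : N.choose 3 * 3 = N.choose 2 * (N - 2) := Nat.choose_succ_right_eq N 2
    have h6' : (N.choose 3 : ℝ) * 3 = (N.choose 2 : ℝ) * ((N : ℝ) - 2) := by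
      have h7 : ((N - 2 : ℕ) : ℝ) = (N : ℝ) - 2 := by
        rw [Nat.cast_sub (by omega)]; norm_num
      rw [← h7]
      exact_mod_cast h6
    rw [mul_div_assoc', h6']
    field_simp
  have h6 : (((board N).card / 2 : ℕ) : ℝ) ≤ ((board N).card : ℝ) / 2 := Nat.cast_div_le
  have h7 : κ / 4 * (((board N).card / 2 : ℕ) : ℝ) ≤
      (N.choose 3 : ℝ) * (1 / 8 * (κ * (3 / ((N : ℝ) - 2)))) := by
    have h8 : κ / 4 * (((board N).card / 2 : ℕ) : ℝ) ≤ κ / 4 * (((board N).card : ℝ) / 2) :=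
      mul_le_mul_of_nonneg_left h6 (by linarith)
    refine h8.trans (le_of_eq ?_)
    rw [h5]
    ring
  have h8 : κ * (3 / ((N : ℝ) - 2)) + l * (m - (p + 1) * (s : ℝ) ^ p * x +
      p * (s : ℝ) ^ (p + 1)) < x / q.choose 3 := by
    have h9 := mul_lt_mul_of_pos_left h hl0
    have h10 : l * ((p + 1) * (K ^ p - (s : ℝ) ^ p) * (x / (q.choose 3 : ℝ))) =
        x / (q.choose 3 : ℝ) := by
      rw [← mul_assoc, hl1, one_mul]
    rw [h10] at h9
    refine lt_of_eq_of_lt ?_ h9
    rw [hκ]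
    ring
  rw [h1, h4]
  refine lt_of_le_of_lt h7 ?_
  refine lt_of_lt_of_le ?_ (sub_le_sub_left h3 _)
  rw [← mul_sub]
  apply mul_lt_mul_of_pos_left _ hC3
  linarith

end Pool.Agent.H44Cliq
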