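import Mathlib

/-!
# The Maker–Breaker clique game on `K_N`: definitions
-/

namespace Pool.Agent.H44Cliq

/-- The edges of the complete graph `K_N` on the vertex set `{0, …, N-1}`:
all two-element subsets of the vertex set. -/
def board (N : ℕ) : Finset (Finset ℕ) := (Finset.range N).powersetCard 2

/-- The set `M` of edges contains all edges of some complete graph on `q` vertices. -/
def HasClique (q : ℕ) (M : Finset (Finset ℕ)) : Prop :=
  ∃ A : Finset ℕ, A.card = q ∧ A.powersetCard 2 ⊆ M

/-- A strategy of either player: the edge to be claimed next, as a function of the list of all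
edges claimed so far (by both players, the most recent one first). -/
abbrev Strategy := List (Finset ℕ) → Finset ℕ

/-- A strategy is legal on `K_N` if it always claims a previously unclaimed edge of `K_N`,
as long as there is one. -/
def Legal (N : ℕ) (s : Strategy) : Prop :=
  ∀ h : List (Finset ℕ), (∃ e ∈ board N, e ∉ h) → s h ∈ board N ∧ s h ∉ h

/-- The list of the edges claimed in the first `n` moves (the most recent one first), when Maker
plays the strategy `σ` and Breaker plays the strategy `β`.  Maker makes the first move, and then
the players alternate. -/
def play (σ β : Strategy) : ℕ → List (Finset ℕ)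
  | 0 => []
  | n + 1 => (if n % 2 = 0 then σ (play σ β n) else β (play σ β n)) :: play σ β n

/-- The edges claimed by Maker (i.e. in the first, third, fifth, … move), from the list of all
claimed edges, the most recent one first. -/
def makerEdges : List (Finset ℕ) → Finset (Finset ℕ)
  | [] => ∅
  | e :: h => if h.length % 2 = 0 then insert e (makerEdges h) else makerEdges h

/-- Maker has a strategy for the clique game on `K_N` that builds `K_q` against every strategy
of Breaker. -/
def MakerBuilds (N q : ℕ) : Prop :=
  ∃ σ : Strategy, Legal N σ ∧ ∀ β : Strategy, Legal N β →
    ∃ n ≤ (board N).card, HasClique q (makerEdges (play σ β n))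

/-- The clique achievement number `A(K_N; clique)`: the largest `q ≤ N` such that Maker has a
strategy that builds `K_q` against every strategy of Breaker. -/
noncomputable def achievement (N : ℕ) : ℕ := sSup {q : ℕ | q ≤ N ∧ MakerBuilds N q}

/-- `f(N) = 2 log₂ N - 2 log₂ log₂ N + 2 log₂ e - 3`. -/
noncomputable def f (N : ℕ) : ℝ :=
  2 * Real.logb 2 N - 2 * Real.logb 2 (Real.logb 2 N) + 2 * Real.logb 2 (Real.exp 1) - 3

end Pool.Agent.H44Cliq
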