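import Pool.Agent.H44Cliq.Defs

/-!
# Positional form of the game
-/

namespace Pool.Agent.H44Cliq

open Finset

/-- the edges claimed by Breaker -/
def breakerEdges : List (Finset ℕ) → Finset (Finset ℕ)
  | [] => ∅
  | e :: h => if h.length % 2 = 0 then breakerEdges h else insert e (breakerEdges h)

theorem union_edges (h : List (Finset ℕ)) :
    makerEdges h ∪ breakerEdges h = h.toFinset := by
  induction h with
  | nil => simp [makerEdges, breakerEdges]
  | cons e h ih =>
    simp only [makerEdges, breakerEdges, List.toFinset_cons]
    rw [← ih]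
    split_ifs
    · rw [Finset.insert_union]
    · rw [Finset.union_insert]

theorem mem_hist {h : List (Finset ℕ)} {e : Finset ℕ} :
    e ∈ makerEdges h ∪ breakerEdges h ↔ e ∈ h := by
  rw [union_edges, List.mem_toFinset]

/-- `Win V W M B`: Maker, to move, can reach a position whose Maker set satisfies `W`. -/
inductive Win {α : Type} [DecidableEq α] (V : Finset α) (W : Finset α → Prop) :
    Finset α → Finset α → Prop
  | done (M B : Finset α) (h : W M) : Win V W M B
  | step (M B : Finset α) (v : α) (hv : v ∈ V) (hvn : v ∉ M ∪ B)
      (h : ∀ w ∈ V, w ∉ insert v M ∪ B → Win V W (insert v M) (insert w B))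
      (hlast : (∀ w ∈ V, w ∈ insert v M ∪ B) → W (insert v M)) : Win V W M B

section general

variable {α : Type} [DecidableEq α]

theorem Win.full {V : Finset α} {W : Finset α → Prop} {M B : Finset α} (hw : Win V W M B)
    (hfull : ∀ w ∈ V, w ∈ M ∪ B) : W M := by
  cases hw with
  | done _ _ h => exact h
  | step _ _ v hv hvn h hlast => exact absurd (hfull v hv) hvn

/-- monotonicity: larger board, more Maker elements, fewer Breaker elements on the small board -/
theorem Win.mono {V V' : Finset α} {W W' : Finset α → Prop} (hV : V ⊆ V')
    {M B : Finset α} (hw : Win V W M B) :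
    ∀ M2 B2 : Finset α, (hWW : ∀ M3 M4, W M3 → M3 ⊆ M4 → M2 ⊆ M4 → W' M4) →
      M ⊆ M2 → (∀ x ∈ B2, x ∈ V → x ∈ B) → Win V' W' M2 B2 := by
  induction hw with
  | done M B h =>
    intro M2 B2 hWW hM hB
    exact Win.done _ _ (hWW M M2 h hM (Finset.Subset.refl _))
  | step M B v hv hvn h hlast ih =>
    intro M2 B2 hWW hM hB
    -- a generic continuation
    have key : ∀ M3 B3 : Finset α, M2 ⊆ M3 → insert v M ⊆ M3 →
        (∀ x ∈ B3, x ∈ V → x ∈ B ∨ ∃ w, w ∈ V ∧ w ∉ insert v M ∪ B ∧ x ∈ insert w B ∧
          ∀ y ∈ B3, y ∈ V → y ∈ insert w B) → Win V' W' M3 B3 := by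
      intro M3 B3 h23 hM3 hB3
      by_cases hex : ∃ x ∈ B3, x ∈ V ∧ x ∉ B
      · obtain ⟨x, hx, hxV, hxB⟩ := hex
        rcases hB3 x hx hxV with h1 | ⟨w, hwV, hwn, _, hall⟩
        · exact absurd h1 hxB
        · exact ih w hwV hwn M3 B3
            (fun M4 M5 hW h45 h35 => hWW M4 M5 hW h45 (h23.trans h35)) hM3 hall
      · push Not at hex
        by_cases hfree : ∃ w ∈ V, w ∉ insert v M ∪ B
        · obtain ⟨w, hwV, hwn⟩ := hfree
          exact ih w hwV hwn M3 B3
            (fun M4 M5 hW h45 h35 => hWW M4 M5 hW h45 (h23.trans h35)) hM3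
            (fun y hy hyV => Finset.mem_insert_of_mem (hex y hy hyV))
        · push Not at hfree
          exact Win.done _ _ (hWW _ _ (hlast hfree) hM3 h23)
    by_cases hvM : v ∈ M2
    · exact key M2 B2 (Finset.Subset.refl _) (Finset.insert_subset hvM hM)
        (fun x hx hxV => Or.inl (hB x hx hxV))
    · have hvB : v ∉ B2 := fun hb => hvn (Finset.mem_union_right _ (hB v hb hv))
      refine Win.step M2 B2 v (hV hv) (by simp [hvM, hvB]) ?_ ?_
      · intro w hw hwn
        apply key
        · exact Finset.subset_insert _ _
        · exact Finset.insert_subset_insert _ hM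
        · intro x hx hxV
          by_cases hwV : w ∈ V
          · by_cases hwB : w ∈ B
            · left
              rcases Finset.mem_insert.1 hx with rfl | hx
              · exact hwB
              · exact hB x hx hxV
            · right
              have hwM : w ∉ insert v M := by
                intro hm
                apply hwn
                apply Finset.mem_union_left
                exact Finset.insert_subset_insert _ hM hm
              refine ⟨w, hwV, by simp only [Finset.mem_union, not_or]; exact ⟨hwM, hwB⟩, ?_, ?_⟩
              · rcases Finset.mem_insert.1 hx with rfl | hx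
                · exact Finset.mem_insert_self _ _
                · exact Finset.mem_insert_of_mem (hB x hx hxV)
              · intro y hy hyV
                rcases Finset.mem_insert.1 hy with rfl | hy
                · exact Finset.mem_insert_self _ _
                · exact Finset.mem_insert_of_mem (hB y hy hyV)
          · left
            rcases Finset.mem_insert.1 hx with rfl | hx
            · exact absurd hxV hwV
            · exact hB x hx hxV
      · intro hfull
        have h1 : Win V' W' (insert v M2) B2 := by
          apply key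
          · exact Finset.subset_insert _ _
          · exact Finset.insert_subset_insert _ hM
          · intro x hx hxV
            exact Or.inl (hB x hx hxV)
        exact h1.full hfull

/-- Maker's set only grows. -/
theorem Win.keep {V : Finset α} {W : Finset α → Prop} {M B : Finset α} (hw : Win V W M B)
    {M0 : Finset α} (h0 : M0 ⊆ M) : Win V (fun M' => M0 ⊆ M' ∧ W M') M B := by
  induction hw with
  | done M B h => exact Win.done _ _ ⟨h0, h⟩
  | step M B v hv hvn h hlast ih =>
    have h1 : M0 ⊆ insert v M := h0.trans (Finset.subset_insert _ _)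
    exact Win.step M B v hv hvn (fun w hw hwn => ih w hw hwn h1)
      (fun hf => ⟨h1, hlast hf⟩)

theorem Win.imp {V : Finset α} {W W' : Finset α → Prop} {M B : Finset α} (hw : Win V W M B)
    (hWW : ∀ M, W M → W' M) : Win V W' M B := by
  induction hw with
  | done M B h => exact Win.done _ _ (hWW _ h)
  | step M B v hv hvn h hlast ih =>
    exact Win.step M B v hv hvn ih (fun hf => hWW _ (hlast hf))

end general

theorem HasClique.mono {q : ℕ} {M M' : Finset (Finset ℕ)} (h : HasClique q M) (hM : M ⊆ M') :
    HasClique q M' := by
  obtain ⟨A, hA, hAM⟩ := h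
  exact ⟨A, hA, hAM.trans hM⟩

/-- From the positional win to a strategy in the sense of the definition. -/
theorem makerBuilds_of_win {N q : ℕ} (hw : Win (board N) (HasClique q) ∅ ∅) :
    MakerBuilds N q := by
  classical
  set V := board N with hV
  -- a good move in a position
  let Good : Finset (Finset ℕ) → Finset (Finset ℕ) → Finset ℕ → Prop := fun M B v =>
    v ∈ V ∧ v ∉ M ∪ B ∧ (∀ w ∈ V, w ∉ insert v M ∪ B → Win V (HasClique q) (insert v M)
      (insert w B)) ∧ ((∀ w ∈ V, w ∈ insert v M ∪ B) → HasClique q (insert v M))
  have good_ex : ∀ M B, Win V (HasClique q) M B → (∃ x ∈ V, x ∉ M ∪ B) → ∃ v, Good M B v := by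
    intro M B hw hx
    cases hw with
    | done _ _ h =>
      obtain ⟨x, hxV, hxn⟩ := hx
      have h1 := h.mono (Finset.subset_insert x M)
      exact ⟨x, hxV, hxn, fun w _ _ => Win.done _ _ h1, fun _ => h1⟩
    | step _ _ v hv hvn h hlast => exact ⟨v, hv, hvn, h, hlast⟩
  let σ : Strategy := fun h =>
    if c : ∃ v, Good (makerEdges h) (breakerEdges h) v then c.choose
    else if d : ∃ e ∈ V, e ∉ h then d.choose else ∅
  have hσ : Legal N σ := by
    intro h hex
    by_cases c : ∃ v, Good (makerEdges h) (breakerEdges h) v
    · have hs : σ h = c.choose := by simp only [σ]; rw [dif_pos c]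
      rw [hs]
      have := c.choose_spec
      exact ⟨this.1, fun hm => this.2.1 (mem_hist.2 hm)⟩
    · have d : ∃ e ∈ V, e ∉ h := hex
      have hs : σ h = d.choose := by simp only [σ]; rw [dif_neg c, dif_pos d]
      rw [hs]
      exact d.choose_spec
  refine ⟨σ, hσ, fun β hβ => ?_⟩
  -- invariants
  have hfree : ∀ h : List (Finset ℕ), h.length < V.card → ∃ e ∈ V, e ∉ h := by
    intro h hl
    by_contra hcon
    push Not at hcon
    have : V ⊆ h.toFinset := fun e he => List.mem_toFinset.2 (hcon e he)
    have h1 := Finset.card_le_card this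
    have h2 := List.toFinset_card_le h
    omega
  have hlen : ∀ n, (play σ β n).length = n := by
    intro n
    induction n with
    | zero => rfl
    | succ n ih => simp [play, ih]
  have hsub : ∀ n, n ≤ V.card → (play σ β n).Nodup ∧ ∀ e ∈ play σ β n, e ∈ V := by
    intro n
    induction n with
    | zero => intro _; simp [play]
    | succ n ih =>
      intro hn
      obtain ⟨h1, h2⟩ := ih (by omega)
      have hfr := hfree (play σ β n) (by rw [hlen]; omega)
      have h3 : (if n % 2 = 0 then σ (play σ β n) else β (play σ β n)) ∈ V ∧
          (if n % 2 = 0 then σ (play σ β n) else β (play σ β n)) ∉ play σ β n := by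
        split_ifs
        · exact hσ _ hfr
        · exact hβ _ hfr
      simp only [play]
      refine ⟨List.nodup_cons.2 ⟨h3.2, h1⟩, ?_⟩
      intro e he
      rcases List.mem_cons.1 he with rfl | he
      · exact h3.1
      · exact h2 e he
  have hinv : ∀ k, 2 * k ≤ V.card → Win V (HasClique q) (makerEdges (play σ β (2 * k)))
      (breakerEdges (play σ β (2 * k))) := by
    intro k
    induction k with
    | zero => intro _; exact hw
    | succ k ih =>
      intro hk
      have hwk := ih (by omega)
      have hfr := hfree (play σ β (2 * k)) (by rw [hlen]; omega)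
      have c : ∃ v, Good (makerEdges (play σ β (2 * k))) (breakerEdges (play σ β (2 * k))) v := by
        apply good_ex _ _ hwk
        obtain ⟨e, he, hen⟩ := hfr
        exact ⟨e, he, fun hm => hen (mem_hist.1 hm)⟩
      have hs : σ (play σ β (2 * k)) = c.choose := by simp only [σ]; rw [dif_pos c]
      have hc := c.choose_spec
      rw [← hs] at hc
      have hp1 : play σ β (2 * k + 1) = σ (play σ β (2 * k)) :: play σ β (2 * k) := by
        simp [play]
      have hfr1 := hfree (play σ β (2 * k + 1)) (by rw [hlen]; omega)
      have hb := hβ _ hfr1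
      have hp2 : play σ β (2 * (k + 1)) = β (play σ β (2 * k + 1)) :: play σ β (2 * k + 1) := by
        have : 2 * (k + 1) = 2 * k + 1 + 1 := by ring
        rw [this]
        conv_lhs => unfold play
        have h0 : ¬ ((2 * k + 1) % 2 = 0) := by omega
        rw [if_neg h0]
      have hm1 : makerEdges (play σ β (2 * k + 1)) =
          insert (σ (play σ β (2 * k))) (makerEdges (play σ β (2 * k))) := by
        rw [hp1]; simp only [makerEdges]; rw [hlen]; simp
      have hb1 : breakerEdges (play σ β (2 * k + 1)) = breakerEdges (play σ β (2 * k)) := by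
        rw [hp1]; simp only [breakerEdges]; rw [hlen]; simp
      have hl1 : ¬ ((play σ β (2 * k + 1)).length % 2 = 0) := by rw [hlen]; omega
      have hm2 : makerEdges (play σ β (2 * (k + 1))) =
          insert (σ (play σ β (2 * k))) (makerEdges (play σ β (2 * k))) := by
        rw [hp2]; simp only [makerEdges]; rw [if_neg hl1, hm1]
      have hb2 : breakerEdges (play σ β (2 * (k + 1))) =
          insert (β (play σ β (2 * k + 1))) (breakerEdges (play σ β (2 * k))) := by
        rw [hp2]; simp only [breakerEdges]; rw [if_neg hl1, hb1]
      rw [hm2, hb2]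
      apply hc.2.2.1
      · exact hb.1
      · rw [← hm1, ← hb1]
        intro hm
        exact hb.2 (mem_hist.1 hm)
  have hall : ∀ h : List (Finset ℕ), h.Nodup → (∀ e ∈ h, e ∈ V) → V.card ≤ h.length →
      ∀ w ∈ V, w ∈ makerEdges h ∪ breakerEdges h := by
    intro h h1 h2 h3 w hw
    rw [mem_hist]
    have h4 : h.toFinset = V := by
      apply Finset.eq_of_subset_of_card_le
      · intro e he; exact h2 e (List.mem_toFinset.1 he)
      · rw [List.toFinset_card_of_nodup h1]; exact h3
    rw [← h4] at hw
    exact List.mem_toFinset.1 hw
  refine ⟨V.card, le_refl _, ?_⟩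
  rcases Nat.even_or_odd' V.card with ⟨k, hk | hk⟩
  · have h1 := hinv k (by omega)
    rw [← hk] at h1
    have h2 := hsub V.card (le_refl _)
    exact h1.full (hall _ h2.1 h2.2 (by rw [hlen]))
  · have hwk := hinv k (by omega)
    have hfr := hfree (play σ β (2 * k)) (by rw [hlen]; omega)
    have c : ∃ v, Good (makerEdges (play σ β (2 * k))) (breakerEdges (play σ β (2 * k))) v := by
      apply good_ex _ _ hwk
      obtain ⟨e, he, hen⟩ := hfr
      exact ⟨e, he, fun hm => hen (mem_hist.1 hm)⟩
    have hs : σ (play σ β (2 * k)) = c.choose := by simp only [σ]; rw [dif_pos c]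
    have hc := c.choose_spec
    rw [← hs] at hc
    have hp1 : play σ β (2 * k + 1) = σ (play σ β (2 * k)) :: play σ β (2 * k) := by
      simp [play]
    have hm1 : makerEdges (play σ β (2 * k + 1)) =
        insert (σ (play σ β (2 * k))) (makerEdges (play σ β (2 * k))) := by
      rw [hp1]; simp only [makerEdges]; rw [hlen]; simp
    have hb1 : breakerEdges (play σ β (2 * k + 1)) = breakerEdges (play σ β (2 * k)) := by
      rw [hp1]; simp only [breakerEdges]; rw [hlen]; simp
    rw [hk, hm1]
    apply hc.2.2.2
    rw [← hm1, ← hb1]
    have h2 := hsub (2 * k + 1) (by omega)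
    exact hall _ h2.1 h2.2 (by rw [hlen]; omega)

end Pool.Agent.H44Cliq
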