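import Pool.Agent.H44Cliq.Crit

/-!
# Small cliques: star strategies
-/

namespace Pool.Agent.H44Cliq

open Finset

/-- a `q`-clique of `M` inside the vertex set `S` -/
def CliqueIn (q : ℕ) (S : Finset ℕ) (M : Finset (Finset ℕ)) : Prop :=
  ∃ A : Finset ℕ, A ⊆ S ∧ A.card = q ∧ A.powersetCard 2 ⊆ M

/-- Maker (to move) builds `K_q` on any `s` vertices inside which Breaker has at most `j` edges. -/
def PP (q s j : ℕ) : Prop := ∀ S : Finset ℕ, S.card = s → ∀ B : Finset (Finset ℕ),
  B ⊆ S.powersetCard 2 → B.card ≤ j → Win (S.powersetCard 2) (CliqueIn q S) ∅ B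

theorem CliqueIn.mono {q : ℕ} {S : Finset ℕ} {M M' : Finset (Finset ℕ)} (h : CliqueIn q S M)
    (hM : M ⊆ M') : CliqueIn q S M' := by
  obtain ⟨A, h1, h2, h3⟩ := h
  exact ⟨A, h1, h2, h3.trans hM⟩

theorem pair_inj {x y z : ℕ} (h : ({x, y} : Finset ℕ) = {x, z}) : y = z := by
  have h1 : y ∈ ({x, z} : Finset ℕ) := by rw [← h]; simp
  have h2 : z ∈ ({x, y} : Finset ℕ) := by rw [h]; simp
  simp only [Finset.mem_insert, Finset.mem_singleton] at h1 h2
  rcases h1 with h1 | h1
  · rcases h2 with h2 | h2
    · rw [h1, h2]
    · exact h2.symm
  · exact h1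

/-- the star phase -/
theorem star_phase {q c0 c : ℕ} (hc : 2 ≤ c) (hP : ∀ u j, c0 + j ≤ c * u → PP q u j)
    (S : Finset ℕ) (x : ℕ) (hx : x ∈ S) : ∀ n : ℕ, ∀ F R : Finset ℕ, F.card = n → R ⊆ S → F ⊆ S →
      x ∉ R → x ∉ F → Disjoint R F → ∀ M B : Finset (Finset ℕ),
      (∀ y ∈ R, ({x, y} : Finset ℕ) ∈ M) → (∀ y ∈ F, ({x, y} : Finset ℕ) ∉ M ∪ B) →
      2 * c0 + 2 * (B ∩ (R ∪ F).powersetCard 2).card ≤ c * (2 * R.card + F.card) →
      Win (S.powersetCard 2) (CliqueIn (q + 1) S) M B := by
  intro n
  induction n using Nat.strong_induction_on with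
  | _ n ih =>
    intro F R hFn hRS hFS hxR hxF hRF M B hM hFfree hinv
    rcases Nat.eq_zero_or_pos n with hn | hn
    · -- the star phase is over
      subst hn
      have hFe : F = ∅ := Finset.card_eq_zero.1 hFn
      subst hFe
      rw [Finset.union_empty, Finset.card_empty, add_zero] at hinv
      have h1 : c0 + (B ∩ R.powersetCard 2).card ≤ c * R.card := by
        have : c * (2 * R.card) = 2 * (c * R.card) := by ring
        omega
      have hw := hP R.card (B ∩ R.powersetCard 2).card h1 R rfl (B ∩ R.powersetCard 2)
        Finset.inter_subset_right (le_refl _)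
      apply Win.mono (Finset.powersetCard_mono hRS) hw M B
      · rintro M3 M4 ⟨A, hA1, hA2, hA3⟩ h34 h4
        refine ⟨insert x A, Finset.insert_subset hx (hA1.trans hRS), ?_, ?_⟩
        · rw [Finset.card_insert_of_notMem (fun h => hxR (hA1 h)), hA2]
        · intro e he
          rw [Finset.mem_powersetCard] at he
          obtain ⟨he1, he2⟩ := he
          by_cases hxe : x ∈ e
          · -- `e = {x, y}`
            have h2 : (e.erase x).card = 1 := by rw [Finset.card_erase_of_mem hxe, he2]
            obtain ⟨y, hy⟩ := Finset.card_eq_one.1 h2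
            have h3 : e = {x, y} := by rw [← Finset.insert_erase hxe, hy]
            have hyA : y ∈ A := by
              have h5 : y ∈ e.erase x := by rw [hy]; simp
              have h6 := Finset.mem_erase.1 h5
              rcases Finset.mem_insert.1 (he1 h6.2) with h | h
              · exact absurd h h6.1
              · exact h
            rw [h3]
            exact h4 (hM y (hA1 hyA))
          · apply h34
            apply hA3
            rw [Finset.mem_powersetCard]
            refine ⟨fun y hy => ?_, he2⟩
            rcases Finset.mem_insert.1 (he1 hy) with h | h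
            · exact absurd (h ▸ hy) hxe
            · exact h
      · exact Finset.empty_subset _
      · intro e he heR
        exact Finset.mem_inter.2 ⟨he, heR⟩
    · obtain ⟨y, hy⟩ : F.Nonempty := Finset.card_pos.1 (by omega)
      have hyS := hFS hy
      have hyx : x ≠ y := fun h => hxF (h ▸ hy)
      have hyR : y ∉ R := fun h => (Finset.disjoint_left.1 hRF) h hy
      have hvV : ({x, y} : Finset ℕ) ∈ S.powersetCard 2 := by
        rw [Finset.mem_powersetCard]
        refine ⟨?_, Finset.card_pair hyx⟩
        intro z hz
        simp only [Finset.mem_insert, Finset.mem_singleton] at hz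
        rcases hz with rfl | rfl
        · exact hx
        · exact hyS
      have hR'F' : ∀ F' ⊆ F.erase y, (insert y R ∪ F') ⊆ R ∪ F := by
        intro F' hF' z hz
        simp only [Finset.mem_union, Finset.mem_insert] at hz ⊢
        rcases hz with (rfl | h) | h
        · exact Or.inr hy
        · exact Or.inl h
        · exact Or.inr (Finset.mem_of_mem_erase (hF' h))
      have hRc : (insert y R).card = R.card + 1 := Finset.card_insert_of_notMem hyR
      have hFc : (F.erase y).card = n - 1 := by rw [Finset.card_erase_of_mem hy, hFn]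
      have hxR' : x ∉ insert y R := by
        simp only [Finset.mem_insert, not_or]; exact ⟨hyx, hxR⟩
      -- the generic continuation
      have cont : ∀ F' ⊆ F.erase y, ∀ B' : Finset (Finset ℕ),
          (∀ z ∈ F', ({x, z} : Finset ℕ) ∉ insert {x, y} M ∪ B') →
          2 * c0 + 2 * (B' ∩ (insert y R ∪ F').powersetCard 2).card ≤
            c * (2 * (R.card + 1) + F'.card) →
          Win (S.powersetCard 2) (CliqueIn (q + 1) S) (insert {x, y} M) B' := by
        intro F' hF' B' hfree hinv'
        have hc' : F'.card ≤ n - 1 := by rw [← hFc]; exact Finset.card_le_card hF'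
        apply ih F'.card (by omega) F' (insert y R) rfl (Finset.insert_subset hyS hRS)
          (hF'.trans ((Finset.erase_subset _ _).trans hFS)) hxR'
          (fun h => hxF (Finset.mem_of_mem_erase (hF' h)))
        · rw [Finset.disjoint_insert_left]
          exact ⟨fun h => (Finset.mem_erase.1 (hF' h)).1 rfl,
            Finset.disjoint_of_subset_right (hF'.trans (Finset.erase_subset _ _)) hRF⟩
        · intro z hz
          rcases Finset.mem_insert.1 hz with rfl | h
          · exact Finset.mem_insert_self _ _
          · exact Finset.mem_insert_of_mem (hM z h)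
        · exact hfree
        · rw [hRc]; exact hinv'
      have hexp : c * (2 * (R.card + 1) + (n - 1)) = c * (2 * R.card + n) + c := by
        obtain ⟨m, rfl⟩ : ∃ m, n = m + 1 := ⟨n - 1, by omega⟩
        simp only [Nat.add_sub_cancel]
        ring
      rw [hFn] at hinv
      have hbase : ∀ z ∈ F.erase y, ({x, z} : Finset ℕ) ∉ insert {x, y} M ∪ B := by
        intro z hz hmem
        have hz' := Finset.mem_erase.1 hz
        rw [Finset.insert_union] at hmem
        rcases Finset.mem_insert.1 hmem with h | h
        · exact hz'.1 (pair_inj h)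
        · exact hFfree z hz'.2 h
      refine Win.step M B {x, y} hvV (hFfree y hy) ?_ ?_
      · intro w hwV hwn
        by_cases hcase : ∃ z ∈ F.erase y, w = {x, z}
        · -- Breaker takes a star edge
          obtain ⟨z, hz, rfl⟩ := hcase
          apply cont ((F.erase y).erase z) (Finset.erase_subset _ _)
          · intro z' hz' hmem
            have hz'' := Finset.mem_erase.1 hz'
            rw [Finset.union_insert] at hmem
            rcases Finset.mem_insert.1 hmem with h | h
            · exact hz''.1 (pair_inj h)
            · exact hbase z' hz''.2 h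
          · have h1 : (insert {x, z} B ∩ (insert y R ∪ (F.erase y).erase z).powersetCard 2) ⊆
                B ∩ (R ∪ F).powersetCard 2 := by
              intro e he
              rw [Finset.mem_inter] at he ⊢
              obtain ⟨he1, he2⟩ := he
              have he3 := Finset.powersetCard_mono (hR'F' _ (Finset.erase_subset _ _)) he2
              refine ⟨?_, he3⟩
              rcases Finset.mem_insert.1 he1 with h | h
              · exfalso
                rw [Finset.mem_powersetCard] at he3
                have h2 : x ∈ R ∪ F := he3.1 (by rw [h]; simp)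
                rcases Finset.mem_union.1 h2 with h2 | h2
                · exact hxR h2
                · exact hxF h2
              · exact h
            have h2 := Finset.card_le_card h1
            have h3 : ((F.erase y).erase z).card = n - 2 := by
              rw [Finset.card_erase_of_mem hz, hFc]; omega
            have h4 : 2 ≤ n := by
              have : 0 < (F.erase y).card := Finset.card_pos.2 ⟨z, hz⟩
              omega
            rw [h3]
            have h5 : 2 * (R.card + 1) + (n - 2) = 2 * R.card + n := by omega
            rw [h5]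
            omega
        · push Not at hcase
          apply cont (F.erase y) (Finset.Subset.refl _)
          · intro z' hz' hmem
            rw [Finset.union_insert] at hmem
            rcases Finset.mem_insert.1 hmem with h | h
            · exact hcase z' hz' h.symm
            · exact hbase z' hz' h
          · have h1 : (insert w B ∩ (insert y R ∪ F.erase y).powersetCard 2) ⊆
                insert w (B ∩ (R ∪ F).powersetCard 2) := by
              intro e he
              rw [Finset.mem_inter] at he
              obtain ⟨he1, he2⟩ := he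
              have he3 := Finset.powersetCard_mono (hR'F' _ (Finset.Subset.refl _)) he2
              rcases Finset.mem_insert.1 he1 with h | h
              · rw [h]; exact Finset.mem_insert_self _ _
              · exact Finset.mem_insert_of_mem (Finset.mem_inter.2 ⟨h, he3⟩)
            have h2 := Finset.card_le_card h1
            have h3 := Finset.card_insert_le w (B ∩ (R ∪ F).powersetCard 2)
            rw [hFc, hexp]
            omega
      · intro hfull
        have h0 : Win (S.powersetCard 2) (CliqueIn (q + 1) S) (insert {x, y} M) B := by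
          apply cont (F.erase y) (Finset.Subset.refl _) B hbase
          have h1 : (B ∩ (insert y R ∪ F.erase y).powersetCard 2) ⊆
              B ∩ (R ∪ F).powersetCard 2 := Finset.inter_subset_inter (Finset.Subset.refl _)
                (Finset.powersetCard_mono (hR'F' _ (Finset.Subset.refl _)))
          have h2 := Finset.card_le_card h1
          rw [hFc, hexp]
          omega
        exact h0.full hfull

/-- the star step -/
theorem star_step {q c0 c : ℕ} (hc : 2 ≤ c) (hP : ∀ u j, c0 + j ≤ c * u → PP q u j)
    {s j : ℕ} (hs : 1 ≤ s)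
    (h : ∀ d, s * d ≤ 2 * j → 2 * c0 + 2 * j + c + c * d ≤ c * s + 2 * d) :
    PP (q + 1) s j := by
  intro S hS B hB hBj
  -- a vertex of small degree
  set deg : ℕ → ℕ := fun x => (B.filter (fun e => x ∈ e)).card with hdeg
  have hsum : ∑ x ∈ S, deg x = 2 * B.card := by
    have h1 : ∑ x ∈ S, (B.filter (fun e => x ∈ e)).card =
        ∑ e ∈ B, (S.filter (fun x => x ∈ e)).card :=
      Finset.sum_card_bipartiteAbove_eq_sum_card_bipartiteBelow (fun x e => x ∈ e)
    rw [hdeg]
    simp only
    rw [h1]
    have h2 : ∀ e ∈ B, (S.filter (fun x => x ∈ e)).card = 2 := by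
      intro e he
      have he' := Finset.mem_powersetCard.1 (hB he)
      have h3 : S.filter (fun x => x ∈ e) = e := by
        ext y
        rw [Finset.mem_filter]
        exact ⟨fun hy => hy.2, fun hy => ⟨he'.1 hy, hy⟩⟩
      rw [h3, he'.2]
    rw [Finset.sum_congr rfl h2, Finset.sum_const, smul_eq_mul]
    ring
  have hSne : S.Nonempty := Finset.card_pos.1 (by omega)
  obtain ⟨x, hxS, hxmin⟩ := Finset.exists_min_image S deg hSne
  have hdx : s * deg x ≤ 2 * B.card := by
    rw [← hsum, ← hS]
    have := Finset.card_nsmul_le_sum S deg (deg x) hxmin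
    simpa using this
  set d := deg x with hd
  have hcond := h d (by omega)
  set F := (S.erase x).filter (fun y => ({x, y} : Finset ℕ) ∉ B) with hF
  have hdB : d ≤ B.card := Finset.card_filter_le _ _
  -- the size of `F`
  have hFcard : s ≤ F.card + 1 + d := by
    have h1 : ((S.erase x).filter (fun y => ({x, y} : Finset ℕ) ∈ B)).card ≤ d := by
      apply Finset.card_le_card_of_injOn (fun y => ({x, y} : Finset ℕ))
      · intro y hy
        simp only [Finset.coe_filter, Set.mem_ofPred_eq] at hy ⊢
        exact ⟨hy.2, by simp⟩
      · intro y _ z _ hyz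
        exact pair_inj hyz
    have h2 := Finset.card_filter_add_card_filter_not (s := S.erase x)
      (fun y => ({x, y} : Finset ℕ) ∈ B)
    rw [Finset.card_erase_of_mem hxS, hS] at h2
    have h3 : F.card = ((S.erase x).filter (fun y => ¬ ({x, y} : Finset ℕ) ∈ B)).card := rfl
    rw [← h3] at h2
    omega
  -- the edges of Breaker inside `F`
  have hBF : (B ∩ F.powersetCard 2).card + d ≤ B.card := by
    have h1 : B ∩ F.powersetCard 2 ⊆ B.filter (fun e => ¬ x ∈ e) := by
      intro e he
      rw [Finset.mem_inter, Finset.mem_powersetCard] at he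
      rw [Finset.mem_filter]
      refine ⟨he.1, fun hx => ?_⟩
      have := he.2.1 hx
      rw [hF] at this
      simp at this
    have h2 := Finset.card_le_card h1
    have h3 := Finset.card_filter_add_card_filter_not (s := B) (fun e => x ∈ e)
    have h4 : d = (B.filter (fun e => x ∈ e)).card := rfl
    omega
  apply star_phase hc hP S x hxS F.card F ∅ rfl (Finset.empty_subset _)
    ((Finset.filter_subset _ _).trans (Finset.erase_subset _ _)) (by simp) (by simp [hF])
    (Finset.disjoint_empty_left _) ∅ B (by simp)
  · intro y hy
    rw [Finset.empty_union]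
    rw [hF, Finset.mem_filter] at hy
    exact hy.2
  · rw [Finset.empty_union, Finset.card_empty, mul_zero, zero_add]
    have h5 : c * s ≤ c * F.card + c + c * d := by
      have := Nat.mul_le_mul_left c hFcard
      have e : c * (F.card + 1 + d) = c * F.card + c + c * d := by ring
      omega
    omega

/-- triangles on `u` vertices with `j` edges of Breaker -/
theorem PP_three {u j : ℕ} (h : 129 + j ≤ 8 * u) : PP 3 u j := by
  intro S hS B hB hBj
  have hu : 17 ≤ u := by omega
  set V := S.powersetCard 2 with hV
  set T : Finset (Finset ℕ) → ℝ := fun M => ∑ A ∈ S.powersetCard 3,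
    (if A.powersetCard 2 ⊆ M then (1 : ℝ) else 0) with hT
  have hVB : V \ (∅ ∪ B) = V \ B := by rw [Finset.empty_union]
  apply win_of_potential V (CliqueIn 3 S) T 1 (by norm_num) ?_ ?_
    (fun M M' h1 h2 => h2.mono h1) (V \ (∅ ∪ B)).card ∅ B (Finset.empty_subset _) rfl
    (Finset.disjoint_empty_left _)
  · -- the average
    rw [hVB]
    set U := V \ B with hU
    -- alive triples
    set al := (S.powersetCard 3).filter (fun A => A.powersetCard 2 ⊆ U) with hal
    have hev : ev T ∅ U = (al.card : ℝ) / 8 := by
      rw [hT, ev_sum]
      have h1 : ∀ A ∈ S.powersetCard 3, ev (fun M => if A.powersetCard 2 ⊆ M then (1 : ℝ) else 0)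
          ∅ U = if A.powersetCard 2 ⊆ U then 1 / 8 else 0 := by
        intro A hA
        have hA' := Finset.mem_powersetCard.1 hA
        split_ifs with hAU
        · rw [ev_superset hAU, Finset.card_powersetCard, hA'.2]
          norm_num
        · rw [ev_congr (G := fun _ => (0 : ℝ)), ev_const]
          intro C hC
          rw [if_neg (fun h => hAU (h.trans hC))]
      rw [Finset.sum_congr rfl h1, ← Finset.sum_filter, ← hal, Finset.sum_const, nsmul_eq_mul]
      ring
    rw [hev]
    -- number of dead triples
    have hdead : u.choose 3 ≤ al.card + B.card * (u - 2) := by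
      have h1 : (S.powersetCard 3).card = u.choose 3 := by rw [Finset.card_powersetCard, hS]
      have h2 := Finset.card_filter_add_card_filter_not (s := S.powersetCard 3)
        (fun A => A.powersetCard 2 ⊆ U)
      have h3 : ((S.powersetCard 3).filter (fun A => ¬ A.powersetCard 2 ⊆ U)).card ≤
          B.card * (u - 2) := by
        have h4 : (S.powersetCard 3).filter (fun A => ¬ A.powersetCard 2 ⊆ U) ⊆
            B.biUnion (fun e => (S \ e).image (fun y => insert y e)) := by
          intro A hA
          rw [Finset.mem_filter, Finset.mem_powersetCard] at hA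
          obtain ⟨⟨hA1, hA2⟩, hA3⟩ := hA
          obtain ⟨e, he, heU⟩ := Finset.not_subset.1 hA3
          have he' := Finset.mem_powersetCard.1 he
          have heB : e ∈ B := by
            by_contra hcon
            apply heU
            rw [hU, Finset.mem_sdiff]
            exact ⟨Finset.mem_powersetCard.2 ⟨he'.1.trans hA1, he'.2⟩, hcon⟩
          have h5 : (A \ e).card = 1 := by
            rw [Finset.card_sdiff_of_subset he'.1, hA2, he'.2]
          obtain ⟨y, hy⟩ := Finset.card_eq_one.1 h5
          have hyA : y ∈ A \ e := by rw [hy]; simp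
          rw [Finset.mem_biUnion]
          refine ⟨e, heB, ?_⟩
          rw [Finset.mem_image]
          refine ⟨y, Finset.mem_sdiff.2 ⟨hA1 (Finset.mem_sdiff.1 hyA).1,
            (Finset.mem_sdiff.1 hyA).2⟩, ?_⟩
          ext z
          simp only [Finset.mem_insert]
          constructor
          · rintro (rfl | h)
            · exact (Finset.mem_sdiff.1 hyA).1
            · exact he'.1 h
          · intro hz
            by_cases hze : z ∈ e
            · exact Or.inr hze
            · left
              have : z ∈ A \ e := Finset.mem_sdiff.2 ⟨hz, hze⟩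
              rw [hy] at this
              simpa using this
        refine (Finset.card_le_card h4).trans ?_
        refine (Finset.card_biUnion_le_card_mul _ _ (u - 2) ?_)
        intro e he
        have he' := Finset.mem_powersetCard.1 (hB he)
        refine Finset.card_image_le.trans ?_
        rw [Finset.card_sdiff_of_subset he'.1, hS, he'.2]
      have h5 : al.card = ((S.powersetCard 3).filter (fun A => A.powersetCard 2 ⊆ U)).card := rfl
      rw [h1, ← h5] at h2
      omega
    have hUc : U.card + B.card = u.choose 2 := by
      rw [hU, Finset.card_sdiff_of_subset hB, hV, Finset.card_powersetCard, hS]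
      have h1 := Finset.card_le_card hB
      rw [hV, Finset.card_powersetCard, hS] at h1
      omega
    -- real form
    have hc2 : (u.choose 2 : ℝ) = (u : ℝ) * ((u : ℝ) - 1) / 2 := Nat.cast_choose_two ℝ u
    have hc3 : (u.choose 3 : ℝ) = (u : ℝ) * ((u : ℝ) - 1) * ((u : ℝ) - 2) / 6 := by
      have h1 : u.choose 3 * 3 = u.choose 2 * (u - 2) := Nat.choose_succ_right_eq u 2
      have h2 : (u.choose 3 : ℝ) * 3 = (u.choose 2 : ℝ) * ((u : ℝ) - 2) := by
        have h3 : ((u - 2 : ℕ) : ℝ) = (u : ℝ) - 2 := by
          rw [Nat.cast_sub (by omega)]; norm_num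
        rw [← h3]
        exact_mod_cast h1
      rw [hc2] at h2
      linarith
    have hdead' : (u.choose 3 : ℝ) ≤ (al.card : ℝ) + (B.card : ℝ) * ((u : ℝ) - 2) := by
      have h3 : ((u - 2 : ℕ) : ℝ) = (u : ℝ) - 2 := by
        rw [Nat.cast_sub (by omega)]; norm_num
      rw [← h3]
      exact_mod_cast hdead
    have hUc' : (U.card : ℝ) + (B.card : ℝ) = (u.choose 2 : ℝ) := by exact_mod_cast hUc
    have huR : (17 : ℝ) ≤ u := by exact_mod_cast hu
    have hb : (B.card : ℝ) ≤ 8 * (u : ℝ) - 129 := by
      have h1 : B.card + 129 ≤ 8 * u := by omega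
      have h2 : (B.card : ℝ) + 129 ≤ 8 * (u : ℝ) := by exact_mod_cast h1
      linarith
    have hhalf : ((U.card / 2 : ℕ) : ℝ) ≤ (U.card : ℝ) / 2 := Nat.cast_div_le
    have hb' : (B.card : ℝ) * ((u : ℝ) - 3) ≤ (8 * (u : ℝ) - 129) * ((u : ℝ) - 3) :=
      mul_le_mul_of_nonneg_right hb (by linarith)
    have hpoly : (8 * (u : ℝ) - 129) * ((u : ℝ) - 3) <
        (u : ℝ) * ((u : ℝ) - 1) * ((u : ℝ) - 2) / 6 - (u : ℝ) * ((u : ℝ) - 1) / 2 := by
      have h1 : 0 ≤ ((u : ℝ) - 22) ^ 2 * ((u : ℝ) - 17) :=
        mul_nonneg (sq_nonneg _) (by linarith)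
      nlinarith [sq_nonneg ((u : ℝ) - 22)]
    rw [hc3] at hdead'
    rw [hc2] at hUc'
    have h9 : (U.card : ℝ) < al.card := by nlinarith
    linarith
  · -- second differences
    intro M hM v hv w hw hvw hvM hwM
    have h1 : dd T v w M = ∑ A ∈ S.powersetCard 3,
        dd (fun X => if A.powersetCard 2 ⊆ X then (1 : ℝ) else 0) v w M := by
      unfold dd
      rw [hT]
      simp only
      rw [Finset.sum_add_distrib, Finset.sum_sub_distrib, Finset.sum_sub_distrib]
    rw [h1, Finset.sum_congr rfl
      (fun A _ => dd_indicator_nonneg (A.powersetCard 2) v w M hvM hwM hvw),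
      ← Finset.sum_filter, Finset.sum_const, nsmul_eq_mul, mul_one]
    have h2 : ((S.powersetCard 3).filter (fun A => A.powersetCard 2 ⊆ insert w (insert v M) ∧
        v ∈ A.powersetCard 2 ∧ w ∈ A.powersetCard 2)).card ≤ 1 := by
      rw [Finset.card_le_one]
      have hv2 := Finset.mem_powersetCard.1 hv
      have hw2 := Finset.mem_powersetCard.1 hw
      have h3 : 3 ≤ (v ∪ w).card := by
        by_contra hcon
        have h1 : v = v ∪ w := by
          apply Finset.eq_of_subset_of_card_le Finset.subset_union_left
          rw [hv2.2]; omega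
        have h2 : w = v ∪ w := by
          apply Finset.eq_of_subset_of_card_le Finset.subset_union_right
          rw [hw2.2]; omega
        exact hvw (h1.trans h2.symm)
      have h4 : ∀ A ∈ (S.powersetCard 3).filter (fun A => A.powersetCard 2 ⊆
          insert w (insert v M) ∧ v ∈ A.powersetCard 2 ∧ w ∈ A.powersetCard 2), A = v ∪ w := by
        intro A hA
        simp only [Finset.mem_filter, Finset.mem_powersetCard] at hA
        symm
        apply Finset.eq_of_subset_of_card_le
        · exact Finset.union_subset hA.2.2.1.1 hA.2.2.2.1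
        · rw [hA.1.2]; exact h3
      intro A hA A' hA'
      rw [h4 A hA, h4 A' hA']
    exact_mod_cast h2
  · intro M _ hpos
    rw [hT] at hpos
    simp only at hpos
    have h1 : ∃ A ∈ S.powersetCard 3, A.powersetCard 2 ⊆ M := by
      by_contra hcon
      push Not at hcon
      rw [Finset.sum_congr rfl (fun A hA => if_neg (hcon A hA)), Finset.sum_const_zero] at hpos
      exact lt_irrefl _ hpos
    obtain ⟨A, hA, hAM⟩ := h1
    exact ⟨A, (Finset.mem_powersetCard.1 hA).1, (Finset.mem_powersetCard.1 hA).2, hAM⟩

theorem PP_four {t j : ℕ} (h : 161 + j ≤ 4 * t) : PP 4 t j := by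
  apply star_step (q := 3) (c0 := 129) (c := 8) (by norm_num) (fun u j h => PP_three h) (by omega)
  intro d hd
  have h1 : d ≤ 7 := by
    by_contra hcon
    have h2 : 8 ≤ d := by omega
    have h3 : t * 8 ≤ t * d := Nat.mul_le_mul_left t h2
    omega
  omega

theorem PP_five {s j : ℕ} (h : 169 + j ≤ 2 * s) : PP 5 s j := by
  apply star_step (q := 4) (c0 := 161) (c := 4) (by norm_num) (fun u j h => PP_four h) (by omega)
  intro d hd
  have h1 : d ≤ 3 := by
    by_contra hcon
    have h2 : 4 ≤ d := by omega
    have h3 : s * 4 ≤ s * d := Nat.mul_le_mul_left s h2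
    omega
  omega

theorem PP_six : PP 6 170 0 := by
  apply star_step (q := 5) (c0 := 169) (c := 2) (by norm_num) (fun u j h => PP_five h) (by omega)
  intro d hd
  have h1 : d = 0 := by omega
  subst h1
  omega

theorem winsOn_of_PP {q s : ℕ} (h : PP q s 0) : WinsOn s q := by
  unfold WinsOn board
  have h1 := h (Finset.range s) (Finset.card_range s) ∅ (Finset.empty_subset _) (by simp)
  refine h1.imp ?_
  rintro M ⟨A, _, h3, h4⟩
  exact ⟨A, h3, h4⟩

theorem win3 : WinsOn 17 3 := winsOn_of_PP (PP_three (by norm_num))
theorem win4 : WinsOn 41 4 := winsOn_of_PP (PP_four (by norm_num))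
theorem win5 : WinsOn 85 5 := winsOn_of_PP (PP_five (by norm_num))
theorem win6 : WinsOn 170 6 := winsOn_of_PP PP_six

theorem win2 : WinsOn 2 2 := by
  unfold WinsOn
  have h0 : ({0, 1} : Finset ℕ) ∈ board 2 := by
    unfold board
    rw [Finset.mem_powersetCard]
    refine ⟨?_, rfl⟩
    intro x hx
    simp only [Finset.mem_insert, Finset.mem_singleton] at hx
    rw [Finset.mem_range]
    omega
  have hcl : HasClique 2 (insert {0, 1} ∅) := by
    refine ⟨{0, 1}, rfl, ?_⟩
    intro e he
    rw [Finset.mem_powersetCard] at he
    have h1 : e = {0, 1} := Finset.eq_of_subset_of_card_le he.1 (by rw [he.2]; rfl)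
    rw [h1]
    exact Finset.mem_insert_self _ _
  refine Win.step ∅ ∅ {0, 1} h0 (by simp) ?_ (fun _ => hcl)
  intro w _ _
  exact Win.done _ _ hcl

end Pool.Agent.H44Cliq
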