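import Pool.Agent.H44Cliq.Crit

/-!
# Maker's win for `q ≥ 60` on `q 2^⌈q/2⌉` vertices
-/

namespace Pool.Agent.H44Cliq

open Finset

theorem factorial_two_pow_le (a : ℕ) : (a.factorial : ℝ) * 2 ^ a ≤ ((a : ℝ) + 1) ^ a := by
  induction a with
  | zero => simp
  | succ a ih =>
    have h1 := tangent_pow a (t := (a : ℝ) + 2) (K := (a : ℝ) + 1) (by positivity) (by positivity)
    rw [Nat.factorial_succ]
    push_cast
    have h2 : ((a : ℝ) + 1) ^ (a + 1) = ((a : ℝ) + 1) ^ a * ((a : ℝ) + 1) := pow_succ _ _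
    rw [h2] at h1
    have h3 : ((a : ℝ) + 1) * (a.factorial : ℝ) * 2 ^ (a + 1) =
        2 * ((a : ℝ) + 1) * ((a.factorial : ℝ) * 2 ^ a) := by ring
    rw [h3]
    have h4 : (a : ℝ) + 1 + 1 = (a : ℝ) + 2 := by ring
    rw [h4]
    have h5 : 2 * ((a : ℝ) + 1) * ((a.factorial : ℝ) * 2 ^ a) ≤
        2 * ((a : ℝ) + 1) * ((a : ℝ) + 1) ^ a :=
      mul_le_mul_of_nonneg_left ih (by positivity)
    linarith

/-- the exponent of two -/
def er (r : ℕ) : ℕ := (r + 3).choose 2 - 3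

theorem two_er (r : ℕ) : 2 * er r = r * (r + 5) := by
  unfold er
  have h := Nat.triangle_succ (r + 2)
  have h1 : (r + 3).choose 2 * 2 = (r + 3) * (r + 2) := by
    rw [Nat.choose_two_right]
    have : 2 ∣ (r + 3) * (r + 3 - 1) := by
      have := Nat.even_mul_pred_self (r + 3)
      exact this.two_dvd
    rw [Nat.div_mul_cancel this]
    rfl
  have h2 : 3 ≤ (r + 3).choose 2 := by
    have := Nat.choose_le_choose 2 (show 3 ≤ r + 3 by omega)
    simpa using this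
  have h3 : (r + 3) * (r + 2) = r * (r + 5) + 6 := by ring
  omega

theorem two_pow_er (r : ℕ) : (2 : ℝ) ^ er r = Real.sqrt 2 ^ (r * (r + 5)) := by
  have hs2 : Real.sqrt 2 ^ 2 = 2 := Real.sq_sqrt (by norm_num)
  rw [← two_er, pow_mul, hs2]

/-- small overlaps -/
theorem term_small {n a r : ℕ} (hra : 2 * r ≤ a) (han : a ≤ n)
    (h : 2 * (a : ℝ) ^ 2 * Real.sqrt 2 ^ (r + 5) ≤ (n : ℝ) - a) :
    (a.choose r : ℝ) * ((n - a).choose (a - r) : ℝ) * 2 ^ er r ≤
      (n.choose a : ℝ) * (1 / 2) ^ r := by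
  have hy : (0 : ℝ) < Real.sqrt 2 := by positivity
  have hna : (0 : ℝ) ≤ (n : ℝ) - a := le_trans (by positivity) h
  have h1 : (n - a).choose (a - r) * n.choose r ≤ n.choose a * a.choose r := by
    have e1 : n.choose a * a.choose r = n.choose r * (n - r).choose (a - r) :=
      Nat.choose_mul (by omega)
    rw [e1, mul_comm]
    apply Nat.mul_le_mul_left
    exact Nat.choose_le_choose _ (by omega)
  have h1' : ((n - a).choose (a - r) : ℝ) * (n.choose r : ℝ) ≤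
      (n.choose a : ℝ) * (a.choose r : ℝ) := by exact_mod_cast h1
  have hnr : (0 : ℝ) < (n.choose r : ℝ) := by exact_mod_cast Nat.choose_pos (by omega)
  have hf : (1 : ℝ) ≤ (r.factorial : ℝ) := by exact_mod_cast Nat.factorial_pos r
  -- `C(a,r)² 2^(e+r) ≤ C(n,r)`
  have h2 : (a.choose r : ℝ) ^ 2 * 2 ^ er r * 2 ^ r ≤ (n.choose r : ℝ) := by
    have h3 : (a.choose r : ℝ) * (r.factorial : ℝ) ≤ (a : ℝ) ^ r := by
      have := Nat.choose_le_pow_div (α := ℝ) r a
      rwa [le_div_iff₀ (by positivity)] at this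
    have h4 : ((n : ℝ) - a) ^ r ≤ (n.choose r : ℝ) * (r.factorial : ℝ) := by
      have h5 := Nat.pow_sub_le_descFactorial n r
      rw [Nat.descFactorial_eq_factorial_mul_choose] at h5
      have h6 : ((n + 1 - r : ℕ) : ℝ) ^ r ≤ (r.factorial : ℝ) * (n.choose r : ℝ) := by
        exact_mod_cast h5
      have h7 : (n : ℝ) - a ≤ ((n + 1 - r : ℕ) : ℝ) := by
        rw [Nat.cast_sub (by omega)]
        push_cast
        have : (r : ℝ) ≤ a := by exact_mod_cast (by omega : r ≤ a)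
        linarith
      calc ((n : ℝ) - a) ^ r ≤ ((n + 1 - r : ℕ) : ℝ) ^ r := pow_le_pow_left₀ hna h7 r
        _ ≤ _ := by rw [mul_comm] at h6; exact h6
    have h8 : ((a : ℝ) ^ r) ^ 2 * 2 ^ er r * 2 ^ r = (2 * (a : ℝ) ^ 2 *
        Real.sqrt 2 ^ (r + 5)) ^ r := by
      rw [two_pow_er, mul_pow, mul_pow, ← pow_mul, ← pow_mul, ← pow_mul, mul_comm r 2,
        mul_comm r (r + 5)]
      ring
    have h9 : (2 * (a : ℝ) ^ 2 * Real.sqrt 2 ^ (r + 5)) ^ r ≤ ((n : ℝ) - a) ^ r :=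
      pow_le_pow_left₀ (by positivity) h r
    have h10 : ((a.choose r : ℝ) * (r.factorial : ℝ)) ^ 2 ≤ ((a : ℝ) ^ r) ^ 2 :=
      pow_le_pow_left₀ (by positivity) h3 2
    have h11 : (a.choose r : ℝ) ^ 2 * 2 ^ er r * 2 ^ r * (r.factorial : ℝ) ≤
        (n.choose r : ℝ) * (r.factorial : ℝ) := by
      have h12 : (a.choose r : ℝ) ^ 2 * (r.factorial : ℝ) ≤ ((a : ℝ) ^ r) ^ 2 := by
        have h13 : (a.choose r : ℝ) ^ 2 * (r.factorial : ℝ) ≤
            ((a.choose r : ℝ) * (r.factorial : ℝ)) ^ 2 := by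
          rw [mul_pow, pow_two (r.factorial : ℝ)]
          apply mul_le_mul_of_nonneg_left _ (by positivity)
          nlinarith
        linarith
      calc (a.choose r : ℝ) ^ 2 * 2 ^ er r * 2 ^ r * (r.factorial : ℝ)
          = ((a.choose r : ℝ) ^ 2 * (r.factorial : ℝ)) * (2 ^ er r * 2 ^ r) := by ring
        _ ≤ ((a : ℝ) ^ r) ^ 2 * (2 ^ er r * 2 ^ r) :=
            mul_le_mul_of_nonneg_right h12 (by positivity)
        _ = ((a : ℝ) ^ r) ^ 2 * 2 ^ er r * 2 ^ r := by ring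
        _ = _ := h8
        _ ≤ _ := h9
        _ ≤ _ := h4
    exact le_of_mul_le_mul_right h11 (by positivity)
  -- conclusion
  have hp : (1 / 2 : ℝ) ^ r = 1 / 2 ^ r := by rw [div_pow, one_pow]
  rw [hp, mul_one_div, le_div_iff₀ (by positivity)]
  apply le_of_mul_le_mul_right _ hnr
  calc (a.choose r : ℝ) * ((n - a).choose (a - r) : ℝ) * 2 ^ er r * 2 ^ r * (n.choose r : ℝ)
      = ((a.choose r : ℝ) * 2 ^ er r * 2 ^ r) *
        (((n - a).choose (a - r) : ℝ) * (n.choose r : ℝ)) := by ring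
    _ ≤ ((a.choose r : ℝ) * 2 ^ er r * 2 ^ r) * ((n.choose a : ℝ) * (a.choose r : ℝ)) :=
        mul_le_mul_of_nonneg_left h1' (by positivity)
    _ = ((a.choose r : ℝ) ^ 2 * 2 ^ er r * 2 ^ r) * (n.choose a : ℝ) := by ring
    _ ≤ (n.choose r : ℝ) * (n.choose a : ℝ) := mul_le_mul_of_nonneg_right h2 (by positivity)
    _ = _ := by ring

theorem term_top {n a : ℕ} (han : a ≤ n)
    (h : ((a : ℝ) + 1) * Real.sqrt 2 ^ (a + 5) ≤ 2 * ((n : ℝ) - a)) :
    Real.sqrt 2 ^ (a * (a + 5)) ≤ (n.choose a : ℝ) := by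
  have hna : (0 : ℝ) ≤ (n : ℝ) - a := by
    have : (0 : ℝ) ≤ ((a : ℝ) + 1) * Real.sqrt 2 ^ (a + 5) := by positivity
    linarith
  have h1 := factorial_two_pow_le a
  have h4 : ((n : ℝ) - a) ^ a ≤ (n.choose a : ℝ) * (a.factorial : ℝ) := by
    have h5 := Nat.pow_sub_le_descFactorial n a
    rw [Nat.descFactorial_eq_factorial_mul_choose] at h5
    have h6 : ((n + 1 - a : ℕ) : ℝ) ^ a ≤ (a.factorial : ℝ) * (n.choose a : ℝ) := by
      exact_mod_cast h5
    have h7 : (n : ℝ) - a ≤ ((n + 1 - a : ℕ) : ℝ) := by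
      rw [Nat.cast_sub (by omega)]
      push_cast
      linarith
    calc ((n : ℝ) - a) ^ a ≤ ((n + 1 - a : ℕ) : ℝ) ^ a := pow_le_pow_left₀ hna h7 a
      _ ≤ _ := by rw [mul_comm] at h6; exact h6
  have h2 : (((a : ℝ) + 1) * Real.sqrt 2 ^ (a + 5)) ^ a ≤ (2 * ((n : ℝ) - a)) ^ a :=
    pow_le_pow_left₀ (by positivity) h a
  have h3 : (0 : ℝ) < ((a : ℝ) + 1) ^ a := by positivity
  apply le_of_mul_le_mul_left _ h3
  calc ((a : ℝ) + 1) ^ a * Real.sqrt 2 ^ (a * (a + 5))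
      = (((a : ℝ) + 1) * Real.sqrt 2 ^ (a + 5)) ^ a := by
        rw [mul_pow, ← pow_mul, mul_comm (a + 5) a]
    _ ≤ (2 * ((n : ℝ) - a)) ^ a := h2
    _ = 2 ^ a * ((n : ℝ) - a) ^ a := by rw [mul_pow]
    _ ≤ 2 ^ a * ((n.choose a : ℝ) * (a.factorial : ℝ)) :=
        mul_le_mul_of_nonneg_left h4 (by positivity)
    _ = ((a.factorial : ℝ) * 2 ^ a) * (n.choose a : ℝ) := by ring
    _ ≤ ((a : ℝ) + 1) ^ a * (n.choose a : ℝ) := mul_le_mul_of_nonneg_right h1 (by positivity)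

/-- large overlaps -/
theorem term_large {n a i : ℕ} (hia : 2 * i ≤ a)
    (h : 2 * (a : ℝ) * n ≤ Real.sqrt 2 ^ (2 * a - i + 5))
    (htop : Real.sqrt 2 ^ (a * (a + 5)) ≤ (n.choose a : ℝ)) :
    (a.choose i : ℝ) * ((n - a).choose i : ℝ) * 2 ^ er (a - i) ≤
      (n.choose a : ℝ) * (1 / 2) ^ i := by
  have hp : (1 / 2 : ℝ) ^ i = 1 / 2 ^ i := by rw [div_pow, one_pow]
  rw [hp, mul_one_div, le_div_iff₀ (by positivity)]
  have h1 : (a.choose i : ℝ) ≤ (a : ℝ) ^ i := by exact_mod_cast Nat.choose_le_pow a i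
  have h2 : ((n - a).choose i : ℝ) ≤ (n : ℝ) ^ i := by
    have h3 : (n - a).choose i ≤ n ^ i :=
      (Nat.choose_le_pow (n - a) i).trans (Nat.pow_le_pow_left (by omega) i)
    exact_mod_cast h3
  have h4 : (2 * (a : ℝ) * n) ^ i ≤ (Real.sqrt 2 ^ (2 * a - i + 5)) ^ i :=
    pow_le_pow_left₀ (by positivity) h i
  have h5 : (a - i) * (a - i + 5) + (2 * a - i + 5) * i = a * (a + 5) := by
    obtain ⟨c, rfl⟩ : ∃ c, a = i + c := ⟨a - i, by omega⟩
    have e1 : i + c - i = c := by omega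
    have e2 : 2 * (i + c) - i = i + 2 * c := by omega
    rw [e1, e2]
    ring
  calc (a.choose i : ℝ) * ((n - a).choose i : ℝ) * 2 ^ er (a - i) * 2 ^ i
      ≤ (a : ℝ) ^ i * (n : ℝ) ^ i * 2 ^ er (a - i) * 2 ^ i := by
        apply mul_le_mul_of_nonneg_right _ (by positivity)
        apply mul_le_mul_of_nonneg_right _ (by positivity)
        exact mul_le_mul h1 h2 (by positivity) (by positivity)
    _ = (2 * (a : ℝ) * n) ^ i * Real.sqrt 2 ^ ((a - i) * (a - i + 5)) := by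
        rw [two_pow_er, mul_pow, mul_pow]; ring
    _ ≤ (Real.sqrt 2 ^ (2 * a - i + 5)) ^ i * Real.sqrt 2 ^ ((a - i) * (a - i + 5)) :=
        mul_le_mul_of_nonneg_right h4 (by positivity)
    _ = Real.sqrt 2 ^ (a * (a + 5)) := by
        rw [← pow_mul, ← pow_add, ← h5, add_comm]
    _ ≤ _ := htop

theorem pow_ten_le (q : ℕ) (hq : 60 ≤ q) : q ^ 10 ≤ 2 ^ q := by
  induction q, hq using Nat.le_induction with
  | base => norm_num
  | succ q hq ih =>
    have h2 : (q + 1) ^ 10 ≤ 2 * q ^ 10 := by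
      have h3 : (60 * (q + 1)) ^ 10 ≤ (61 * q) ^ 10 := Nat.pow_le_pow_left (by omega) 10
      rw [mul_pow, mul_pow] at h3
      have h4 : (61 : ℕ) ^ 10 * q ^ 10 ≤ 2 * 60 ^ 10 * q ^ 10 :=
        Nat.mul_le_mul_right _ (by norm_num)
      have h5 : (60 : ℕ) ^ 10 * (q + 1) ^ 10 ≤ 60 ^ 10 * (2 * q ^ 10) := by
        calc (60 : ℕ) ^ 10 * (q + 1) ^ 10 ≤ 61 ^ 10 * q ^ 10 := h3
          _ ≤ 2 * 60 ^ 10 * q ^ 10 := h4
          _ = _ := by ring
      exact Nat.le_of_mul_le_mul_left h5 (by norm_num)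
    calc (q + 1) ^ 10 ≤ 2 * q ^ 10 := h2
      _ ≤ 2 * 2 ^ q := Nat.mul_le_mul_left _ ih
      _ = 2 ^ (q + 1) := by rw [pow_succ]; ring

/-- the size of the board -/
def NN (q : ℕ) : ℕ := q * 2 ^ ((q + 1) / 2)

theorem NN_bounds (q : ℕ) : (q : ℝ) * Real.sqrt 2 ^ q ≤ (NN q : ℝ) ∧
    (NN q : ℝ) ≤ (q : ℝ) * (Real.sqrt 2 ^ q * Real.sqrt 2) := by
  have hs2 : Real.sqrt 2 ^ 2 = 2 := Real.sq_sqrt (by norm_num)
  have hy1 : 1 ≤ Real.sqrt 2 := by
    rw [Real.one_le_sqrt]; norm_num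
  unfold NN
  push_cast
  have h1 : (2 : ℝ) ^ ((q + 1) / 2) = Real.sqrt 2 ^ (2 * ((q + 1) / 2)) := by
    rw [pow_mul, hs2]
  rw [h1, ← pow_succ]
  constructor
  · apply mul_le_mul_of_nonneg_left _ (by positivity)
    exact pow_le_pow_right₀ hy1 (by omega)
  · apply mul_le_mul_of_nonneg_left _ (by positivity)
    exact pow_le_pow_right₀ hy1 (by omega)

theorem alg_id (x c w : ℝ) (hc : c ≠ 0) (hw : w ≠ 0) :
    (1 + 1 : ℝ) * (x * w / (3 * c)) * (x / c) - (4 * x ^ 2 + 0 ^ (1 + 1) +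
      ((x * w / (3 * c)) ^ (1 + 1) - 0 ^ (1 + 1)) * (3 / w)) =
      x ^ 2 / (3 * c ^ 2) * (w - 12 * c ^ 2) := by
  simp only [show (1 + 1 : ℕ) = 2 from rfl]
  have h0 : (0:ℝ)^2 = 0 := by norm_num
  rw [h0]
  field_simp
  ring

theorem num1 {q Q y : ℝ} (hq : 60 ≤ q) (hQ : q ^ 5 ≤ Q) (hy : y ≤ 1.4143) :
    4 * q ^ 4 * (8 * y * Q) ≤ (q * (Q - 1)) ^ 2 := by
  have h5 : 60 * (60 * (60 * q ^ 2)) ≤ q ^ 5 := by
    have : q ^ 5 = q * (q * (q * q ^ 2)) := by ring
    rw [this]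
    gcongr
  have hq2 : 3600 ≤ q ^ 2 := by nlinarith
  have hQ0 : 0 < Q := by linarith
  have h9 : 46 * q ^ 2 + 2 ≤ Q := by linarith
  have h8 : 46 * q ^ 2 * Q ≤ (Q - 1) ^ 2 := by nlinarith
  have h11 : 0 ≤ q ^ 4 * Q := by positivity
  have h10 : 4 * q ^ 4 * (8 * y * Q) ≤ q ^ 2 * (46 * q ^ 2 * Q) := by
    have e1 : 4 * q ^ 4 * (8 * y * Q) = (q ^ 4 * Q) * (32 * y) := by ring
    have e2 : q ^ 2 * (46 * q ^ 2 * Q) = (q ^ 4 * Q) * 46 := by ring
    rw [e1, e2]
    exact mul_le_mul_of_nonneg_left (by linarith) h11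
  calc _ ≤ _ := h10
    _ ≤ q ^ 2 * (Q - 1) ^ 2 := mul_le_mul_of_nonneg_left h8 (by positivity)
    _ = _ := by ring

theorem num2 {q Q y : ℝ} (hq : 60 ≤ q) (hQ : q ^ 5 ≤ Q) (hy : 1 ≤ y) :
    8 * q ^ 4 ≤ Q * y := by
  have h5 : 60 * q ^ 4 ≤ q ^ 5 := by
    have : q ^ 5 = q * q ^ 4 := by ring
    rw [this]
    gcongr
  have hQ0 : 0 < Q := by nlinarith [pow_pos (by linarith : 0 < q) 4]
  have h1 : Q * 1 ≤ Q * y := mul_le_mul_of_nonneg_left hy hQ0.le
  have h2 : 0 ≤ q ^ 4 := by positivity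
  linarith

theorem num3 {q Q N : ℝ} (hq : 60 ≤ q) (hQ : q ^ 5 ≤ Q) (hN : q * Q ≤ N) :
    q ^ 6 / 3 < N - 2 := by
  have h1 : q ^ 6 = q * q ^ 5 := by ring
  have h2 : q * q ^ 5 ≤ q * Q := mul_le_mul_of_nonneg_left hQ (by positivity)
  have h3 : 60 * 1 ≤ q ^ 6 := by
    have : q ^ 6 = q * q ^ 5 := by ring
    rw [this]
    have : 1 ≤ q ^ 5 := one_le_pow₀ (by linarith)
    gcongr
  linarith

theorem num4 {q Q : ℝ} (hq : 60 ≤ q) (hQ : q ^ 5 ≤ Q) : 1000 ≤ Q ∧ q ≤ Q := by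
  have h1 : q * (60 * (60 * (60 * 60))) ≤ q ^ 5 := by
    have : q ^ 5 = q * (q * (q * (q * q))) := by ring
    rw [this]
    gcongr
  constructor <;> linarith

theorem winsOn_tail (q : ℕ) (hq : 60 ≤ q) : WinsOn (NN q) q := by
  set y := Real.sqrt 2 with hy
  have hs2 : y ^ 2 = 2 := Real.sq_sqrt (by norm_num)
  have hypos : 0 < y := by rw [hy]; positivity
  have hy1 : 1 ≤ y := by rw [hy, Real.one_le_sqrt]; norm_num
  have hy2 : y ≤ 1.4143 := by
    rw [hy, Real.sqrt_le_left (by norm_num)]; norm_num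
  have hylo : 1.4142 ≤ y := by
    rw [hy]; apply Real.le_sqrt_of_sq_le; norm_num
  set Q := y ^ q with hQ
  have hQpos : 0 < Q := by rw [hQ]; positivity
  have hqR : (60 : ℝ) ≤ q := by exact_mod_cast hq
  -- `Q ≥ q^5`
  have hQ5 : (q : ℝ) ^ 5 ≤ Q := by
    have h1 : ((q : ℝ) ^ 5) ^ 2 ≤ Q ^ 2 := by
      have h2 : Q ^ 2 = 2 ^ q := by rw [hQ, ← pow_mul, mul_comm, pow_mul, hs2]
      rw [h2, ← pow_mul]
      exact_mod_cast pow_ten_le q hq
    exact le_of_sq_le_sq h1 hQpos.le |> fun h => h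
  obtain ⟨hN1, hN2⟩ := NN_bounds q
  rw [← hy, ← hQ] at hN1 hN2
  set N := NN q with hN
  set a := q - 3 with ha
  set n := N - 3 with hn
  obtain ⟨hQ1000, hQq⟩ := num4 hqR hQ5
  have hNq : 2 * (q : ℝ) ≤ N := by
    have : (q : ℝ) * 1000 ≤ q * Q := mul_le_mul_of_nonneg_left hQ1000 (by positivity)
    linarith
  have hNqn : 2 * q ≤ N := by exact_mod_cast hNq
  have haR : (a : ℝ) = (q : ℝ) - 3 := by
    rw [ha, Nat.cast_sub (by omega)]; norm_num
  have hnR : (n : ℝ) = (N : ℝ) - 3 := by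
    rw [hn, Nat.cast_sub (by omega)]; norm_num
  have han : a ≤ n := by omega
  have han2 : a ≤ n - a := by omega
  have hya : y ^ a * y ^ 3 = Q := by
    rw [← pow_add, hQ]
    congr 1
    omega
  have hy3 : y ^ 3 = 2 * y := by
    have : y ^ 3 = y ^ 2 * y := by ring
    rw [this, hs2]
  have hya' : y ^ a * (2 * y) = Q := by rw [← hy3]; exact hya
  have hyapos : 0 < y ^ a := by positivity
  -- top term
  have htop : y ^ (a * (a + 5)) ≤ (n.choose a : ℝ) := by
    apply term_top han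
    rw [← hy]
    have h1 : y ^ (a + 5) = 2 * Q := by
      rw [show a + 5 = a + 3 + 2 by ring, pow_add, hs2, pow_add, hya]
      ring
    rw [h1, haR, hnR]
    linarith
  -- the small-overlap condition
  have hsmall : ∀ r, 2 * r ≤ a → 2 * (a : ℝ) ^ 2 * y ^ (r + 5) ≤ (n : ℝ) - a := by
    intro r hr
    have hna : 0 ≤ (n : ℝ) - a := by
      have : (a : ℝ) ≤ n := by exact_mod_cast han
      linarith
    apply le_of_sq_le_sq _ hna |> fun h => h
    have h1 : (2 * (a : ℝ) ^ 2 * y ^ (r + 5)) ^ 2 = 4 * (a : ℝ) ^ 4 * y ^ (2 * r + 10) := by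
      rw [mul_pow, mul_pow, ← pow_mul, ← pow_mul]
      have : (r + 5) * 2 = 2 * r + 10 := by ring
      rw [this]; norm_num
    have h2 : y ^ (2 * r + 10) ≤ y ^ (a + 10) := pow_le_pow_right₀ hy1 (by omega)
    have h3 : y ^ (a + 10) = 8 * y * Q := by
      have : y ^ (a + 10) = (y ^ a * y ^ 3) * (y ^ 2) ^ 3 * y := by ring
      rw [this, hya, hs2]; ring
    have h4 : (a : ℝ) ^ 4 ≤ (q : ℝ) ^ 4 := by
      apply pow_le_pow_left₀ (by positivity)
      rw [haR]; linarith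
    have h5 : 4 * (a : ℝ) ^ 4 * y ^ (2 * r + 10) ≤ 4 * (q : ℝ) ^ 4 * (8 * y * Q) := by
      rw [← h3]
      apply mul_le_mul (by linarith) h2 (by positivity) (by positivity)
    have h6 : (q : ℝ) * (Q - 1) ≤ (n : ℝ) - a := by rw [hnR, haR]; linarith
    have h7 : ((q : ℝ) * (Q - 1)) ^ 2 ≤ ((n : ℝ) - a) ^ 2 := by
      apply pow_le_pow_left₀ _ h6
      have : 0 ≤ Q - 1 := by linarith
      positivity
    rw [h1]
    refine h5.trans (le_trans ?_ h7)
    exact num1 hqR hQ5 hy2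
  -- the large-overlap condition
  have hlarge : ∀ i, 2 * i ≤ a → 2 * (a : ℝ) * n ≤ y ^ (2 * a - i + 5) := by
    intro i hi
    apply le_of_sq_le_sq _ (by positivity) |> fun h => h
    have h1 : (y ^ (2 * a - i + 5)) ^ 2 = y ^ (2 * (2 * a - i + 5)) := by
      rw [← pow_mul]; congr 1; ring
    have h2 : y ^ (3 * a + 10) ≤ y ^ (2 * (2 * a - i + 5)) := pow_le_pow_right₀ hy1 (by omega)
    have h3 : y ^ (3 * a + 10) = Q ^ 3 * y := by
      have : y ^ (3 * a + 10) = (y ^ a * y ^ 3) ^ 3 * y := by ring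
      rw [this, hya]
    rw [h1]
    refine le_trans ?_ h2
    rw [h3]
    have h4 : (a : ℝ) ≤ q := by rw [haR]; linarith
    have h5 : (n : ℝ) ≤ q * (Q * y) := by rw [hnR]; linarith
    have h6 : 2 * (a : ℝ) * n ≤ 2 * q * (q * (Q * y)) := by
      apply mul_le_mul _ h5 (by positivity) (by positivity)
      linarith
    have h7 : (2 * (a : ℝ) * n) ^ 2 ≤ (2 * q * (q * (Q * y))) ^ 2 :=
      pow_le_pow_left₀ (by positivity) h6 2
    refine h7.trans ?_
    have h8 : (2 * (q : ℝ) * (q * (Q * y))) ^ 2 = 8 * (q : ℝ) ^ 4 * Q ^ 2 := by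
      have : (2 * (q : ℝ) * (q * (Q * y))) ^ 2 = 4 * (q : ℝ) ^ 4 * Q ^ 2 * y ^ 2 := by ring
      rw [this, hs2]; ring
    rw [h8]
    have h9 : 8 * (q : ℝ) ^ 4 ≤ Q * y := num2 hqR hQ5 hy1
    calc 8 * (q : ℝ) ^ 4 * Q ^ 2 ≤ (Q * y) * Q ^ 2 :=
          mul_le_mul_of_nonneg_right h9 (by positivity)
      _ = _ := by ring
  -- all terms
  have hterm : ∀ i ≤ a, (a.choose i : ℝ) * ((n - a).choose i : ℝ) * 2 ^ er (a - i) ≤
      (n.choose a : ℝ) * ((1 / 2) ^ i + (1 / 2) ^ (a - i)) := by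
    intro i hi
    have hC : (0 : ℝ) ≤ (n.choose a : ℝ) := by positivity
    rcases le_or_gt (2 * i) a with h | h
    · refine (term_large h (hlarge i h) htop).trans ?_
      apply mul_le_mul_of_nonneg_left _ hC
      have : (0 : ℝ) ≤ (1 / 2) ^ (a - i) := by positivity
      linarith
    · have h1 := term_small (n := n) (a := a) (r := a - i) (by omega) han (hsmall (a - i)
        (by omega))
      have e1 : a - (a - i) = i := by omega
      rw [e1, Nat.choose_symm hi] at h1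
      refine h1.trans ?_
      apply mul_le_mul_of_nonneg_left _ hC
      have : (0 : ℝ) ≤ (1 / 2) ^ i := by positivity
      linarith
  -- the second moment
  set E := q.choose 2 - 3 with hE
  set x : ℝ := (n.choose a : ℝ) / 2 ^ E with hx
  have hnapos : (0 : ℝ) < (n.choose a : ℝ) := by exact_mod_cast Nat.choose_pos han
  have hxpos : 0 < x := by rw [hx]; positivity
  have hmom : ∀ τ ∈ (Finset.range N).powersetCard 3,
      ev (fun M => (Xc τ (Finset.range N \ τ) (q - 3) M : ℝ) ^ (1 + 1)) ∅ (board N) ≤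
        4 * x ^ 2 := by
    intro τ hτ
    obtain ⟨hτ1, hτ2⟩ := Finset.mem_powersetCard.1 hτ
    have hWc : (Finset.range N \ τ).card = n := by
      rw [Finset.card_sdiff_of_subset hτ1, Finset.card_range, hτ2]
    set β : ℕ → ℝ := fun i => ((n - a).choose i : ℝ) / 2 ^ (q.choose 2 - (q - i).choose 2) with hβ
    have hstep := moment_step (N := N) (K := τ) (W := Finset.range N \ τ) hτ1
      Finset.sdiff_subset Finset.disjoint_sdiff a 0 β
      (by
        intro i hi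
        rw [hβ]
        have : (0 : ℝ) < ((n - a).choose i : ℝ) := by
          exact_mod_cast Nat.choose_pos (by omega)
        positivity)
      (by
        intro R hR Q' hQ'
        obtain ⟨hR1, hR2⟩ := Finset.mem_powersetCard.1 hR
        have hQc : Q'.card ≤ a := by rw [← hR2]; exact Finset.card_le_card hQ'
        have hdis : Disjoint τ Q' := Finset.disjoint_of_subset_right (hQ'.trans hR1)
          Finset.disjoint_sdiff
        have hKQ : (τ ∪ Q').card = 3 + Q'.card := by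
          rw [Finset.card_union_of_disjoint hdis, hτ2]
        have h1 := ev_Xc (N := N) (K := τ ∪ Q') (W := (Finset.range N \ τ) \ R)
          (Finset.union_subset hτ1 ((hQ'.trans hR1).trans Finset.sdiff_subset))
          (Finset.sdiff_subset.trans Finset.sdiff_subset) (by
            rw [Finset.disjoint_union_left]
            refine ⟨Finset.disjoint_of_subset_right Finset.sdiff_subset Finset.disjoint_sdiff, ?_⟩
            exact Finset.disjoint_of_subset_left hQ' Finset.disjoint_sdiff) (a - Q'.card)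
        rw [Finset.card_sdiff_of_subset hR1, hWc, hR2, hKQ] at h1
        simp only [zero_add, pow_one]
        rw [h1, hβ]
        have e1 : 3 + Q'.card + (a - Q'.card) = q := by omega
        have e2 : q - (a - Q'.card) = 3 + Q'.card := by omega
        simp only
        rw [e1, e2])
    rw [hWc, hτ2, show 3 + a = q by omega, show Nat.choose 3 2 = 3 from rfl] at hstep
    simp only [zero_add, pow_one] at hstep
    have e0 : q - 3 = a := rfl
    rw [e0]
    refine hstep.trans ?_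
    have hsum : ∑ i ∈ Finset.range (a + 1), (a.choose i : ℝ) * β i ≤ 4 * x := by
      have h1 : ∀ i ∈ Finset.range (a + 1), (a.choose i : ℝ) * β i ≤
          x * ((1 / 2) ^ i + (1 / 2) ^ (a - i)) := by
        intro i hi
        rw [Finset.mem_range] at hi
        have h2 := hterm i (by omega)
        have h3 : er (a - i) + (q.choose 2 - (q - i).choose 2) = E := by
          unfold er
          have e1 : a - i + 3 = q - i := by omega
          rw [e1, hE]
          have h4 : 3 ≤ (q - i).choose 2 := by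
            have := Nat.choose_le_choose 2 (show 3 ≤ q - i by omega)
            simpa using this
          have h5 : (q - i).choose 2 ≤ q.choose 2 := Nat.choose_le_choose 2 (by omega)
          omega
        rw [hβ, hx]
        simp only
        rw [mul_div_assoc', div_mul_eq_mul_div, div_le_div_iff₀ (by positivity) (by positivity),
          ← h3, pow_add]
        have h6 : (0 : ℝ) ≤ 2 ^ (q.choose 2 - (q - i).choose 2) := by positivity
        have h7 := mul_le_mul_of_nonneg_right h2 h6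
        calc (a.choose i : ℝ) * ((n - a).choose i : ℝ) *
              (2 ^ er (a - i) * 2 ^ (q.choose 2 - (q - i).choose 2))
            = (a.choose i : ℝ) * ((n - a).choose i : ℝ) * 2 ^ er (a - i) *
              2 ^ (q.choose 2 - (q - i).choose 2) := by ring
          _ ≤ _ := h7
      refine (Finset.sum_le_sum h1).trans ?_
      rw [← Finset.mul_sum, Finset.sum_add_distrib]
      have h8 : ∑ i ∈ Finset.range (a + 1), (1 / 2 : ℝ) ^ i ≤ 2 := by
        have := sum_geometric_two_le (a + 1)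
        simpa using this
      have h9 : ∑ i ∈ Finset.range (a + 1), (1 / 2 : ℝ) ^ (a - i) =
          ∑ i ∈ Finset.range (a + 1), (1 / 2 : ℝ) ^ i := by
        rw [← Finset.sum_range_reflect (fun i => (1 / 2 : ℝ) ^ i) (a + 1)]
        apply Finset.sum_congr rfl
        intro i _
        congr 1
      rw [h9]
      have h10 : x * (∑ i ∈ Finset.range (a + 1), (1 / 2 : ℝ) ^ i) ≤ x * 2 :=
        mul_le_mul_of_nonneg_left h8 hxpos.le
      linarith
    calc (n.choose a : ℝ) / 2 ^ (q.choose 2 - 3) * ∑ i ∈ Finset.range (a + 1),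
          (a.choose i : ℝ) * β i ≤ x * (4 * x) :=
          mul_le_mul_of_nonneg_left hsum hxpos.le
      _ = _ := by ring
  -- the criterion
  have hc3 : (0 : ℝ) < (q.choose 3 : ℝ) := by exact_mod_cast Nat.choose_pos (by omega)
  have hc3le : (q.choose 3 : ℝ) ≤ (q : ℝ) ^ 3 / 6 := by
    have := Nat.choose_le_pow_div (α := ℝ) 3 q
    simpa [Nat.factorial] using this
  have hN2' : (q : ℝ) ^ 6 / 3 < (N : ℝ) - 2 := num3 hqR hQ5 hN1
  have hN2pos : 0 < (N : ℝ) - 2 := lt_of_le_of_lt (by positivity) hN2'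
  set K : ℝ := x * ((N : ℝ) - 2) / (3 * (q.choose 3 : ℝ)) with hK
  have hKpos : 0 < K := by rw [hK]; positivity
  apply winsOn_of_moment (p := 1) (s := 0) (K := K) (m := 4 * x ^ 2) (by omega) (by omega)
    (le_refl _) (by simpa using hKpos) hmom
  have e1 : N - 3 = n := rfl
  have e2 : q - 3 = a := rfl
  rw [e1, e2, ← hE, ← hx]
  simp only [Nat.cast_zero, Nat.cast_one, pow_one, mul_zero, zero_mul, sub_zero, one_mul]
  have h10 : 12 * (q.choose 3 : ℝ) ^ 2 < (N : ℝ) - 2 := by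
    have h11 : (q.choose 3 : ℝ) ^ 2 ≤ ((q : ℝ) ^ 3 / 6) ^ 2 := pow_le_pow_left₀ hc3.le hc3le 2
    have h12 : ((q : ℝ) ^ 3 / 6) ^ 2 = (q : ℝ) ^ 6 / 36 := by ring
    rw [h12] at h11
    linarith
  have h13 : (1 + 1 : ℝ) * K * (x / (q.choose 3 : ℝ)) - (4 * x ^ 2 + 0 ^ (1 + 1) +
      (K ^ (1 + 1) - 0 ^ (1 + 1)) * (3 / ((N : ℝ) - 2))) =
      x ^ 2 / (3 * (q.choose 3 : ℝ) ^ 2) * (((N : ℝ) - 2) - 12 * (q.choose 3 : ℝ) ^ 2) := by
    rw [hK]
    exact alg_id x _ _ hc3.ne' hN2pos.ne'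
  have h14 : 0 < x ^ 2 / (3 * (q.choose 3 : ℝ) ^ 2) *
      (((N : ℝ) - 2) - 12 * (q.choose 3 : ℝ) ^ 2) := by
    apply mul_pos (by positivity)
    linarith
  rw [← h13] at h14
  linarith

end Pool.Agent.H44Cliq
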