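import Pool.Agent.H44Cliq.Upper
import Pool.Agent.H44Cliq.Cert
import Pool.Agent.H44Cliq.Tail
import Pool.Agent.H44Cliq.Small

/-!
# Assembly
-/

namespace Pool.Agent.H44Cliq

open Finset

theorem exp_one_sq : Real.exp 1 ^ 2 < 7.4 := by
  have h1 := Real.exp_one_lt_d9
  have h2 : 0 < Real.exp 1 := Real.exp_pos 1
  nlinarith

/-- `f N < c` passes to smaller `N ≥ 3` -/
theorem f_lt_of_le {N n : ℕ} {c : ℝ} (hN : 3 ≤ N) (h : N ≤ n) (hf : f n < c) : f N < c := by
  rw [f_lt_iff (by omega)] at hf ⊢
  have hNR : (0 : ℝ) < N := by positivity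
  have hn0 : 0 < n := by omega
  have hnR : (0 : ℝ) < n := by exact_mod_cast hn0
  have he : Real.exp 1 ≤ N := by
    have h1 := Real.exp_one_lt_d9
    have h2 : (3 : ℝ) ≤ N := by exact_mod_cast hN
    linarith
  have hen : Real.exp 1 ≤ n := he.trans (by exact_mod_cast h)
  have h1 : Real.log n / n ≤ Real.log N / N := Real.log_div_self_antitoneOn
    (show (N : ℝ) ∈ {x | Real.exp 1 ≤ x} from he) (show (n : ℝ) ∈ {x | Real.exp 1 ≤ x} from hen)
    (by exact_mod_cast h)
  have hl2 : 0 < Real.log 2 := Real.log_pos (by norm_num)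
  have h2 : lg n / n ≤ lg N / N := by
    unfold lg Real.logb
    rw [div_right_comm, div_right_comm (Real.log N)]
    exact div_le_div_of_nonneg_right h1 hl2.le
  set X : ℝ := 2 ^ ((c + 3) / 2) with hX
  have hXpos : 0 < X := by rw [hX]; positivity
  have h3 : Real.exp 1 < lg n / n * X := by
    rw [div_mul_eq_mul_div, lt_div_iff₀ hnR]
    linarith
  have h4 : Real.exp 1 < lg N / N * X := lt_of_lt_of_le h3
    (mul_le_mul_of_nonneg_right h2 hXpos.le)
  rw [div_mul_eq_mul_div, lt_div_iff₀ hNR] at h4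
  linarith

theorem two_rpow_sq (q : ℕ) : ((2 : ℝ) ^ (((q : ℝ) + 3 + 3) / 2)) ^ 2 = 2 ^ (q + 6) := by
  rw [← Real.rpow_natCast, ← Real.rpow_mul (by norm_num), ← Real.rpow_natCast]
  congr 1
  push_cast
  ring

/-- numerical criterion for `f N < q + 3` -/
theorem f_lt_num {N q : ℕ} (b a : ℕ) (hN : 2 ≤ N) (hb : 0 < b) (h1 : 2 ^ a ≤ N ^ b)
    (h2 : (N * b * 27182818286) ^ 2 < (a * 10 ^ 10) ^ 2 * 2 ^ (q + 6)) : f N < (q : ℝ) + 3 := by
  rw [f_lt_iff hN]
  set X : ℝ := 2 ^ (((q : ℝ) + 3 + 3) / 2) with hX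
  have hX2 : X ^ 2 = 2 ^ (q + 6) := two_rpow_sq q
  have hXpos : 0 < X := by rw [hX]; positivity
  have hNR : (0 : ℝ) < N := by positivity
  have hbR : (0 : ℝ) < b := by exact_mod_cast hb
  -- `a / b ≤ lg N`
  have hlg : (a : ℝ) ≤ b * lg N := by
    have h3 : (a : ℝ) * Real.log 2 ≤ b * Real.log N := by
      have h4 : Real.log ((2 : ℝ) ^ a) ≤ Real.log ((N : ℝ) ^ b) := by
        apply Real.log_le_log (by positivity)
        exact_mod_cast h1
      rwa [Real.log_pow, Real.log_pow] at h4
    have hl2 : 0 < Real.log 2 := Real.log_pos (by norm_num)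
    unfold lg Real.logb
    rw [mul_div_assoc', le_div_iff₀ hl2]
    exact h3
  have he := Real.exp_one_lt_d9
  have he0 : 0 < Real.exp 1 := Real.exp_pos 1
  have h5 : (N : ℝ) * b * 2.7182818286 < a * X := by
    apply lt_of_pow_lt_pow_left₀ 2 (by positivity)
    rw [mul_pow (a : ℝ) X, hX2]
    have h6 : (((N * b * 27182818286) ^ 2 : ℕ) : ℝ) < (((a * 10 ^ 10) ^ 2 * 2 ^ (q + 6) : ℕ) : ℝ) :=
      by exact_mod_cast h2
    push_cast at h6
    have e1 : ((N : ℝ) * b * 27182818286) ^ 2 = ((N : ℝ) * b * 2.7182818286) ^ 2 * 10 ^ 20 := by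
      ring
    have e2 : ((a : ℝ) * 10000000000) ^ 2 * 2 ^ (q + 6) = (a : ℝ) ^ 2 * 2 ^ (q + 6) * 10 ^ 20 := by
      ring
    rw [e1, e2] at h6
    exact lt_of_mul_lt_mul_right h6 (by positivity)
  have h7 : (N : ℝ) * Real.exp 1 * b < lg N * X * b := by
    calc (N : ℝ) * Real.exp 1 * b ≤ (N : ℝ) * b * 2.7182818286 := by
          have : (N : ℝ) * Real.exp 1 * b = (N : ℝ) * b * Real.exp 1 := by ring
          rw [this]
          exact mul_le_mul_of_nonneg_left he.le (by positivity)
      _ < a * X := h5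
      _ ≤ b * lg N * X := mul_le_mul_of_nonneg_right hlg hXpos.le
      _ = lg N * X * b := by ring
  exact lt_of_mul_lt_mul_right h7 hbR.le

/-- `f (q 2^⌈q/2⌉) < q + 3` -/
theorem f_NN_lt {q : ℕ} (hq : 2 ≤ q) : f (NN q) < (q : ℝ) + 3 := by
  set m := (q + 1) / 2 with hm
  have hm1 : 1 ≤ m := by omega
  have hNN : (NN q : ℝ) = q * 2 ^ m := by
    unfold NN; push_cast; rfl
  have hN2 : 2 ≤ NN q := by
    unfold NN
    have : 1 ≤ 2 ^ ((q + 1) / 2) := Nat.one_le_two_pow
    calc 2 ≤ q := hq
      _ = q * 1 := (Nat.mul_one q).symm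
      _ ≤ _ := Nat.mul_le_mul_left q this
  rw [f_lt_iff hN2]
  set X : ℝ := 2 ^ (((q : ℝ) + 3 + 3) / 2) with hX
  have hX2 : X ^ 2 = 2 ^ (q + 6) := two_rpow_sq q
  have hXpos : 0 < X := by rw [hX]; positivity
  have hlg : (m : ℝ) ≤ lg (NN q) := by
    unfold lg
    rw [Real.le_logb_iff_rpow_le (by norm_num) (by positivity), Real.rpow_natCast, hNN]
    have : (1 : ℝ) ≤ q := by exact_mod_cast (by omega : 1 ≤ q)
    have h2 : (0 : ℝ) < 2 ^ m := by positivity
    nlinarith
  refine lt_of_lt_of_le ?_ (mul_le_mul_of_nonneg_right hlg hXpos.le)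
  have hmR : (1 : ℝ) ≤ m := by exact_mod_cast hm1
  apply lt_of_pow_lt_pow_left₀ 2 (by positivity)
  rw [hNN, mul_pow (m : ℝ) X, hX2, mul_pow, mul_pow]
  have he2 := exp_one_sq
  have he20 : 0 < Real.exp 1 ^ 2 := by positivity
  have h2m : (0 : ℝ) < (2 ^ m) ^ 2 := by positivity
  have hcase : (q : ℝ) = 2 * m ∧ (2 : ℝ) ^ (q + 6) = (2 ^ m) ^ 2 * 64 ∨
      (q : ℝ) = 2 * m - 1 ∧ (2 : ℝ) ^ (q + 6) = (2 ^ m) ^ 2 * 32 := by
    rcases Nat.even_or_odd' q with ⟨k, hk | hk⟩
    · left
      have hmk : m = k := by omega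
      rw [hmk, hk]
      refine ⟨by push_cast; ring, ?_⟩
      rw [pow_add, mul_comm 2 k, pow_mul]
      norm_num
    · right
      have hmk : m = k + 1 := by omega
      rw [hmk, hk]
      refine ⟨by push_cast; ring, ?_⟩
      rw [← pow_mul, show 2 * k + 1 + 6 = 2 * k + 7 by ring,
        show (k + 1) * 2 = 2 * k + 2 by ring, pow_add, pow_add]
      norm_num
      ring
  rcases hcase with ⟨h1, h2⟩ | ⟨h1, h2⟩
  · rw [h1, h2]
    have h3 : (2 * (m : ℝ)) ^ 2 * Real.exp 1 ^ 2 < (m : ℝ) ^ 2 * 64 := by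
      have : (0 : ℝ) < (m : ℝ) ^ 2 := by positivity
      nlinarith
    calc (2 * (m : ℝ)) ^ 2 * (2 ^ m) ^ 2 * Real.exp 1 ^ 2 =
        ((2 * (m : ℝ)) ^ 2 * Real.exp 1 ^ 2) * (2 ^ m) ^ 2 := by ring
      _ < ((m : ℝ) ^ 2 * 64) * (2 ^ m) ^ 2 := mul_lt_mul_of_pos_right h3 h2m
      _ = _ := by ring
  · rw [h1, h2]
    have h3 : (2 * (m : ℝ) - 1) ^ 2 * Real.exp 1 ^ 2 < (m : ℝ) ^ 2 * 32 := by
      have h4 : (2 * (m : ℝ) - 1) ^ 2 ≤ (2 * (m : ℝ)) ^ 2 :=
        pow_le_pow_left₀ (by linarith) (by linarith) 2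
      have h5 : (0 : ℝ) < (m : ℝ) ^ 2 := by positivity
      have h6 : (2 * (m : ℝ) - 1) ^ 2 * Real.exp 1 ^ 2 ≤ (2 * (m : ℝ)) ^ 2 * Real.exp 1 ^ 2 :=
        mul_le_mul_of_nonneg_right h4 he20.le
      nlinarith
    calc (2 * (m : ℝ) - 1) ^ 2 * (2 ^ m) ^ 2 * Real.exp 1 ^ 2 =
        ((2 * (m : ℝ) - 1) ^ 2 * Real.exp 1 ^ 2) * (2 ^ m) ^ 2 := by ring
      _ < ((m : ℝ) ^ 2 * 32) * (2 ^ m) ^ 2 := mul_lt_mul_of_pos_right h3 h2m
      _ = _ := by ring

/-- board sizes -/
def nseq (q : ℕ) : ℕ :=
  if q < 29 then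
    [11200, 14700, 21700, 31870, 46740, 68440, 100100, 146200, 213300, 311000, 452900, 659000,
      958000].getD (q - 16) 0
  else NN q

theorem nseq_big {q : ℕ} (hq : 29 ≤ q) : nseq q = NN q := by
  unfold nseq; rw [if_neg (by omega)]

theorem le_NN (q : ℕ) : q ≤ NN q := by
  unfold NN
  have : 1 ≤ 2 ^ ((q + 1) / 2) := Nat.one_le_two_pow
  calc q = q * 1 := (Nat.mul_one q).symm
    _ ≤ _ := Nat.mul_le_mul_left q this

theorem nseq_wins {q : ℕ} (hq : 16 ≤ q) : WinsOn (nseq q) q ∧ q ≤ nseq q := by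
  rcases Nat.lt_or_ge q 29 with h | h
  · interval_cases q
    · exact ⟨win16, by decide⟩
    · exact ⟨win17, by decide⟩
    · exact ⟨win18, by decide⟩
    · exact ⟨win19, by decide⟩
    · exact ⟨win20, by decide⟩
    · exact ⟨win21, by decide⟩
    · exact ⟨win22, by decide⟩
    · exact ⟨win23, by decide⟩
    · exact ⟨win24, by decide⟩
    · exact ⟨win25, by decide⟩
    · exact ⟨win26, by decide⟩
    · exact ⟨win27, by decide⟩
    · exact ⟨win28, by decide⟩
  · rw [nseq_big h]
    refine ⟨?_, le_NN q⟩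
    rcases Nat.lt_or_ge q 60 with h2 | h2
    · interval_cases q
      · exact win29
      · exact win30
      · exact win31
      · exact win32
      · exact win33
      · exact win34
      · exact win35
      · exact win36
      · exact win37
      · exact win38
      · exact win39
      · exact win40
      · exact win41
      · exact win42
      · exact win43
      · exact win44
      · exact win45
      · exact win46
      · exact win47
      · exact win48
      · exact win49
      · exact win50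
      · exact win51
      · exact win52
      · exact win53
      · exact win54
      · exact win55
      · exact win56
      · exact win57
      · exact win58
      · exact win59
    · exact winsOn_tail q h2

theorem nseq_f {q : ℕ} (hq : 17 ≤ q) : f (nseq q) < (q : ℝ) + 3 := by
  rcases Nat.lt_or_ge q 29 with h | h
  · interval_cases q
    · exact f_lt_num (N := 14700) (q := 17) 5 69 (by norm_num) (by norm_num) (by decide +kernel)
        (by decide +kernel)
    · exact f_lt_num (N := 21700) (q := 18) 37 533 (by norm_num) (by norm_num) (by decide +kernel)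
        (by decide +kernel)
    · exact f_lt_num (N := 31870) (q := 19) 23 344 (by norm_num) (by norm_num) (by decide +kernel)
        (by decide +kernel)
    · exact f_lt_num (N := 46740) (q := 20) 41 636 (by norm_num) (by norm_num) (by decide +kernel)
        (by decide +kernel)
    · exact f_lt_num (N := 68440) (q := 21) 16 257 (by norm_num) (by norm_num) (by decide +kernel)
        (by decide +kernel)
    · exact f_lt_num (N := 100100) (q := 22) 23 382 (by norm_num) (by norm_num) (by decide +kernel)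
        (by decide +kernel)
    · exact f_lt_num (N := 146200) (q := 23) 13 223 (by norm_num) (by norm_num) (by decide +kernel)
        (by decide +kernel)
    · exact f_lt_num (N := 213300) (q := 24) 10 177 (by norm_num) (by norm_num) (by decide +kernel)
        (by decide +kernel)
    · exact f_lt_num (N := 311000) (q := 25) 37 675 (by norm_num) (by norm_num) (by decide +kernel)
        (by decide +kernel)
    · exact f_lt_num (N := 452900) (q := 26) 14 263 (by norm_num) (by norm_num) (by decide +kernel)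
        (by decide +kernel)
    · exact f_lt_num (N := 659000) (q := 27) 64 1237 (by norm_num) (by norm_num) (by decide +kernel)
        (by decide +kernel)
    · exact f_lt_num (N := 958000) (q := 28) 23 457 (by norm_num) (by norm_num) (by decide +kernel)
        (by decide +kernel)
  · rw [nseq_big h]
    exact f_NN_lt (by omega)

/-- from a win of Maker to the lower bound -/
theorem lower_of_win {N n q : ℕ} (hw : WinsOn n q) (hn : n ≤ N) (hq : q ≤ N)
    (hf : f N < (q : ℝ) + 4) : f N - 4 < achievement N := by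
  have h1 : q ≤ achievement N := le_achievement hq (hw.mono hn).makerBuilds
  have h2 : (q : ℝ) ≤ achievement N := by exact_mod_cast h1
  linarith

theorem lower_large {N : ℕ} (hN : 11200 ≤ N) : f N - 4 < achievement N := by
  have hex : ∃ q, 17 ≤ q ∧ N < nseq q := by
    refine ⟨N + 29, by omega, ?_⟩
    rw [nseq_big (by omega)]
    have := le_NN (N + 29)
    omega
  classical
  set q' := Nat.find hex with hq'
  obtain ⟨h1, h2⟩ := Nat.find_spec hex
  rw [← hq'] at h1 h2
  obtain ⟨q, hq⟩ : ∃ q, q' = q + 1 := ⟨q' - 1, by omega⟩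
  have hle : nseq q ≤ N := by
    rcases Nat.lt_or_ge q 17 with h | h
    · have : q = 16 := by omega
      rw [this]
      exact hN
    · by_contra hcon
      push Not at hcon
      have := Nat.find_min hex (m := q) (by omega)
      exact this ⟨h, hcon⟩
  obtain ⟨hw, hqn⟩ := nseq_wins (q := q) (by omega)
  apply lower_of_win hw hle (hqn.trans hle)
  have h3 := nseq_f (q := q') h1
  have h4 := f_lt_of_le (N := N) (n := nseq q') (by omega) h2.le h3
  rw [hq] at h4
  push_cast at h4
  linarith

theorem lower_small {N : ℕ} (hN : 2 ≤ N) (hN2 : N ≤ 268) : f N - 4 < achievement N := by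
  rcases Nat.lt_or_ge N 3 with h | h
  · have : N = 2 := by omega
    subst this
    have h1 := f_lt_num (N := 2) (q := 2) 1 1 (by norm_num) (by norm_num) (by decide +kernel)
        (by decide +kernel)
    refine lower_of_win win2 (le_refl _) (le_refl _) ?_
    push_cast at h1 ⊢
    linarith
  · rcases Nat.lt_or_ge N 17 with h17 | h17
    · have h1 := f_lt_of_le h (show N ≤ 16 by omega) (f_lt_num (N := 16) (q := 3) 1 4
        (by norm_num) (by norm_num) (by norm_num) (by norm_num))
      refine lower_of_win win2 hN hN ?_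
      push_cast at h1 ⊢
      linarith
    · rcases Nat.lt_or_ge N 41 with h41 | h41
      · have h1 := f_lt_of_le h (show N ≤ 40 by omega) (f_lt_num (N := 40) (q := 4) 1 5
          (by norm_num) (by norm_num) (by norm_num) (by norm_num))
        refine lower_of_win win3 h17 (by omega) ?_
        push_cast at h1 ⊢
        linarith
      · rcases Nat.lt_or_ge N 85 with h85 | h85
        · have h1 := f_lt_of_le h (show N ≤ 84 by omega) (f_lt_num (N := 84) (q := 5) 1 6
            (by norm_num) (by norm_num) (by norm_num) (by norm_num))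
          refine lower_of_win win4 h41 (by omega) ?_
          push_cast at h1 ⊢
          linarith
        · rcases Nat.lt_or_ge N 170 with h170 | h170
          · have h1 := f_lt_of_le h (show N ≤ 169 by omega) (f_lt_num (N := 169) (q := 6) 3 22
              (by norm_num) (by norm_num) (by norm_num) (by norm_num))
            refine lower_of_win win5 h85 (by omega) ?_
            push_cast at h1 ⊢
            linarith
          · have h1 := f_lt_of_le h hN2 (f_lt_num (N := 268) (q := 7) 16 129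
              (by norm_num) (by norm_num) (by norm_num) (by norm_num))
            refine lower_of_win win6 h170 (by omega) ?_
            push_cast at h1 ⊢
            linarith

/-- the two inequalities give an `ε` -/
theorem exists_eps {a : ℕ} {x : ℝ} (h1 : x - 4 < a) (h2 : (a : ℝ) ≤ x + 3) :
    ∃ ε : ℝ, |ε| ≤ 3 ∧ (a : ℤ) = ⌊x + ε⌋ := by
  refine ⟨max (-3) ((a : ℝ) - x), ?_, ?_⟩
  · rw [abs_le]
    exact ⟨le_max_left _ _, max_le (by norm_num) (by linarith)⟩
  · symm
    rw [Int.floor_eq_iff]
    push_cast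
    constructor
    · have := le_max_right (-3) ((a : ℝ) - x)
      linarith
    · rcases max_cases (-3 : ℝ) ((a : ℝ) - x) with ⟨h, _⟩ | ⟨h, _⟩
      · rw [h]; linarith
      · rw [h]; linarith

end Pool.Agent.H44Cliq
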