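import Pool.Agent.H44Cliq.Breaker

/-!
# Moments of the number of cliques attached to a given set
-/

namespace Pool.Agent.H44Cliq

open Finset

section indep

variable {α : Type} [DecidableEq α]

theorem ev_insert_left (F : Finset α → ℝ) (s : α) (U : Finset α) :
    ev F {s} U = ev (fun X => F (insert s X)) ∅ U := by
  unfold ev
  congr 1
  apply Finset.sum_congr rfl
  intro C _
  rw [Finset.empty_union]
  rfl

theorem ev_congr {F G : Finset α → ℝ} {U : Finset α} (h : ∀ C ⊆ U, F C = G C) :
    ev F ∅ U = ev G ∅ U := by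
  unfold ev
  congr 1
  apply Finset.sum_congr rfl
  intro C hC
  rw [Finset.empty_union]
  exact h C (Finset.mem_powerset.1 hC)

/-- independence of the event `S ⊆ X` and a function which does not depend on `S`. -/
theorem ev_indep (S : Finset α) : ∀ U : Finset α, S ⊆ U → ∀ g : Finset α → ℝ,
    (∀ X ⊆ U, g X = g (X \ S)) →
    ev (fun X => if S ⊆ X then g X else 0) ∅ U = 1 / 2 ^ S.card * ev g ∅ U := by
  induction S using Finset.induction_on with
  | empty =>
    intro U _ g _
    simp
  | insert s S' hs ih =>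
    intro U hSU g hg
    have hsU : s ∈ U := hSU (Finset.mem_insert_self _ _)
    have hS'U : S' ⊆ U.erase s := by
      intro x hx
      refine Finset.mem_erase.2 ⟨fun h => hs (h ▸ hx), hSU (Finset.mem_insert_of_mem hx)⟩
    have hUe : U.erase s ⊆ U := Finset.erase_subset _ _
    have hg1 : ∀ X ⊆ U.erase s, g (insert s X) = g X := by
      intro X hX
      have h1 : insert s X ⊆ U := Finset.insert_subset hsU (hX.trans hUe)
      rw [hg _ h1, hg X (hX.trans hUe)]
      congr 1
      ext y
      simp only [Finset.mem_sdiff, Finset.mem_insert]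
      tauto
    have e1 : ev (fun X => if insert s S' ⊆ X then g X else 0) ∅ U =
        (ev (fun X => if S' ⊆ X then g X else 0) ∅ (U.erase s)) / 2 := by
      rw [ev_split _ ∅ U hsU]
      have h4 : (insert s ∅ : Finset α) = {s} := rfl
      rw [h4, ev_insert_left]
      have h5 : ev (fun X => if insert s S' ⊆ X then g X else 0) ∅ (U.erase s) = 0 := by
        rw [ev_congr (G := fun _ => (0 : ℝ)), ev_const]
        intro C hC
        rw [if_neg]
        intro h
        have := hC (h (Finset.mem_insert_self _ _))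
        simp at this
      rw [h5, add_zero]
      congr 1
      apply ev_congr
      intro C hC
      have hsC : s ∉ C := fun h => by
        have := hC h
        simp at this
      have h6 : insert s S' ⊆ insert s C ↔ S' ⊆ C := by
        constructor
        · intro h x hx
          rcases Finset.mem_insert.1 (h (Finset.mem_insert_of_mem hx)) with rfl | h'
          · exact absurd hx hs
          · exact h'
        · intro h; exact Finset.insert_subset_insert _ h
      by_cases h7 : S' ⊆ C
      · rw [if_pos (h6.2 h7), if_pos h7, hg1 C hC]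
      · rw [if_neg (fun h => h7 (h6.1 h)), if_neg h7]
    have e2 : ev g ∅ U = ev g ∅ (U.erase s) := by
      rw [ev_split _ ∅ U hsU]
      have h4 : (insert s ∅ : Finset α) = {s} := rfl
      rw [h4, ev_insert_left, ev_congr (F := fun X => g (insert s X)) (G := g) hg1]
      ring
    have e3 := ih (U.erase s) hS'U g (by
      intro X hX
      rw [hg X (hX.trans hUe), hg (X \ S') (Finset.sdiff_subset.trans (hX.trans hUe))]
      congr 1
      ext y
      simp only [Finset.mem_sdiff, Finset.mem_insert]
      tauto)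
    rw [e1, e3, e2, Finset.card_insert_of_notMem hs, pow_succ]
    ring

end indep

/-- the edges inside `K ∪ R` which are not inside `K` -/
def Ed (K R : Finset ℕ) : Finset (Finset ℕ) :=
  (K ∪ R).powersetCard 2 \ K.powersetCard 2

theorem mem_Ed {K R : Finset ℕ} {e : Finset ℕ} :
    e ∈ Ed K R ↔ e ⊆ K ∪ R ∧ e.card = 2 ∧ ¬ e ⊆ K := by
  unfold Ed
  rw [Finset.mem_sdiff, Finset.mem_powersetCard, Finset.mem_powersetCard]
  tauto

/-- the number of `a`-subsets `R` of `W` with `Ed K R ⊆ M` -/
def Xc (K W : Finset ℕ) (a : ℕ) (M : Finset (Finset ℕ)) : ℕ :=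
  ((W.powersetCard a).filter (fun R => Ed K R ⊆ M)).card

theorem Ed_card {K R : Finset ℕ} (h : Disjoint K R) :
    (Ed K R).card = (K.card + R.card).choose 2 - K.card.choose 2 := by
  unfold Ed
  rw [Finset.card_sdiff_of_subset (Finset.powersetCard_mono Finset.subset_union_left),
    Finset.card_powersetCard, Finset.card_powersetCard, Finset.card_union_of_disjoint h]

theorem Ed_subset_board {N : ℕ} {K R : Finset ℕ} (hK : K ⊆ Finset.range N)
    (hR : R ⊆ Finset.range N) : Ed K R ⊆ board N := by
  intro e he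
  rw [mem_Ed] at he
  unfold board
  rw [Finset.mem_powersetCard]
  exact ⟨he.1.trans (Finset.union_subset hK hR), he.2.1⟩

theorem Xc_eq_sum (K W : Finset ℕ) (a : ℕ) (M : Finset (Finset ℕ)) :
    (Xc K W a M : ℝ) = ∑ R ∈ W.powersetCard a, (if Ed K R ⊆ M then (1 : ℝ) else 0) := by
  unfold Xc
  rw [Finset.card_filter]
  push_cast
  rfl

/-- decomposition by the intersection with a fixed set -/
theorem Xc_le_sum (K W : Finset ℕ) (a : ℕ) (M : Finset (Finset ℕ)) (R : Finset ℕ) :
    Xc K W a M ≤ ∑ Q ∈ R.powerset, Xc (K ∪ Q) (W \ R) (a - Q.card) M := by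
  unfold Xc
  rw [← Finset.card_sigma]
  apply Finset.card_le_card_of_injOn (fun R' => (⟨R' ∩ R, R' \ R⟩ : Σ _ : Finset ℕ, Finset ℕ))
  · intro R' hR'
    simp only [Finset.coe_filter, Finset.mem_powersetCard, Set.mem_ofPred_eq] at hR'
    simp only [Finset.coe_sigma, Set.mem_sigma_iff, Finset.mem_coe, Finset.mem_powerset,
      Finset.mem_filter, Finset.mem_powersetCard]
    refine ⟨Finset.inter_subset_right, ⟨Finset.sdiff_subset_sdiff hR'.1.1
      (Finset.Subset.refl _), ?_⟩, ?_⟩
    · have := Finset.card_inter_add_card_sdiff R' R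
      rw [← hR'.1.2]
      omega
    · intro e he
      apply hR'.2
      rw [mem_Ed] at he ⊢
      refine ⟨?_, he.2.1, fun h => he.2.2 (h.trans Finset.subset_union_left)⟩
      intro x hx
      have := he.1 hx
      simp only [Finset.mem_union, Finset.mem_inter, Finset.mem_sdiff] at this ⊢
      tauto
  · intro A _ B _ hAB
    simp only [Sigma.mk.injEq] at hAB
    obtain ⟨h1, h2⟩ := hAB
    have h2' := eq_of_heq h2
    have hA : A = (A ∩ R) ∪ (A \ R) := by
      ext x
      simp only [Finset.mem_union, Finset.mem_inter, Finset.mem_sdiff]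
      tauto
    have hB : B = (B ∩ R) ∪ (B \ R) := by
      ext x
      simp only [Finset.mem_union, Finset.mem_inter, Finset.mem_sdiff]
      tauto
    rw [hA, hB, h1, h2']

theorem Xc_indep {K W R Q : Finset ℕ} {a : ℕ} (hKW : Disjoint K W) (hQ : Q ⊆ R)
    (M : Finset (Finset ℕ)) :
    Xc (K ∪ Q) (W \ R) a M = Xc (K ∪ Q) (W \ R) a (M \ Ed K R) := by
  unfold Xc
  congr 1
  apply Finset.filter_congr
  intro R'' hR''
  rw [Finset.mem_powersetCard] at hR''
  constructor
  · intro h e he
    rw [Finset.mem_sdiff]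
    refine ⟨h he, fun he' => ?_⟩
    rw [mem_Ed] at he he'
    obtain ⟨x, hx, hxn⟩ := Finset.not_subset.1 he.2.2
    have h1 := he.1 hx
    have h2 := he'.1 hx
    have h3 : x ∈ R'' := by
      rcases Finset.mem_union.1 h1 with h | h
      · exact absurd h hxn
      · exact h
    have h4 := Finset.mem_sdiff.1 (hR''.1 h3)
    rcases Finset.mem_union.1 h2 with h | h
    · exact (Finset.disjoint_left.1 hKW h) h4.1
    · exact h4.2 h
  · intro h
    exact h.trans Finset.sdiff_subset

theorem jensen_pow {ι : Type} (s : Finset ι) (X β : ι → ℝ) (hβ : ∀ i ∈ s, 0 < β i)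
    (hX : ∀ i ∈ s, 0 ≤ X i) (p : ℕ) :
    (∑ i ∈ s, X i) ^ (p + 1) ≤ (∑ i ∈ s, β i) ^ p * ∑ i ∈ s, X i ^ (p + 1) / β i ^ p := by
  rcases s.eq_empty_or_nonempty with rfl | hne
  · simp
  have hB : 0 < ∑ i ∈ s, β i := Finset.sum_pos hβ hne
  set B := ∑ i ∈ s, β i with hBdef
  have h := Real.pow_arith_mean_le_arith_mean_pow s (fun i => β i / B) (fun i => X i * B / β i)
    (fun i hi => (div_pos (hβ i hi) hB).le)
    (by rw [← Finset.sum_div, ← hBdef, div_self hB.ne'])
    (fun i hi => div_nonneg (mul_nonneg (hX i hi) hB.le) (hβ i hi).le) (p + 1)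
  have e1 : ∑ i ∈ s, β i / B * (X i * B / β i) = ∑ i ∈ s, X i := by
    apply Finset.sum_congr rfl
    intro i hi
    have := (hβ i hi).ne'
    field_simp
  have e2 : ∑ i ∈ s, β i / B * (X i * B / β i) ^ (p + 1) =
      B ^ p * ∑ i ∈ s, X i ^ (p + 1) / β i ^ p := by
    rw [Finset.mul_sum]
    apply Finset.sum_congr rfl
    intro i hi
    have := (hβ i hi).ne'
    rw [div_pow, mul_pow, pow_succ (β i), pow_succ B]
    field_simp
  rw [e1, e2] at h
  exact h

/-- one step of the moment recursion -/
theorem moment_step {N : ℕ} {K W : Finset ℕ} (hK : K ⊆ Finset.range N)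
    (hW : W ⊆ Finset.range N) (hKW : Disjoint K W) (a p : ℕ) (β : ℕ → ℝ)
    (hβ : ∀ i ≤ a, 0 < β i)
    (hrec : ∀ R ∈ W.powersetCard a, ∀ Q ⊆ R,
      ev (fun M => (Xc (K ∪ Q) (W \ R) (a - Q.card) M : ℝ) ^ (p + 1)) ∅ (board N) ≤
        β (a - Q.card) ^ (p + 1)) :
    ev (fun M => (Xc K W a M : ℝ) ^ (p + 2)) ∅ (board N) ≤
      (W.card.choose a : ℝ) / 2 ^ ((K.card + a).choose 2 - K.card.choose 2) *
        (∑ i ∈ Finset.range (a + 1), (a.choose i : ℝ) * β i) ^ (p + 1) := by
  set S := ∑ i ∈ Finset.range (a + 1), (a.choose i : ℝ) * β i with hS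
  have hSpos : 0 ≤ S := by
    apply Finset.sum_nonneg
    intro i hi
    have := hβ i (by rw [Finset.mem_range] at hi; omega)
    positivity
  have hev1 : ev (fun M => (Xc K W a M : ℝ) ^ (p + 2)) ∅ (board N) =
      ∑ R ∈ W.powersetCard a, ev (fun M => if Ed K R ⊆ M then (Xc K W a M : ℝ) ^ (p + 1) else 0)
        ∅ (board N) := by
    rw [← ev_sum]
    apply ev_congr
    intro M _
    have h1 : (Xc K W a M : ℝ) ^ (p + 2) = (Xc K W a M : ℝ) * (Xc K W a M : ℝ) ^ (p + 1) := by
      rw [pow_succ]; ring
    rw [h1]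
    conv_lhs => rw [Xc_eq_sum]
    rw [Finset.sum_mul]
    apply Finset.sum_congr rfl
    intro R _
    rw [← Xc_eq_sum]
    split_ifs <;> simp
  rw [hev1]
  have hterm : ∀ R ∈ W.powersetCard a,
      ev (fun M => if Ed K R ⊆ M then (Xc K W a M : ℝ) ^ (p + 1) else 0) ∅ (board N) ≤
        1 / 2 ^ ((K.card + a).choose 2 - K.card.choose 2) * S ^ (p + 1) := by
    intro R hR
    have hR' := Finset.mem_powersetCard.1 hR
    have hKR : Disjoint K R := Finset.disjoint_of_subset_right hR'.1 hKW
    set g : Finset (Finset ℕ) → ℝ := fun M =>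
      (∑ Q ∈ R.powerset, (Xc (K ∪ Q) (W \ R) (a - Q.card) M : ℝ)) ^ (p + 1) with hg
    have h1 : ev (fun M => if Ed K R ⊆ M then (Xc K W a M : ℝ) ^ (p + 1) else 0) ∅ (board N) ≤
        ev (fun M => if Ed K R ⊆ M then g M else 0) ∅ (board N) := by
      apply ev_mono
      intro C _
      rw [Finset.empty_union]
      split_ifs
      · rw [hg]
        apply pow_le_pow_left₀ (by positivity)
        have := Xc_le_sum K W a C R
        exact_mod_cast this
      · exact le_refl _
    have h2 : ev (fun M => if Ed K R ⊆ M then g M else 0) ∅ (board N) =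
        1 / 2 ^ (Ed K R).card * ev g ∅ (board N) := by
      apply ev_indep
      · exact Ed_subset_board hK (hR'.1.trans hW)
      · intro X _
        rw [hg]
        simp only
        congr 1
        apply Finset.sum_congr rfl
        intro Q hQ
        rw [Xc_indep hKW (Finset.mem_powerset.1 hQ)]
    have h3 : ev g ∅ (board N) ≤ S ^ (p + 1) := by
      have hβQ : ∀ Q ∈ R.powerset, 0 < β (a - Q.card) := fun Q _ => hβ _ (Nat.sub_le _ _)
      have hSeq : ∑ Q ∈ R.powerset, β (a - Q.card) = S := by
        have := Finset.sum_powerset_apply_card (fun m => β (a - m)) (x := R)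
        rw [this, hS, hR'.2]
        rw [← Finset.sum_range_reflect]
        apply Finset.sum_congr rfl
        intro i hi
        rw [Finset.mem_range] at hi
        have e1 : a + 1 - 1 - i = a - i := by omega
        have e2 : a - (a - i) = i := by omega
        rw [e1, e2, nsmul_eq_mul, Nat.choose_symm (by omega)]
      have h4 : ev g ∅ (board N) ≤ ev (fun M => (∑ Q ∈ R.powerset, β (a - Q.card)) ^ p *
          ∑ Q ∈ R.powerset, (Xc (K ∪ Q) (W \ R) (a - Q.card) M : ℝ) ^ (p + 1) /
            β (a - Q.card) ^ p) ∅ (board N) := by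
        apply ev_mono
        intro C _
        rw [Finset.empty_union]
        exact jensen_pow R.powerset _ _ hβQ (fun _ _ => by positivity) p
      rw [ev_mul_left, ev_sum] at h4
      refine h4.trans ?_
      rw [hSeq, pow_succ]
      apply mul_le_mul_of_nonneg_left _ (by positivity)
      conv_rhs => rw [← hSeq]
      apply Finset.sum_le_sum
      intro Q hQ
      have h5 := hrec R hR Q (Finset.mem_powerset.1 hQ)
      have h6 : ev (fun M => (Xc (K ∪ Q) (W \ R) (a - Q.card) M : ℝ) ^ (p + 1) /
          β (a - Q.card) ^ p) ∅ (board N) = (1 / β (a - Q.card) ^ p) *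
          ev (fun M => (Xc (K ∪ Q) (W \ R) (a - Q.card) M : ℝ) ^ (p + 1)) ∅ (board N) := by
        rw [← ev_mul_left]
        apply ev_congr
        intro C _
        ring
      rw [h6]
      have h7 := hβQ Q hQ
      have h8 : (0 : ℝ) < β (a - Q.card) ^ p := by positivity
      rw [one_div, inv_mul_le_iff₀ h8, ← pow_succ]
      exact h5
    rw [h2] at h1
    refine h1.trans ?_
    rw [Ed_card hKR, hR'.2]
    apply mul_le_mul_of_nonneg_left h3 (by positivity)
  refine (Finset.sum_le_sum hterm).trans ?_
  rw [Finset.sum_const, Finset.card_powersetCard, nsmul_eq_mul]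
  apply le_of_eq
  ring

theorem ev_Xc {N : ℕ} {K W : Finset ℕ} (hK : K ⊆ Finset.range N)
    (hW : W ⊆ Finset.range N) (hKW : Disjoint K W) (a : ℕ) :
    ev (fun M => (Xc K W a M : ℝ)) ∅ (board N) =
      (W.card.choose a : ℝ) / 2 ^ ((K.card + a).choose 2 - K.card.choose 2) := by
  have h1 : (fun M => (Xc K W a M : ℝ)) = fun M => ∑ R ∈ W.powersetCard a,
      (if Ed K R ⊆ M then (1 : ℝ) else 0) := by
    funext M; exact Xc_eq_sum K W a M
  rw [h1, ev_sum]
  have h2 : ∀ R ∈ W.powersetCard a, ev (fun X => if Ed K R ⊆ X then (1 : ℝ) else 0) ∅ (board N) =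
      1 / 2 ^ ((K.card + a).choose 2 - K.card.choose 2) := by
    intro R hR
    have hR' := Finset.mem_powersetCard.1 hR
    have hKR : Disjoint K R := Finset.disjoint_of_subset_right hR'.1 hKW
    rw [ev_superset (Ed_subset_board hK (hR'.1.trans hW)), Ed_card hKR, hR'.2]
  rw [Finset.sum_congr rfl h2, Finset.sum_const, Finset.card_powersetCard, nsmul_eq_mul]
  ring

/-- the moment bound from a table -/
theorem moment_bound {N q P n a0 : ℕ} (b : ℕ → ℕ → ℝ)
    (hpos : ∀ p, 1 ≤ p → p ≤ P → ∀ a ≤ a0, 0 < b p a)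
    (h1 : ∀ a ≤ a0, ((n - (P - 1) * a).choose a : ℝ) / 2 ^ (q.choose 2 - (q - a).choose 2) ≤ b 1 a)
    (h2 : ∀ p, 1 ≤ p → p < P → ∀ a ≤ a0,
      ((n - (P - (p + 1)) * a).choose a : ℝ) / 2 ^ (q.choose 2 - (q - a).choose 2) *
        (∑ i ∈ Finset.range (a + 1), (a.choose i : ℝ) * b p i) ^ p ≤ b (p + 1) a ^ (p + 1)) :
    ∀ p, p + 1 ≤ P → ∀ a ≤ a0, ∀ K W : Finset ℕ, K ⊆ Finset.range N → W ⊆ Finset.range N →
      Disjoint K W → K.card + a = q → W.card + (P - (p + 1)) * a ≤ n →
      ev (fun M => (Xc K W a M : ℝ) ^ (p + 1)) ∅ (board N) ≤ b (p + 1) a ^ (p + 1) := by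
  intro p
  induction p with
  | zero =>
    intro hP a ha K W hK hW hKW hKa hWn
    have e1 := ev_Xc hK hW hKW a
    have e2 : q - a = K.card := by omega
    have h := h1 a ha
    rw [e2] at h
    simp only [zero_add, pow_one] at hWn ⊢
    rw [e1, hKa]
    refine le_trans ?_ h
    apply div_le_div_of_nonneg_right _ (by positivity)
    have : W.card ≤ n - (P - 1) * a := by omega
    exact_mod_cast Nat.choose_le_choose a this
  | succ p ih =>
    intro hP a ha K W hK hW hKW hKa hWn
    have e2 : q - a = K.card := by omega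
    have hstep := moment_step hK hW hKW a p (fun i => b (p + 1) i)
      (fun i hi => hpos (p + 1) (by omega) (by omega) i (by omega)) (by
        intro R hR Q hQ
        have hR' := Finset.mem_powersetCard.1 hR
        have hQc : Q.card ≤ a := by rw [← hR'.2]; exact Finset.card_le_card hQ
        apply ih (by omega) (a - Q.card) (by omega) (K ∪ Q) (W \ R)
        · exact Finset.union_subset hK (hQ.trans (hR'.1.trans hW))
        · exact Finset.sdiff_subset.trans hW
        · rw [Finset.disjoint_union_left]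
          refine ⟨Finset.disjoint_of_subset_right Finset.sdiff_subset hKW, ?_⟩
          exact Finset.disjoint_of_subset_left hQ Finset.disjoint_sdiff
        · rw [Finset.card_union_of_disjoint (Finset.disjoint_of_subset_right
            (hQ.trans hR'.1) hKW)]
          omega
        · rw [Finset.card_sdiff_of_subset hR'.1, hR'.2]
          have haW : a ≤ W.card := by rw [← hR'.2]; exact Finset.card_le_card hR'.1
          have h5 : (P - (p + 1)) * (a - Q.card) ≤ (P - (p + 1)) * a :=
            Nat.mul_le_mul_left _ (Nat.sub_le _ _)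
          have h6 : (P - (p + 1)) * a = (P - (p + 1 + 1)) * a + a := by
            have : P - (p + 1) = (P - (p + 1 + 1)) + 1 := by omega
            rw [this]; ring
          omega)
    have hb := h2 (p + 1) (by omega) (by omega) a ha
    rw [e2] at hb
    rw [hKa] at hstep
    refine hstep.trans (le_trans ?_ hb)
    have hSnn : 0 ≤ ∑ i ∈ Finset.range (a + 1), (a.choose i : ℝ) * b (p + 1) i := by
      apply Finset.sum_nonneg
      intro i hi
      have := hpos (p + 1) (by omega) (by omega) i (by rw [Finset.mem_range] at hi; omega)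
      positivity
    apply mul_le_mul_of_nonneg_right _ (by positivity)
    apply div_le_div_of_nonneg_right _ (by positivity)
    have : W.card ≤ n - (P - (p + 1 + 1)) * a := by omega
    exact_mod_cast Nat.choose_le_choose a this

end Pool.Agent.H44Cliq
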