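import Pool.Agent.H44Cliq.Crit

/-!
# A numerical certificate for Maker's win on a fixed board
-/

namespace Pool.Agent.H44Cliq

open Finset

/-- adjacent sums -/
def adj (l : List ℕ) : List ℕ := List.zipWith (· + ·) l l.tail

theorem adj_length (l : List ℕ) : (adj l).length = l.length - 1 := by
  unfold adj
  rw [List.length_zipWith, List.length_tail]
  omega

theorem adj_getD (l : List ℕ) (j : ℕ) (h : j + 1 < l.length) :
    (adj l).getD j 0 = l.getD j 0 + l.getD (j + 1) 0 := by
  have h1 : j < (adj l).length := by rw [adj_length]; omega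
  rw [List.getD_eq_getElem _ _ h1, List.getD_eq_getElem _ _ (by omega),
    List.getD_eq_getElem _ _ h]
  unfold adj
  rw [List.getElem_zipWith, List.getElem_tail]

theorem sum_choose_adj (a : ℕ) (g : ℕ → ℕ) :
    ∑ i ∈ Finset.range (a + 1), a.choose i * (g i + g (i + 1)) =
      ∑ i ∈ Finset.range (a + 2), (a + 1).choose i * g i := by
  have h := Finset.sum_choose_succ_mul (R := ℕ) (fun i _ => g i) a
  simp only [Nat.cast_id] at h
  rw [h, ← Finset.sum_add_distrib]
  apply Finset.sum_congr rfl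
  intro i _
  ring

theorem adj_iter (a : ℕ) : ∀ (l : List ℕ) (j : ℕ), a + j < l.length →
    ((adj^[a]) l).getD j 0 = ∑ i ∈ Finset.range (a + 1), a.choose i * l.getD (i + j) 0 := by
  induction a with
  | zero => intro l j _; simp
  | succ a ih =>
    intro l j h
    rw [Function.iterate_succ_apply, ih (adj l) j (by rw [adj_length]; omega),
      ← sum_choose_adj a (fun i => l.getD (i + j) 0)]
    apply Finset.sum_congr rfl
    intro i hi
    rw [Finset.mem_range] at hi
    rw [adj_getD l (i + j) (by omega)]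
    have : i + j + 1 = i + 1 + j := by ring
    rw [this]

/-- number of edges between `a` vertices and themselves and the `q - a` others -/
def EE (q a : ℕ) : ℕ := q * (q - 1) / 2 - (q - a) * (q - a - 1) / 2

theorem EE_eq (q a : ℕ) : EE q a = q.choose 2 - (q - a).choose 2 := by
  unfold EE
  rw [Nat.choose_two_right, Nat.choose_two_right]

/-- check of one row of the table, from the previous one -/
def rowLoop (q n j σ p : ℕ) : List ℕ → ℕ → List ℕ → Bool
  | [], _, _ => true
  | b :: bs, a, cur =>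
    (Nat.ble 1 b && Nat.ble ((n - j * a).descFactorial a * (cur.headD 0) ^ p * 2 ^ σ)
      (b ^ (p + 1) * (2 ^ (EE q a) * a.factorial))) && rowLoop q n j σ p bs (a + 1) (adj cur)

theorem rowLoop_sound {q n j σ p : ℕ} : ∀ (next : List ℕ) (a0 : ℕ) (cur0 : List ℕ),
    rowLoop q n j σ p next a0 ((adj^[a0]) cur0) = true → a0 + next.length ≤ cur0.length →
    ∀ i < next.length, 1 ≤ next.getD i 0 ∧
      (n - j * (a0 + i)).descFactorial (a0 + i) *
        (∑ k ∈ Finset.range (a0 + i + 1), (a0 + i).choose k * cur0.getD k 0) ^ p * 2 ^ σ ≤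
      (next.getD i 0) ^ (p + 1) * (2 ^ (EE q (a0 + i)) * (a0 + i).factorial) := by
  intro next
  induction next with
  | nil => intro a0 cur0 _ _ i hi; simp at hi
  | cons b bs ih =>
    intro a0 cur0 h hlen i hi
    simp only [rowLoop, Bool.and_eq_true, Nat.ble_eq] at h
    obtain ⟨⟨h1, h2⟩, h3⟩ := h
    simp only [List.length_cons] at hlen hi
    rcases Nat.eq_zero_or_pos i with rfl | hi0
    · have h4 := adj_iter a0 cur0 0 (by omega)
      have h5 : ((adj^[a0]) cur0).headD 0 = ((adj^[a0]) cur0).getD 0 0 := by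
        cases (adj^[a0]) cur0 <;> rfl
      rw [h5, h4] at h2
      simp only [add_zero] at h2 ⊢
      simp only [List.getD_cons_zero]
      exact ⟨h1, h2⟩
    · obtain ⟨i', rfl⟩ : ∃ i', i = i' + 1 := ⟨i - 1, by omega⟩
      have h4 : adj ((adj^[a0]) cur0) = (adj^[a0 + 1]) cur0 :=
        (Function.iterate_succ_apply' adj a0 cur0).symm
      rw [h4] at h3
      have h5 := ih (a0 + 1) cur0 h3 (by omega) i' (by omega)
      have h6 : a0 + 1 + i' = a0 + (i' + 1) := by ring
      rw [h6] at h5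
      simp only [List.getD_cons_succ]
      exact h5

/-- a mantissa-exponent pair -/
def val (x : ℕ × ℕ) : ℕ := x.1 * 2 ^ x.2

/-- check of the rows; `j` is the number of remaining rows -/
def rowsLoop (q n σ : ℕ) : List (List (ℕ × ℕ)) → ℕ → List ℕ → Bool
  | [], _, _ => true
  | r :: rs, p, cur =>
    (Nat.beq (r.map val).length (q - 3 + 1) && rowLoop q n rs.length σ p (r.map val) 0 cur) &&
      rowsLoop q n σ rs (p + 1) (r.map val)

/-- the table entry -/
def ent (rows : List (List (ℕ × ℕ))) (p a : ℕ) : ℕ := ((rows.getD p []).map val).getD a 0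

theorem rowsLoop_sound {q n σ : ℕ} : ∀ (rows : List (List (ℕ × ℕ))) (p : ℕ) (cur : List ℕ),
    rowsLoop q n σ rows p cur = true → cur.length = q - 3 + 1 →
    ∀ i < rows.length, ∀ a ≤ q - 3, 1 ≤ ent rows i a ∧
      (n - (rows.length - (i + 1)) * a).descFactorial a *
        (∑ k ∈ Finset.range (a + 1), a.choose k *
          (if i = 0 then cur.getD k 0 else ent rows (i - 1) k)) ^ (p + i) * 2 ^ σ ≤
      (ent rows i a) ^ (p + i + 1) * (2 ^ (EE q a) * a.factorial) := by
  intro rows
  induction rows with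
  | nil => intro p cur _ _ i hi; simp at hi
  | cons r rs ih =>
    intro p cur h hcur i hi a ha
    simp only [rowsLoop, Bool.and_eq_true, Nat.beq_eq] at h
    obtain ⟨⟨h1, h2⟩, h3⟩ := h
    rcases Nat.eq_zero_or_pos i with rfl | hi0
    · have h4 := rowLoop_sound (r.map val) 0 cur h2 (by omega) a (by omega)
      simp only [zero_add] at h4
      have e1 : ent (r :: rs) 0 a = (r.map val).getD a 0 := rfl
      have e2 : (r :: rs).length - (0 + 1) = rs.length := by simp
      rw [e1, e2]
      simp only [if_true, add_zero]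
      exact h4
    · obtain ⟨i', rfl⟩ : ∃ i', i = i' + 1 := ⟨i - 1, by omega⟩
      have h4 := ih (p + 1) (r.map val) h3 h1 i' (by simp at hi; omega) a ha
      have e1 : ent (r :: rs) (i' + 1) a = ent rs i' a := rfl
      have e2 : (r :: rs).length - (i' + 1 + 1) = rs.length - (i' + 1) := by
        simp
      have e3 : ∀ k, (if i' + 1 = 0 then cur.getD k 0 else ent (r :: rs) (i' + 1 - 1) k) =
          if i' = 0 then (r.map val).getD k 0 else ent rs (i' - 1) k := by
        intro k
        rw [if_neg (by omega)]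
        rcases Nat.eq_zero_or_pos i' with rfl | hi1
        · rfl
        · obtain ⟨i'', rfl⟩ : ∃ i'', i' = i'' + 1 := ⟨i' - 1, by omega⟩
          rw [if_neg (by omega)]
          rfl
      have e4 : p + (i' + 1) = p + 1 + i' := by ring
      rw [e1, e2, e4]
      simp only [e3]
      exact h4

/-- the final inequality; here `P = p + 1` is the number of rows, `BP` the last entry -/
def finalCheck (q n σ s K p BP : ℕ) : Bool :=
  Nat.blt (((BP ^ (p + 1) * 2 ^ (EE q (q - 3))) + (p * s ^ (p + 1)) *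
      2 ^ (σ * (p + 1) + EE q (q - 3))) * (n + 1) * (q.descFactorial 3 * (q - 3).factorial) +
      3 * p * (K ^ (p + 1) - s ^ (p + 1)) * (q.descFactorial 3 * (q - 3).factorial) *
      2 ^ (σ * (p + 1) + EE q (q - 3)))
    ((6 * (p + 1) * (K ^ p - s ^ p) + (p + 1) * s ^ p * q.descFactorial 3) *
      (n.descFactorial (q - 3) * 2 ^ (σ * (p + 1))) * (n + 1))

/-- the whole check, for the board on `n + 3` vertices -/
def check (q n σ s K : ℕ) (rows : List (List (ℕ × ℕ))) : Bool :=
  ((Nat.ble 3 q && Nat.ble q (n + 3)) && (Nat.ble 2 rows.length && Nat.blt s K)) &&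
    (rowsLoop q n σ rows 0 (List.replicate (q - 3 + 1) 0) &&
      finalCheck q n σ s K (rows.length - 1) (ent rows (rows.length - 1) (q - 3)))

theorem winsOn_of_check {q n σ s K : ℕ} {rows : List (List (ℕ × ℕ))}
    (h : check q n σ s K rows = true) : WinsOn (n + 3) q := by
  simp only [check, Bool.and_eq_true, Nat.ble_eq, Nat.blt_eq] at h
  obtain ⟨⟨⟨hq, hqn⟩, hP, hsK⟩, hrows, hfin⟩ := h
  obtain ⟨p, hp⟩ : ∃ p, rows.length = p + 1 := ⟨rows.length - 1, by omega⟩
  have hp1 : 1 ≤ p := by omega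
  have hsound := rowsLoop_sound rows 0 _ hrows (by simp)
  rw [hp, Nat.add_sub_cancel] at hfin
  simp only [finalCheck, Nat.blt_eq] at hfin
  set BP := ent rows p (q - 3) with hBP
  set b : ℕ → ℕ → ℝ := fun p a => (ent rows (p - 1) a : ℝ) / 2 ^ σ with hb
  have h2σ : (0 : ℝ) < 2 ^ σ := by positivity
  -- moments
  have hmom := moment_bound (N := n + 3) (q := q) (P := p + 1) (n := n) (a0 := q - 3) b
    (by
      intro p' hp' hp'' a ha
      rw [hb]
      have h1 := (hsound (p' - 1) (by omega) a ha).1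
      have h2 : (0 : ℝ) < (ent rows (p' - 1) a : ℝ) := by exact_mod_cast h1
      positivity)
    (by
      intro a ha
      have h1 := (hsound 0 (by omega) a ha).2
      rw [hp, ← EE_eq] at *
      simp only [zero_add, pow_zero, pow_one, mul_one] at h1
      rw [Nat.descFactorial_eq_factorial_mul_choose] at h1
      rw [hb]
      simp only [Nat.sub_self]
      rw [div_le_div_iff₀ (by positivity) h2σ]
      have h3 : (n - (p + 1 - 1) * a).choose a * 2 ^ σ ≤ ent rows 0 a * 2 ^ EE q a := by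
        have hf : 0 < a.factorial := Nat.factorial_pos a
        apply Nat.le_of_mul_le_mul_left _ hf
        calc a.factorial * ((n - (p + 1 - 1) * a).choose a * 2 ^ σ)
            = a.factorial * (n - (p + 1 - 1) * a).choose a * 2 ^ σ := by ring
          _ ≤ ent rows 0 a * (2 ^ EE q a * a.factorial) := h1
          _ = a.factorial * (ent rows 0 a * 2 ^ EE q a) := by ring
      exact_mod_cast h3)
    (by
      intro p' hp' hp'' a ha
      have h1 := (hsound p' (by omega) a ha).2
      rw [hp, ← EE_eq] at *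
      simp only [zero_add] at h1
      rw [Nat.descFactorial_eq_factorial_mul_choose] at h1
      have h0 : ∀ k, (if p' = 0 then (List.replicate (q - 3 + 1) 0).getD k 0
          else ent rows (p' - 1) k) = ent rows (p' - 1) k := by
        intro k; rw [if_neg (by omega)]
      simp only [h0] at h1
      set S := ∑ k ∈ Finset.range (a + 1), a.choose k * ent rows (p' - 1) k with hS
      have h3 : (n - (p + 1 - (p' + 1)) * a).choose a * S ^ p' * 2 ^ σ ≤
          ent rows p' a ^ (p' + 1) * 2 ^ EE q a := by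
        have hf : 0 < a.factorial := Nat.factorial_pos a
        apply Nat.le_of_mul_le_mul_left _ hf
        calc a.factorial * ((n - (p + 1 - (p' + 1)) * a).choose a * S ^ p' * 2 ^ σ)
            = a.factorial * (n - (p + 1 - (p' + 1)) * a).choose a * S ^ p' * 2 ^ σ := by ring
          _ ≤ ent rows p' a ^ (p' + 1) * (2 ^ EE q a * a.factorial) := h1
          _ = a.factorial * (ent rows p' a ^ (p' + 1) * 2 ^ EE q a) := by ring
      have h3' : ((n - (p + 1 - (p' + 1)) * a).choose a : ℝ) * (S : ℝ) ^ p' * 2 ^ σ ≤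
          (ent rows p' a : ℝ) ^ (p' + 1) * 2 ^ EE q a := by exact_mod_cast h3
      rw [hb]
      simp only [Nat.add_sub_cancel]
      have h4 : ∑ i ∈ Finset.range (a + 1), (a.choose i : ℝ) *
          ((ent rows (p' - 1) i : ℝ) / 2 ^ σ) = (S : ℝ) / 2 ^ σ := by
        rw [hS]
        push_cast
        rw [Finset.sum_div]
        apply Finset.sum_congr rfl
        intro i _
        ring
      rw [h4, div_pow, div_pow, div_mul_div_comm, div_le_div_iff₀ (by positivity) (by positivity)]
      have h5 : (0 : ℝ) ≤ (2 ^ σ) ^ p' := by positivity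
      calc ((n - (p + 1 - (p' + 1)) * a).choose a : ℝ) * (S : ℝ) ^ p' * (2 ^ σ) ^ (p' + 1)
          = (((n - (p + 1 - (p' + 1)) * a).choose a : ℝ) * (S : ℝ) ^ p' * 2 ^ σ) *
            (2 ^ σ) ^ p' := by ring
        _ ≤ ((ent rows p' a : ℝ) ^ (p' + 1) * 2 ^ EE q a) * (2 ^ σ) ^ p' :=
            mul_le_mul_of_nonneg_right h3' h5
        _ = _ := by ring)
  -- apply the criterion
  apply winsOn_of_moment (p := p) (s := s) (K := (K : ℝ)) (m := b (p + 1) (q - 3) ^ (p + 1))
    hq hqn hp1 (by exact_mod_cast hsK)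
  · intro τ hτ
    obtain ⟨hτ1, hτ2⟩ := Finset.mem_powersetCard.1 hτ
    apply hmom p (le_refl _) (q - 3) (le_refl _) τ (Finset.range (n + 3) \ τ) hτ1
      Finset.sdiff_subset Finset.disjoint_sdiff (by omega)
    rw [Finset.card_sdiff_of_subset hτ1, Finset.card_range, hτ2]
    simp
  · have e1 : n + 3 - 3 = n := by omega
    have e2 : ((n + 3 : ℕ) : ℝ) - 2 = ((n + 1 : ℕ) : ℝ) := by push_cast; ring
    have e3 : q.choose 2 - 3 = EE q (q - 3) := by
      rw [EE_eq]
      have : q - (q - 3) = 3 := by omega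
      rw [this]; rfl
    have e4 : b (p + 1) (q - 3) = (BP : ℝ) / 2 ^ σ := rfl
    rw [e1, e2, e3, e4]
    set E := EE q (q - 3) with hE
    set C := n.choose (q - 3) with hC
    set c3 := q.choose 3 with hc3
    set fa := (q - 3).factorial with hfa
    have hc3pos : (0 : ℝ) < (c3 : ℝ) := by exact_mod_cast Nat.choose_pos hq
    have hfapos : (0 : ℝ) < (fa : ℝ) := by exact_mod_cast Nat.factorial_pos _
    have hn1 : (0 : ℝ) < ((n + 1 : ℕ) : ℝ) := by positivity
    rw [Nat.descFactorial_eq_factorial_mul_choose, Nat.descFactorial_eq_factorial_mul_choose,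
      ← hC, ← hc3, ← hfa, show Nat.factorial 3 = 6 from rfl] at hfin
    have hKs1 : s ^ (p + 1) ≤ K ^ (p + 1) := Nat.pow_le_pow_left hsK.le _
    have hKs2 : s ^ p ≤ K ^ p := Nat.pow_le_pow_left hsK.le _
    have hfin' : (((BP : ℝ) ^ (p + 1) * 2 ^ E) + (p * (s : ℝ) ^ (p + 1)) *
        2 ^ (σ * (p + 1) + E)) * ((n + 1 : ℕ) : ℝ) * (6 * c3 * fa) +
        3 * p * ((K : ℝ) ^ (p + 1) - (s : ℝ) ^ (p + 1)) * (6 * c3 * fa) * 2 ^ (σ * (p + 1) + E) <
        (6 * (p + 1) * ((K : ℝ) ^ p - (s : ℝ) ^ p) + (p + 1) * (s : ℝ) ^ p * (6 * c3)) *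
        ((fa * C) * 2 ^ (σ * (p + 1))) * ((n + 1 : ℕ) : ℝ) := by
      have h1 := hfin
      have h2 : ((K ^ (p + 1) - s ^ (p + 1) : ℕ) : ℝ) = (K : ℝ) ^ (p + 1) - (s : ℝ) ^ (p + 1) := by
        rw [Nat.cast_sub hKs1]; push_cast; ring
      have h3 : ((K ^ p - s ^ p : ℕ) : ℝ) = (K : ℝ) ^ p - (s : ℝ) ^ p := by
        rw [Nat.cast_sub hKs2]; push_cast; ring
      rw [← h2, ← h3]
      exact_mod_cast h1
    -- the two sides
    have hD : (0 : ℝ) < 2 ^ (σ * (p + 1)) * 2 ^ E * ((n + 1 : ℕ) : ℝ) * (6 * c3 * fa) := by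
      positivity
    rw [← sub_pos]
    have key : ((p : ℝ) + 1) * ((K : ℝ) ^ p - (s : ℝ) ^ p) * ((C : ℝ) / 2 ^ E / (c3 : ℝ)) -
        (((BP : ℝ) / 2 ^ σ) ^ (p + 1) - ((p : ℝ) + 1) * (s : ℝ) ^ p * ((C : ℝ) / 2 ^ E) +
          p * (s : ℝ) ^ (p + 1) + p * ((K : ℝ) ^ (p + 1) - (s : ℝ) ^ (p + 1)) *
          (3 / ((n + 1 : ℕ) : ℝ))) =
        ((6 * (p + 1) * ((K : ℝ) ^ p - (s : ℝ) ^ p) + (p + 1) * (s : ℝ) ^ p * (6 * c3)) *
        ((fa * C) * 2 ^ (σ * (p + 1))) * ((n + 1 : ℕ) : ℝ) -
        ((((BP : ℝ) ^ (p + 1) * 2 ^ E) + (p * (s : ℝ) ^ (p + 1)) *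
        2 ^ (σ * (p + 1) + E)) * ((n + 1 : ℕ) : ℝ) * (6 * c3 * fa) +
        3 * p * ((K : ℝ) ^ (p + 1) - (s : ℝ) ^ (p + 1)) * (6 * c3 * fa) *
          2 ^ (σ * (p + 1) + E))) /
        (2 ^ (σ * (p + 1)) * 2 ^ E * ((n + 1 : ℕ) : ℝ) * (6 * c3 * fa)) := by
      rw [div_pow, ← pow_mul, pow_add]
      field_simp
      ring
    rw [key]
    apply div_pos _ hD
    linarith

end Pool.Agent.H44Cliq
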