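import Pool.Agent.H44Cliq.Game

/-!
# Potentials: averages over random completions
-/

namespace Pool.Agent.H44Cliq

open Finset

variable {α : Type} [DecidableEq α]

/-- average of `F` over the random completions of the Maker set `M` by elements of `U`. -/
noncomputable def ev (F : Finset α → ℝ) (M U : Finset α) : ℝ :=
  (∑ C ∈ U.powerset, F (M ∪ C)) / 2 ^ U.card

theorem ev_split (F : Finset α → ℝ) (M U : Finset α) {v : α} (hv : v ∈ U) :
    ev F M U = (ev F (insert v M) (U.erase v) + ev F M (U.erase v)) / 2 := by
  have hU : U = insert v (U.erase v) := (Finset.insert_erase hv).symm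
  have hn : v ∉ U.erase v := Finset.notMem_erase v U
  have hc : U.card = (U.erase v).card + 1 := by
    rw [Finset.card_erase_of_mem hv]
    have := Finset.card_pos.2 ⟨v, hv⟩
    omega
  have hsum : ∑ C ∈ U.powerset, F (M ∪ C) = ∑ C ∈ (U.erase v).powerset, F (M ∪ C) +
      ∑ C ∈ (U.erase v).powerset, F (insert v M ∪ C) := by
    conv_lhs => rw [hU]
    rw [Finset.sum_powerset_insert hn]
    congr 1
    apply Finset.sum_congr rfl
    intro C _
    congr 1
    rw [Finset.union_insert, Finset.insert_union]
  unfold ev
  rw [hsum, hc, pow_succ]
  have h2 : (2 : ℝ) ^ (U.erase v).card ≠ 0 := by positivity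
  field_simp
  ring

theorem ev_add (F G : Finset α → ℝ) (M U : Finset α) :
    ev (fun X => F X + G X) M U = ev F M U + ev G M U := by
  unfold ev
  rw [Finset.sum_add_distrib, add_div]

theorem ev_sub (F G : Finset α → ℝ) (M U : Finset α) :
    ev (fun X => F X - G X) M U = ev F M U - ev G M U := by
  unfold ev
  rw [Finset.sum_sub_distrib, sub_div]

theorem ev_mul_left (c : ℝ) (F : Finset α → ℝ) (M U : Finset α) :
    ev (fun X => c * F X) M U = c * ev F M U := by
  unfold ev
  rw [← Finset.mul_sum, mul_div_assoc]

theorem ev_const (c : ℝ) (M U : Finset α) : ev (fun _ => c) M U = c := by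
  unfold ev
  rw [Finset.sum_const, Finset.card_powerset, nsmul_eq_mul]
  have h2 : (2 : ℝ) ^ U.card ≠ 0 := by positivity
  push_cast
  field_simp

theorem ev_sum {ι : Type} (s : Finset ι) (F : ι → Finset α → ℝ) (M U : Finset α) :
    ev (fun X => ∑ i ∈ s, F i X) M U = ∑ i ∈ s, ev (F i) M U := by
  unfold ev
  rw [Finset.sum_comm, Finset.sum_div]

theorem ev_mono {F G : Finset α → ℝ} {M U : Finset α}
    (h : ∀ C ⊆ U, F (M ∪ C) ≤ G (M ∪ C)) : ev F M U ≤ ev G M U := by
  unfold ev
  apply div_le_div_of_nonneg_right _ (by positivity)
  apply Finset.sum_le_sum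
  intro C hC
  exact h C (Finset.mem_powerset.1 hC)

theorem ev_le_of_forall {F : Finset α → ℝ} {M U : Finset α} {c : ℝ}
    (h : ∀ C ⊆ U, F (M ∪ C) ≤ c) : ev F M U ≤ c := by
  have := ev_mono (F := F) (G := fun _ => c) h
  rwa [ev_const] at this

theorem le_ev_of_forall {F : Finset α → ℝ} {M U : Finset α} {c : ℝ}
    (h : ∀ C ⊆ U, c ≤ F (M ∪ C)) : c ≤ ev F M U := by
  have := ev_mono (F := fun _ => c) (G := F) h
  rwa [ev_const] at this

theorem ev_empty (F : Finset α → ℝ) (M : Finset α) : ev F M ∅ = F M := by
  unfold ev; simp

/-- second difference -/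
def dd (F : Finset α → ℝ) (v w : α) (M : Finset α) : ℝ :=
  F (insert w (insert v M)) - F (insert v M) - F (insert w M) + F M

theorem ev_dd (F : Finset α → ℝ) (v w : α) (M U : Finset α) :
    ev F (insert w (insert v M)) U - ev F (insert v M) U - ev F (insert w M) U + ev F M U =
      ev (dd F v w) M U := by
  unfold ev dd
  rw [Finset.sum_add_distrib, Finset.sum_sub_distrib, Finset.sum_sub_distrib]
  have h1 : ∀ C : Finset α, insert w (insert v M) ∪ C = insert w (insert v (M ∪ C)) := by
    intro C; rw [Finset.insert_union, Finset.insert_union]
  have h2 : ∀ C : Finset α, insert v M ∪ C = insert v (M ∪ C) := by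
    intro C; rw [Finset.insert_union]
  have h3 : ∀ C : Finset α, insert w M ∪ C = insert w (M ∪ C) := by
    intro C; rw [Finset.insert_union]
  simp only [h1, h2, h3]
  ring

/-- one Maker move `v` followed by one Breaker move `w` -/
theorem ev_round (F : Finset α → ℝ) (M U : Finset α) {v w : α} (hv : v ∈ U) (hw : w ∈ U)
    (hvw : v ≠ w) :
    ev F (insert v M) ((U.erase v).erase w) = ev F M U
      + (ev F (insert v M) (U.erase v) - ev F M U)
      - (ev F (insert w M) (U.erase w) - ev F M U)
      - (1 / 4) * ev (dd F v w) M ((U.erase v).erase w) := by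
  rw [← ev_dd]
  have hwv : w ∈ U.erase v := Finset.mem_erase.2 ⟨hvw.symm, hw⟩
  have hvw' : v ∈ U.erase w := Finset.mem_erase.2 ⟨hvw, hv⟩
  have e1 := ev_split F M U hv
  have e2 := ev_split F (insert v M) (U.erase v) hwv
  have e3 := ev_split F M (U.erase v) hwv
  have e4 := ev_split F (insert w M) (U.erase w) hvw'
  have e5 : (U.erase w).erase v = (U.erase v).erase w := Finset.erase_right_comm
  have e6 : insert v (insert w M) = insert w (insert v M) := Finset.insert_comm _ _ _
  rw [e5, e6] at e4
  rw [e4, e1, e2, e3]
  ring

/-- Maker's theorem: if the second differences of `F` are at most `κ` and the average of `F`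
exceeds `κ/4` times the number of rounds, Maker can reach a set with `F > 0`. -/
theorem win_of_potential (V : Finset α) (W : Finset α → Prop) (F : Finset α → ℝ) (κ : ℝ)
    (hκ : 0 ≤ κ)
    (hF : ∀ M ⊆ V, ∀ v ∈ V, ∀ w ∈ V, v ≠ w → v ∉ M → w ∉ M → dd F v w M ≤ κ)
    (hFW : ∀ M ⊆ V, 0 < F M → W M) (hmono : ∀ M M', M ⊆ M' → W M → W M') :
    ∀ n : ℕ, ∀ M B : Finset α, M ⊆ V → (V \ (M ∪ B)).card = n → Disjoint M B →
      κ / 4 * ((n / 2 : ℕ) : ℝ) < ev F M (V \ (M ∪ B)) → Win V W M B := by
  intro n
  induction n using Nat.strong_induction_on with
  | _ n ih =>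
    intro M B hMV hcard hdis hpos
    set U := V \ (M ∪ B) with hU
    rcases Nat.eq_zero_or_pos n with hn | hn
    · -- no free element
      subst hn
      have hUe : U = ∅ := Finset.card_eq_zero.1 hcard
      rw [hUe, ev_empty] at hpos
      simp only [Nat.zero_div, Nat.cast_zero, mul_zero] at hpos
      exact Win.done _ _ (hFW M hMV hpos)
    · have hne : U.Nonempty := Finset.card_pos.1 (by omega)
      obtain ⟨v, hvU, hvmax⟩ := Finset.exists_max_image U
        (fun x => ev F (insert x M) (U.erase x) - ev F M U) hne
      have hvV : v ∈ V := (Finset.mem_sdiff.1 hvU).1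
      have hvn : v ∉ M ∪ B := (Finset.mem_sdiff.1 hvU).2
      have hUV : U ⊆ V := Finset.sdiff_subset
      have hUM : ∀ x ∈ U, x ∉ M := fun x hx hm =>
        (Finset.mem_sdiff.1 hx).2 (Finset.mem_union_left _ hm)
      refine Win.step M B v hvV hvn ?_ ?_
      · intro w hwV hwn
        have hwv : w ≠ v := by
          intro h; apply hwn; rw [h]
          exact Finset.mem_union_left _ (Finset.mem_insert_self _ _)
        have hwU : w ∈ U := by
          apply Finset.mem_sdiff.2
          refine ⟨hwV, fun h => hwn ?_⟩
          rw [Finset.insert_union]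
          exact Finset.mem_insert_of_mem h
        have hset : V \ (insert v M ∪ insert w B) = (U.erase v).erase w := by
          ext x
          simp only [hU, Finset.mem_sdiff, Finset.mem_union, Finset.mem_insert, Finset.mem_erase]
          tauto
        have hc2 : ((U.erase v).erase w).card = n - 2 := by
          rw [Finset.card_erase_of_mem (Finset.mem_erase.2 ⟨hwv, hwU⟩),
            Finset.card_erase_of_mem hvU, hcard]
          omega
        have hn2 : 2 ≤ n := by
          rw [← hcard]
          have : ({v, w} : Finset α) ⊆ U := by
            intro x hx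
            simp only [Finset.mem_insert, Finset.mem_singleton] at hx
            rcases hx with rfl | rfl
            · exact hvU
            · exact hwU
          have h2 := Finset.card_le_card this
          rwa [Finset.card_pair hwv.symm] at h2
        apply ih (n - 2) (by omega) (insert v M) (insert w B)
        · exact Finset.insert_subset hvV hMV
        · rw [hset, hc2]
        · rw [Finset.disjoint_insert_left, Finset.disjoint_insert_right]
          refine ⟨?_, ?_, hdis⟩
          · simp only [Finset.mem_insert, not_or]
            exact ⟨hwv.symm, fun h => hvn (Finset.mem_union_right _ h)⟩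
          · exact hUM w hwU
        · rw [hset, ev_round F M U hvU hwU hwv.symm]
          have h1 := hvmax w hwU
          have h2 : ev (dd F v w) M ((U.erase v).erase w) ≤ κ := by
            apply ev_le_of_forall
            intro C hC
            have hCU : C ⊆ U := hC.trans ((Finset.erase_subset _ _).trans
              (Finset.erase_subset _ _))
            apply hF _ (Finset.union_subset hMV (hCU.trans hUV)) v hvV w hwV hwv.symm
            · intro h
              rcases Finset.mem_union.1 h with h | h
              · exact hUM v hvU h
              · have := hC h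
                simp at this
            · intro h
              rcases Finset.mem_union.1 h with h | h
              · exact hUM w hwU h
              · have := hC h
                simp at this
          have h3 : ((n / 2 : ℕ) : ℝ) = ((n - 2) / 2 : ℕ) + 1 := by
            have : n / 2 = (n - 2) / 2 + 1 := by omega
            rw [this]; push_cast; ring
          rw [h3] at hpos
          nlinarith
      · intro hfull
        -- `v` was the only free element
        have hUe : U.erase v = ∅ := by
          apply Finset.eq_empty_of_forall_notMem
          intro x hx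
          have hxU := Finset.mem_of_mem_erase hx
          have h1 := hfull x (hUV hxU)
          have h2 := (Finset.mem_sdiff.1 hxU).2
          rw [Finset.insert_union] at h1
          rcases Finset.mem_insert.1 h1 with h | h
          · exact (Finset.mem_erase.1 hx).1 h
          · exact h2 h
        have hs := ev_split F M U hvU
        rw [hUe, ev_empty, ev_empty] at hs
        have h0 : 0 ≤ κ / 4 * ((n / 2 : ℕ) : ℝ) := by positivity
        have h1 : 0 < F (insert v M) ∨ 0 < F M := by
          by_contra hcon
          push Not at hcon
          linarith [hcon.1, hcon.2]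
        rcases h1 with h1 | h1
        · exact hFW _ (Finset.insert_subset hvV hMV) h1
        · exact hmono _ _ (Finset.subset_insert _ _) (hFW _ hMV h1)

end Pool.Agent.H44Cliq
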