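import Pool.Agent.H44Cliq.Breaker

/-!
# The upper bound `A(K_N; clique) ≤ f(N) + 3` for all `N ≥ 2`
-/

namespace Pool.Agent.H44Cliq

open Finset

/-- `log₂ N` as used below -/
noncomputable abbrev lg (N : ℕ) : ℝ := Real.logb 2 N

theorem lg_pos {N : ℕ} (hN : 2 ≤ N) : 1 ≤ lg N := by
  unfold lg
  rw [Real.le_logb_iff_rpow_le (by norm_num) (by positivity), Real.rpow_one]
  exact_mod_cast hN

/-- `f N < c` in multiplicative form -/
theorem f_lt_iff {N : ℕ} (hN : 2 ≤ N) (c : ℝ) :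
    f N < c ↔ (N : ℝ) * Real.exp 1 < lg N * 2 ^ ((c + 3) / 2) := by
  have hL : 0 < lg N := by linarith [lg_pos hN]
  have hN0 : (0 : ℝ) < N := by positivity
  have h1 : f N = 2 * Real.logb 2 ((N : ℝ) * Real.exp 1 / lg N) - 3 := by
    rw [Real.logb_div (by positivity) (by positivity), Real.logb_mul (by positivity)
      (by positivity)]
    unfold f lg
    ring
  rw [h1]
  have h2 : (0 : ℝ) < (N : ℝ) * Real.exp 1 / lg N := by positivity
  constructor
  · intro h
    have h3 : Real.logb 2 ((N : ℝ) * Real.exp 1 / lg N) < (c + 3) / 2 := by linarith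
    rw [Real.logb_lt_iff_lt_rpow (by norm_num) h2, div_lt_iff₀ hL] at h3
    linarith
  · intro h
    have h3 : Real.logb 2 ((N : ℝ) * Real.exp 1 / lg N) < (c + 3) / 2 := by
      rw [Real.logb_lt_iff_lt_rpow (by norm_num) h2, div_lt_iff₀ hL]
      linarith
    linarith

theorem two_mul_pow_le (q : ℕ) (hq : 1 ≤ q) :
    2 * (q : ℝ) ^ q ≤ Real.exp 1 ^ q * (q.factorial : ℝ) := by
  obtain ⟨k, rfl⟩ : ∃ k, q = k + 1 := ⟨q - 1, by omega⟩
  have h1 := Real.sum_le_exp_of_nonneg (x := ((k + 1 : ℕ) : ℝ)) (by positivity) (k + 2)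
  rw [Finset.sum_range_succ, Finset.sum_range_succ] at h1
  have h2 : (0 : ℝ) ≤ ∑ i ∈ Finset.range k, ((k + 1 : ℕ) : ℝ) ^ i / (i.factorial : ℝ) := by
    positivity
  have h3 : ((k + 1 : ℕ) : ℝ) ^ k / (k.factorial : ℝ) =
      ((k + 1 : ℕ) : ℝ) ^ (k + 1) / ((k + 1).factorial : ℝ) := by
    rw [Nat.factorial_succ, pow_succ]
    push_cast
    have : (k.factorial : ℝ) ≠ 0 := by positivity
    have h5 : (k : ℝ) + 1 ≠ 0 := by positivity
    field_simp
  rw [h3] at h1
  have h4 : Real.exp ((k + 1 : ℕ) : ℝ) = Real.exp 1 ^ (k + 1) := by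
    rw [← Real.exp_nat_mul, mul_one]
  rw [h4] at h1
  have h6 : (0 : ℝ) < ((k + 1).factorial : ℝ) := by positivity
  have h7 : 2 * (((k + 1 : ℕ) : ℝ) ^ (k + 1) / ((k + 1).factorial : ℝ)) ≤
      Real.exp 1 ^ (k + 1) := by linarith
  rw [← mul_div_assoc, div_le_iff₀ h6] at h7
  exact h7

theorem log_two_lo : (0.6931471803 : ℝ) < Real.log 2 := Real.log_two_gt_d9
theorem log_two_hi : Real.log 2 < (0.6931471808 : ℝ) := Real.log_two_lt_d9

/-- `2 x - 2 log₂ x + 2 log₂ e ≥ √2 x` for `x ≥ 3/2` -/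
theorem key_ineq {x : ℝ} (hx : 3 / 2 ≤ x) :
    Real.sqrt 2 * x ≤ 2 * x - 2 * Real.logb 2 x + 2 * Real.logb 2 (Real.exp 1) := by
  have h1 : Real.log (x / 8) ≤ x / 8 - 1 := Real.log_le_sub_one_of_pos (by linarith)
  have h2 : Real.log (x / 8) = Real.log x - 3 * Real.log 2 := by
    rw [Real.log_div (by linarith) (by norm_num)]
    have : Real.log 8 = 3 * Real.log 2 := by
      rw [show (8 : ℝ) = 2 ^ (3 : ℕ) by norm_num, Real.log_pow]; norm_num
    rw [this]
  have h3 : Real.log x ≤ x / 8 - 1 + 3 * Real.log 2 := by linarith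
  have hl := log_two_lo
  have hh := log_two_hi
  have hl0 : 0 < Real.log 2 := by linarith
  have h4 : Real.logb 2 x = Real.log x / Real.log 2 := rfl
  have h5 : Real.logb 2 (Real.exp 1) = 1 / Real.log 2 := by
    unfold Real.logb; rw [Real.log_exp]
  rw [h4, h5]
  have h6 : Real.log x / Real.log 2 ≤ (x / 8 - 1 + 3 * Real.log 2) / Real.log 2 :=
    div_le_div_of_nonneg_right h3 hl0.le
  have h7 : (x / 8 - 1 + 3 * Real.log 2) / Real.log 2 = (x / 8 - 1) * (1 / Real.log 2) + 3 := by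
    field_simp
  have h8 : (1.4426950 : ℝ) ≤ 1 / Real.log 2 := by
    rw [le_div_iff₀ hl0]; nlinarith
  have h9 : 1 / Real.log 2 ≤ (1.4426951 : ℝ) := by
    rw [div_le_iff₀ hl0]; nlinarith
  have h10 : Real.sqrt 2 ≤ 1.41422 := by
    rw [Real.sqrt_le_left (by norm_num)]; norm_num
  set t := 1 / Real.log 2 with ht
  have h11 : Real.sqrt 2 * x ≤ 1.41422 * x := by nlinarith
  have h12 : (x / 8 - 1) * t ≤ x / 8 * 1.4426951 - t := by nlinarith
  linarith

theorem choose_lt {N q : ℕ} (hN : 3 ≤ N) (hq : 1 ≤ q) (h : f N + 3 < q) :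
    N.choose q * 2 < 2 ^ (q.choose 2) := by
  have hL := lg_pos (N := N) (by omega)
  have hL2 : 3 / 2 ≤ lg N := by
    unfold lg
    rw [Real.le_logb_iff_rpow_le (by norm_num) (by positivity)]
    have h1 : ((2 : ℝ) ^ (3 / 2 : ℝ)) ≤ 3 := by
      have h2 : ((2 : ℝ) ^ (3 / 2 : ℝ)) ^ 2 = 8 := by
        rw [← Real.rpow_natCast, ← Real.rpow_mul (by norm_num)]; norm_num
      have h3 : (0 : ℝ) ≤ (2 : ℝ) ^ (3 / 2 : ℝ) := by positivity
      nlinarith
    calc (2 : ℝ) ^ (3 / 2 : ℝ) ≤ 3 := h1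
      _ ≤ N := by exact_mod_cast hN
  have h1 : f N < (q : ℝ) - 3 := by linarith
  rw [f_lt_iff (by omega)] at h1
  have h2 : ((q : ℝ) - 3 + 3) / 2 = (1 / 2 : ℝ) * q := by ring
  rw [h2] at h1
  have hs : (2 : ℝ) ^ ((1 / 2 : ℝ) * q) = Real.sqrt 2 ^ q := by
    rw [Real.rpow_mul (by norm_num), Real.rpow_natCast, Real.sqrt_eq_rpow]
  rw [hs] at h1
  have hsL : Real.sqrt 2 * lg N ≤ q := by
    have := key_ineq hL2
    unfold f at h
    unfold lg at *
    linarith
  have hs2 : Real.sqrt 2 ^ 2 = 2 := Real.sq_sqrt (by norm_num)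
  have hspos : 0 < Real.sqrt 2 := by positivity
  -- `(N e)^q < L^q (√2)^(q²)`
  have h3 : ((N : ℝ) * Real.exp 1) ^ q < (lg N * Real.sqrt 2 ^ q) ^ q :=
    pow_lt_pow_left₀ h1 (by positivity) (by omega)
  have h4 : (N.choose q : ℝ) ≤ (N : ℝ) ^ q / (q.factorial : ℝ) := Nat.choose_le_pow_div q N
  have hf : (0 : ℝ) < (q.factorial : ℝ) := by positivity
  have he : (0 : ℝ) < Real.exp 1 ^ q := by positivity
  have h5 := two_mul_pow_le q hq
  have h6 : (Real.sqrt 2 * lg N) ^ q ≤ (q : ℝ) ^ q := pow_le_pow_left₀ (by positivity) hsL q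
  have h7 : Real.sqrt 2 ^ (q * (q - 1)) = 2 ^ (q.choose 2) := by
    have : q * (q - 1) = 2 * q.choose 2 := by
      obtain ⟨k, hk⟩ := Nat.even_mul_pred_self q
      rw [Nat.choose_two_right]
      omega
    rw [this, pow_mul, hs2]
  have h8 : (lg N * Real.sqrt 2 ^ q) ^ q = (Real.sqrt 2 * lg N) ^ q * 2 ^ (q.choose 2) := by
    rw [← h7, mul_pow, mul_pow, ← pow_mul]
    obtain ⟨k, rfl⟩ : ∃ k, q = k + 1 := ⟨q - 1, by omega⟩
    rw [Nat.add_sub_cancel]
    ring
  rw [mul_pow, h8] at h3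
  have h9 : (2 : ℝ) * ((N : ℝ) ^ q * Real.exp 1 ^ q) < Real.exp 1 ^ q * (q.factorial : ℝ) *
      2 ^ (q.choose 2) := by
    have h10 : (0 : ℝ) < 2 ^ (q.choose 2) := by positivity
    calc (2 : ℝ) * ((N : ℝ) ^ q * Real.exp 1 ^ q)
        < 2 * ((Real.sqrt 2 * lg N) ^ q * 2 ^ (q.choose 2)) := by linarith
      _ ≤ 2 * ((q : ℝ) ^ q * 2 ^ (q.choose 2)) := by
          have := mul_le_mul_of_nonneg_right h6 h10.le
          linarith
      _ = (2 * (q : ℝ) ^ q) * 2 ^ (q.choose 2) := by ring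
      _ ≤ _ := mul_le_mul_of_nonneg_right h5 h10.le
  have h11 : (N.choose q : ℝ) * 2 < 2 ^ (q.choose 2) := by
    have h12 : (N.choose q : ℝ) * (q.factorial : ℝ) ≤ (N : ℝ) ^ q := by
      rwa [le_div_iff₀ hf] at h4
    have h13 : (2 : ℝ) * (N : ℝ) ^ q < (q.factorial : ℝ) * 2 ^ (q.choose 2) := by
      by_contra hcon
      push Not at hcon
      have := mul_le_mul_of_nonneg_left hcon he.le
      nlinarith
    by_contra hcon
    push Not at hcon
    have := mul_le_mul_of_nonneg_left hcon hf.le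
    nlinarith
  exact_mod_cast h11

theorem bddAbove_set (N : ℕ) : BddAbove {q : ℕ | q ≤ N ∧ MakerBuilds N q} :=
  ⟨N, fun _ h => h.1⟩

theorem f_two_lo : -3 ≤ f 2 := by
  unfold f
  have h1 : Real.logb 2 ((2 : ℕ) : ℝ) = 1 := by
    push_cast
    exact Real.logb_self_eq_one (by norm_num)
  rw [h1, Real.logb_one]
  have h2 : 0 ≤ Real.logb 2 (Real.exp 1) := Real.logb_nonneg (by norm_num)
    (by linarith [Real.add_one_le_exp (1 : ℝ)])
  linarith

theorem one_le_f_two : 1 ≤ f 2 := by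
  unfold f
  have h1 : Real.logb 2 ((2 : ℕ) : ℝ) = 1 := by
    push_cast
    exact Real.logb_self_eq_one (by norm_num)
  rw [h1, Real.logb_one]
  have h2 : 1 ≤ Real.logb 2 (Real.exp 1) := by
    rw [Real.le_logb_iff_rpow_le (by norm_num) (by positivity), Real.rpow_one]
    linarith [Real.add_one_le_exp (1 : ℝ)]
  linarith

/-- `√2 log₂ N - 3 ≤ f N` -/
theorem f_lower {N : ℕ} (hN : 3 ≤ N) : Real.sqrt 2 * lg N - 3 ≤ f N := by
  have hL2 : 3 / 2 ≤ lg N := by
    unfold lg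
    rw [Real.le_logb_iff_rpow_le (by norm_num) (by positivity)]
    have h1 : ((2 : ℝ) ^ (3 / 2 : ℝ)) ≤ 3 := by
      have h2 : ((2 : ℝ) ^ (3 / 2 : ℝ)) ^ 2 = 8 := by
        rw [← Real.rpow_natCast, ← Real.rpow_mul (by norm_num)]; norm_num
      have h3 : (0 : ℝ) ≤ (2 : ℝ) ^ (3 / 2 : ℝ) := by positivity
      nlinarith
    calc (2 : ℝ) ^ (3 / 2 : ℝ) ≤ 3 := h1
      _ ≤ N := by exact_mod_cast hN
  have := key_ineq hL2
  unfold f
  unfold lg at *
  linarith

theorem achievement_le {N : ℕ} (hN : 2 ≤ N) : (achievement N : ℝ) ≤ f N + 3 := by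
  by_contra hcon
  push Not at hcon
  by_cases hne : {q : ℕ | q ≤ N ∧ MakerBuilds N q}.Nonempty
  · have hmem : achievement N ∈ {q : ℕ | q ≤ N ∧ MakerBuilds N q} :=
      Nat.sSup_mem hne (bddAbove_set N)
    obtain ⟨h1, h2⟩ := hmem
    rcases Nat.lt_or_ge N 3 with h3 | h3
    · have hN2 : N = 2 := by omega
      subst hN2
      have h4 : (achievement 2 : ℝ) ≤ 2 := by exact_mod_cast h1
      have h5 := one_le_f_two
      linarith
    · have h4 : (2 : ℝ) < achievement N := by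
        have := f_lower h3
        have hL2 : 3 / 2 ≤ lg N := by
          unfold lg
          rw [Real.le_logb_iff_rpow_le (by norm_num) (by positivity)]
          have h1 : ((2 : ℝ) ^ (3 / 2 : ℝ)) ≤ 3 := by
            have h2 : ((2 : ℝ) ^ (3 / 2 : ℝ)) ^ 2 = 8 := by
              rw [← Real.rpow_natCast, ← Real.rpow_mul (by norm_num)]; norm_num
            have h3 : (0 : ℝ) ≤ (2 : ℝ) ^ (3 / 2 : ℝ) := by positivity
            nlinarith
          calc (2 : ℝ) ^ (3 / 2 : ℝ) ≤ 3 := h1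
            _ ≤ N := by exact_mod_cast h3
        have hs : 1.4 ≤ Real.sqrt 2 := by
          apply Real.le_sqrt_of_sq_le; norm_num
        nlinarith
      have h5 : 2 < achievement N := by exact_mod_cast h4
      exact not_makerBuilds (by omega) (choose_lt h3 (by omega) hcon) h2
  · have : achievement N = 0 := by
      unfold achievement
      rw [Set.not_nonempty_iff_eq_empty.1 hne]
      simp
    rw [this] at hcon
    rcases Nat.lt_or_ge N 3 with h3 | h3
    · have hN2 : N = 2 := by omega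
      subst hN2
      have h5 := one_le_f_two
      push_cast at hcon
      linarith
    · have h6 := f_lower h3
      have h7 := lg_pos hN
      have h8 : 0 ≤ Real.sqrt 2 * lg N := by positivity
      push_cast at hcon
      linarith

theorem le_achievement {N q : ℕ} (hq : q ≤ N) (h : MakerBuilds N q) : q ≤ achievement N :=
  le_csSup (bddAbove_set N) ⟨hq, h⟩

end Pool.Agent.H44Cliq
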